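import Pool.Agent.R431.SG.Pair

/-!
# The obstruction
-/

set_option autoImplicit false
set_option linter.all false

open scoped Classical

namespace Pool.Agent.R431.SG

open Polynomial NumberField

section padic

variable {p : ℕ} [Fact p.Prime]

lemma toZMod_eq_zero_iff (x : ℤ_[p]) : PadicInt.toZMod x = 0 ↔ ‖x‖ < 1 := by
  rw [← RingHom.mem_ker, PadicInt.ker_toZMod, IsLocalRing.mem_maximalIdeal,
    PadicInt.mem_nonunits]

/-- simple roots of the reduction lift -/
lemma lift_root (F : ℤ_[p][X]) (r : ZMod p) (h0 : (F.map PadicInt.toZMod).eval r = 0)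
    (h1 : (derivative (F.map PadicInt.toZMod)).eval r ≠ 0) :
    ∃ ρ : ℤ_[p], F.eval ρ = 0 ∧ PadicInt.toZMod ρ = r := by
  obtain ⟨a, ha⟩ : ∃ a : ℤ_[p], PadicInt.toZMod a = r := by
    refine ⟨((r.val : ℕ) : ℤ_[p]), ?_⟩
    rw [map_natCast, ZMod.natCast_val, ZMod.cast_id', id]
  have e0 : PadicInt.toZMod (F.eval a) = 0 := by
    rw [← ha, eval_map, eval₂_hom] at h0
    exact h0
  have e1 : PadicInt.toZMod (F.derivative.eval a) ≠ 0 := by
    rw [← ha, derivative_map, eval_map, eval₂_hom] at h1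
    exact h1
  rw [toZMod_eq_zero_iff] at e0
  rw [Ne, toZMod_eq_zero_iff, not_lt] at e1
  have e2 : ‖F.derivative.eval a‖ = 1 := le_antisymm (PadicInt.norm_le_one _) e1
  have hnorm : ‖aeval a F‖ < ‖aeval a F.derivative‖ ^ 2 := by
    show ‖F.eval a‖ < ‖F.derivative.eval a‖ ^ 2
    rw [e2, one_pow]
    exact e0
  obtain ⟨ρ, h2, h3, -⟩ := hensels_lemma hnorm
  change F.eval ρ = 0 at h2
  change ‖ρ - a‖ < ‖F.derivative.eval a‖ at h3
  rw [e2] at h3
  refine ⟨ρ, h2, ?_⟩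
  have h4 := (toZMod_eq_zero_iff (ρ - a)).2 h3
  rw [map_sub, sub_eq_zero] at h4
  rw [h4, ha]

end padic

section nf

variable {k : Type} [Field k] [NumberField k]

lemma red_ne_zero {x : 𝓞 k} {m : ℤ} (hm : m ≠ 0) (hx : x ∣ (m : 𝓞 k)) {p : ℕ} [Fact p.Prime]
    (hp : m.natAbs < p) (σ : 𝓞 k →+* ℤ_[p]) : red σ x ≠ 0 := by
  intro h
  obtain ⟨y, hy⟩ := hx
  have h1 := congrArg (red σ) hy
  rw [map_mul, h, zero_mul, map_intCast] at h1
  rw [ZMod.intCast_zmod_eq_zero_iff_dvd] at h1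
  have h2 := Int.natAbs_dvd_natAbs.2 h1
  rw [Int.natAbs_natCast] at h2
  have h3 := Nat.le_of_dvd (Int.natAbs_pos.2 hm) h2
  omega

/-- clearing denominators -/
lemma clear (f : k[X]) : ∃ (g : (𝓞 k)[X]) (d : 𝓞 k), d ≠ 0 ∧
    g.map (algebraMap (𝓞 k) k) = C (algebraMap (𝓞 k) k d) * f := by
  obtain ⟨d, hd, hd'⟩ := IsLocalization.integerNormalization_spec (nonZeroDivisors (𝓞 k)) f
  refine ⟨IsLocalization.integerNormalization (nonZeroDivisors (𝓞 k)) f, d,
    nonZeroDivisors.ne_zero hd, ?_⟩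
  rw [hd']
  ext i
  rw [coeff_smul, coeff_C_mul, Algebra.smul_def]

/-- an integral model whose reductions are not constants times squares -/
theorem exists_model {Q : k[X]} (hQ : Q.Separable) (hd : 1 ≤ Q.natDegree) :
    ∃ (f : (𝓞 k)[X]) (e : k) (p0 : ℕ), e ≠ 0 ∧ f.map (algebraMap (𝓞 k) k) = C e * Q ∧
      ∀ (p : ℕ) [Fact p.Prime] (σ : 𝓞 k →+* ℤ_[p]), p0 ≤ p →
        (f.map (red σ)).natDegree = Q.natDegree ∧
          ∀ (c : ZMod p) (h : (ZMod p)[X]), f.map (red σ) ≠ C c * h ^ 2 := by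
  have hinj : Function.Injective (algebraMap (𝓞 k) k) := FaithfulSMul.algebraMap_injective _ _
  obtain ⟨f, d, hd0, hf⟩ := clear Q
  have he : algebraMap (𝓞 k) k d ≠ 0 := by
    rw [Ne, map_eq_zero_iff _ hinj]
    exact hd0
  have hfsep : (f.map (algebraMap (𝓞 k) k)).Separable := by
    rw [hf]
    exact (hQ.unit_mul (isUnit_C.2 (isUnit_iff_ne_zero.2 he)))
  obtain ⟨u, v, huv⟩ := hfsep
  obtain ⟨U, s, hs, hU⟩ := clear u
  obtain ⟨V, t, ht, hV⟩ := clear v
  have key : C t * U * f + C s * V * derivative f = C (s * t) := by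
    apply Polynomial.map_injective _ hinj
    rw [Polynomial.map_add, Polynomial.map_mul, Polynomial.map_mul, Polynomial.map_mul,
      Polynomial.map_mul, map_C, map_C, map_C, hU, hV, map_mul, C_mul, ← derivative_map]
    linear_combination (C (algebraMap (𝓞 k) k s) * C (algebraMap (𝓞 k) k t)) * huv
  have hQ0 : Q ≠ 0 := by
    rintro rfl
    simp at hd
  have hf0 : f ≠ 0 := by
    rintro rfl
    rw [Polynomial.map_zero] at hf
    exact mul_ne_zero (C_ne_zero.2 he) hQ0 hf.symm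
  have hfd : f.natDegree = Q.natDegree := by
    rw [← natDegree_map_eq_of_injective hinj, hf, natDegree_C_mul he]
  obtain ⟨m1, hm1, h1⟩ := exists_dvd_int (mul_ne_zero hs ht)
  obtain ⟨m2, hm2, h2⟩ := exists_dvd_int (leadingCoeff_ne_zero.2 hf0)
  refine ⟨f, algebraMap (𝓞 k) k d, m1.natAbs + m2.natAbs + 1, he, hf, ?_⟩
  intro p _ σ hp
  have r1 := red_ne_zero hm1 h1 (by omega) σ
  have r2 := red_ne_zero hm2 h2 (by omega) σ
  have hdeg : (f.map (red σ)).natDegree = Q.natDegree := by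
    rw [natDegree_map_of_leadingCoeff_ne_zero _ r2, hfd]
  refine ⟨hdeg, ?_⟩
  intro c h hch
  have k1 := congrArg (Polynomial.map (red σ)) key
  rw [Polynomial.map_add, Polynomial.map_mul, Polynomial.map_mul, Polynomial.map_mul,
    Polynomial.map_mul, map_C, map_C, map_C, ← derivative_map, hch] at k1
  have hdv : h ∣ C (red σ (s * t)) := by
    rw [← k1]
    refine dvd_add ?_ ?_
    · exact Dvd.dvd.mul_left (Dvd.dvd.mul_left (dvd_pow_self _ two_ne_zero) _) _
    · refine Dvd.dvd.mul_left ?_ _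
      rw [derivative_C_mul, derivative_pow]
      refine Dvd.dvd.mul_left ?_ _
      refine Dvd.dvd.mul_right ?_ _
      simp
  have hu : IsUnit h := isUnit_of_dvd_unit hdv (isUnit_C.2 (isUnit_iff_ne_zero.2 r1))
  have h3 : (f.map (red σ)).natDegree = 0 := by
    rw [hch]
    have h4 : (h ^ 2).natDegree = 0 := natDegree_eq_zero_of_isUnit (hu.pow 2)
    have h5 : (C c * h ^ 2).natDegree ≤ (h ^ 2).natDegree := natDegree_C_mul_le _ _
    omega
  omega

/-- **The obstruction.** -/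
theorem pair_contra {p : ℕ} [Fact p.Prime] (σ : 𝓞 k →+* ℤ_[p]) {N : ℕ} {c : Fin N → 𝓞 k}
    {f : (𝓞 k)[X]} {Q : k[X]} {e : k} (he : e ≠ 0) (hf : f.map (algebraMap (𝓞 k) k) = C e * Q)
    (hobs : PairObs (f.map (red σ)) (fun j => red σ (c j))) {W z : k[X]} {a : k} (ha : a ≠ 0)
    (hW : IsCoprime (pol fun j => algebraMap (𝓞 k) k (c j)) W)
    (hD : (pol fun j => algebraMap (𝓞 k) k (c j)) ∣ C a * (Q * W ^ 2) - z ^ 2) : False := by
  obtain ⟨r, r', h1, h2, h3, h4, h5⟩ := hobs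
  have hred : (pol fun j => σ (c j)).map (PadicInt.toZMod (p := p)) =
      pol fun j => red σ (c j) := by
    rw [pol_map]
    rfl
  obtain ⟨ρ, hρ, hρr⟩ := lift_root (pol fun j => σ (c j)) r (by rw [hred]; exact h1)
    (by rw [hred]; exact h3)
  obtain ⟨ρ', hρ', hρr'⟩ := lift_root (pol fun j => σ (c j)) r' (by rw [hred]; exact h2)
    (by rw [hred]; exact h4)
  -- evaluation at a root
  have key : ∀ τ : ℤ_[p], (pol fun j => σ (c j)).eval τ = 0 →
      ∃ w v : ℚ_[p], w ≠ 0 ∧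
        (((f.map σ).eval τ : ℤ_[p]) : ℚ_[p]) * (ext σ a * w ^ 2) = ext σ e * v ^ 2 := by
    intro τ hτ
    have hev : ((pol fun j => algebraMap (𝓞 k) k (c j)).map (ext σ)).eval (τ : ℚ_[p]) = 0 := by
      have e1 : (pol fun j => algebraMap (𝓞 k) k (c j)).map (ext σ) =
          (pol fun j => σ (c j)).map (algebraMap ℤ_[p] ℚ_[p]) := by
        rw [pol_map, pol_map]
        congr 1
        funext j
        exact ext_alg σ (c j)
      have e2 : (τ : ℚ_[p]) = algebraMap ℤ_[p] ℚ_[p] τ := rfl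
      rw [e1, e2, eval_map, eval₂_hom, hτ, map_zero]
    refine ⟨(W.map (ext σ)).eval (τ : ℚ_[p]), (z.map (ext σ)).eval (τ : ℚ_[p]), ?_, ?_⟩
    · obtain ⟨u, v, huv⟩ := hW
      intro h0
      have e3 := congrArg (fun g : k[X] => (g.map (ext σ)).eval (τ : ℚ_[p])) huv
      simp only [Polynomial.map_add, Polynomial.map_mul, eval_add, eval_mul, hev, h0, mul_zero,
        add_zero, Polynomial.map_one, eval_one] at e3
      exact zero_ne_one e3
    · obtain ⟨g, hg⟩ := hD
      have e3 := congrArg (fun g : k[X] => (g.map (ext σ)).eval (τ : ℚ_[p])) hg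
      simp only [Polynomial.map_sub, Polynomial.map_mul, Polynomial.map_pow, map_C, eval_sub,
        eval_mul, eval_pow, eval_C, hev, zero_mul] at e3
      have e4 : (((f.map σ).eval τ : ℤ_[p]) : ℚ_[p]) = ext σ e * (Q.map (ext σ)).eval (τ : ℚ_[p]) := by
        have e5 : (f.map (algebraMap (𝓞 k) k)).map (ext σ) =
            (f.map σ).map (algebraMap ℤ_[p] ℚ_[p]) := by
          rw [Polynomial.map_map, Polynomial.map_map]
          congr 1
          ext x
          exact ext_alg σ x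
        have e6 := congrArg (fun g : ℚ_[p][X] => g.eval (τ : ℚ_[p])) e5
        simp only [hf, Polynomial.map_mul, map_C, eval_mul, eval_C] at e6
        rw [e6]
        have e2 : (τ : ℚ_[p]) = algebraMap ℤ_[p] ℚ_[p] τ := rfl
        conv_rhs => rw [e2, eval_map, eval₂_hom]
        rfl
      rw [e4]
      linear_combination (ext σ e) * e3
  obtain ⟨w, v, hw, e1⟩ := key ρ hρ
  obtain ⟨w', v', hw', e2⟩ := key ρ' hρ'
  have ha' : ext σ a ≠ 0 := (_root_.map_ne_zero _).2 ha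
  set y : ℚ_[p] := ext σ e * v * v' / (ext σ a * w * w') with hy
  have hden : ext σ a * w * w' ≠ 0 := mul_ne_zero (mul_ne_zero ha' hw) hw'
  have hyy : y ^ 2 = algebraMap ℤ_[p] ℚ_[p] ((f.map σ).eval ρ * (f.map σ).eval ρ') := by
    rw [hy, div_pow, div_eq_iff (pow_ne_zero _ hden), map_mul]
    have e3 : algebraMap ℤ_[p] ℚ_[p] ((f.map σ).eval ρ) = (((f.map σ).eval ρ : ℤ_[p]) : ℚ_[p]) :=
      rfl
    have e4 : algebraMap ℤ_[p] ℚ_[p] ((f.map σ).eval ρ') =
        (((f.map σ).eval ρ' : ℤ_[p]) : ℚ_[p]) := rfl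
    rw [e3, e4]
    have e5 : (((f.map σ).eval ρ : ℤ_[p]) : ℚ_[p]) * (ext σ a * w ^ 2) *
        ((((f.map σ).eval ρ' : ℤ_[p]) : ℚ_[p]) * (ext σ a * w' ^ 2)) =
        (ext σ e * v ^ 2) * (ext σ e * v' ^ 2) := by rw [e1, e2]
    linear_combination -e5
  have hint : IsIntegral ℤ_[p] y := by
    have : IsIntegral ℤ_[p] (y ^ 2) := by rw [hyy]; exact isIntegral_algebraMap
    exact this.of_pow (by norm_num)
  obtain ⟨y0, hy0⟩ := IsIntegrallyClosed.isIntegral_iff.1 hint
  have h6 : y0 ^ 2 = (f.map σ).eval ρ * (f.map σ).eval ρ' := by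
    apply IsFractionRing.injective ℤ_[p] ℚ_[p]
    rw [map_pow, hy0, hyy]
  have h7 : ∀ τ : ℤ_[p], PadicInt.toZMod ((f.map σ).eval τ) =
      (f.map (red σ)).eval (PadicInt.toZMod τ) := by
    intro τ
    have : f.map (red σ) = (f.map σ).map (PadicInt.toZMod (p := p)) := by
      rw [Polynomial.map_map]
      rfl
    conv_rhs => rw [this, eval_map, eval₂_hom]
  have h8 := congrArg (PadicInt.toZMod (p := p)) h6
  rw [map_pow, map_mul, h7, h7, hρr, hρr'] at h8
  rw [← h8] at h5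
  by_cases hz : PadicInt.toZMod y0 = 0
  · rw [hz, zero_pow two_ne_zero, MulChar.map_zero] at h5
    norm_num at h5
  · rw [quadraticChar_sq_one' hz] at h5
    norm_num at h5

end nf

end Pool.Agent.R431.SG
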