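import Pool.Agent.R431.SG.Irr
import Pool.Agent.R939.FF.Cnt

/-!
# Counting polynomials over a prime field
-/

set_option autoImplicit false
set_option linter.all false

open scoped Classical

namespace Pool.Agent.R431.SG

open Polynomial Finset

/-- many polynomials are irreducible -/
theorem card_irr (p : ℕ) [Fact p.Prime] {n : ℕ} (hn : 3 ≤ n) :
    (1 / (4 * n : ℝ)) * (p : ℝ) ^ (n + 1) ≤
      (({c : Fin (n + 1) → ZMod p | (pol c).natDegree = n ∧ Irreducible (pol c)}.ncard : ℕ) :
        ℝ) := by
  have hn0 : n ≠ 0 := by omega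
  have hp2 : 2 ≤ p := (Fact.out : p.Prime).two_le
  let E := GaloisField p n
  haveI : Fintype E := Fintype.ofFinite _
  have hE : Module.finrank (ZMod p) E = n := GaloisField.finrank p hn0
  have hcE : Fintype.card E = p ^ n := by
    rw [← Nat.card_eq_fintype_card]
    exact GaloisField.card p n hn0
  set Gd : Finset E := univ.filter fun x => (minpoly (ZMod p) x).natDegree = n with hGd
  have h1 : (univ.filter fun x : E => (minpoly (ZMod p) x).natDegree ≠ n).card ≤
      p ^ (n / 2 + 1) := by
    have := Pool.Agent.R939.FF.card_small (F := ZMod p) (E := E)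
    rwa [hE, ZMod.card] at this
  have h2 : Gd.card + (univ.filter fun x : E => ¬ (minpoly (ZMod p) x).natDegree = n).card =
      p ^ n := by
    rw [hGd, Finset.card_filter_add_card_filter_not, card_univ, hcE]
  have h3 : p ^ (n / 2 + 1) ≤ p ^ (n - 1) := Nat.pow_le_pow_right (by omega) (by omega)
  have h4 : p ^ n = p ^ (n - 1) * p := by
    rw [← pow_succ]
    congr 1
    omega
  have hG : (p : ℝ) ^ n ≤ 2 * Gd.card := by
    have h5 : 2 * p ^ (n - 1) ≤ p ^ n := by
      rw [h4, Nat.mul_comm]
      exact Nat.mul_le_mul_left _ hp2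
    have h6 : p ^ n ≤ 2 * Gd.card := by
      have h1' : (univ.filter fun x : E => ¬ (minpoly (ZMod p) x).natDegree = n).card ≤
        p ^ (n / 2 + 1) := h1
      omega
    exact_mod_cast h6
  let s : Finset (ZMod p × E) := (univ.erase 0) ×ˢ Gd
  let f : ZMod p × E → (Fin (n + 1) → ZMod p) := fun q j =>
    (C q.1 * minpoly (ZMod p) q.2).coeff j
  have hint : ∀ x : E, IsIntegral (ZMod p) x := fun x => Algebra.IsIntegral.isIntegral x
  have hdeg : ∀ q ∈ s, (C q.1 * minpoly (ZMod p) q.2).natDegree = n := by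
    intro q hq
    rw [mem_product, mem_erase] at hq
    rw [natDegree_C_mul hq.1.1]
    have := hq.2
    rw [hGd, mem_filter] at this
    exact this.2
  have hpol : ∀ q ∈ s, pol (f q) = C q.1 * minpoly (ZMod p) q.2 := fun q hq =>
    pol_of (hdeg q hq).le
  have hfib : ∀ b ∈ s.image f, (s.filter fun q => f q = b).card ≤ n := by
    intro b hb
    obtain ⟨q0, hq0, rfl⟩ := mem_image.1 hb
    set P := C q0.1 * minpoly (ZMod p) q0.2 with hP
    have hPd : P.natDegree = n := hdeg q0 hq0
    have hP0 : P ≠ 0 := by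
      intro h
      rw [h, natDegree_zero] at hPd
      omega
    have hsub : (s.filter fun q => f q = f q0).card ≤ (P.aroots E).toFinset.card := by
      refine Finset.card_le_card_of_injOn (fun q => q.2) ?_ ?_
      · intro q hq
        rw [Finset.mem_coe, mem_filter] at hq
        rw [Finset.mem_coe, Multiset.mem_toFinset, mem_aroots]
        refine ⟨hP0, ?_⟩
        have h5 : P = C q.1 * minpoly (ZMod p) q.2 := by
          rw [← hpol q hq.1, hq.2, hpol q0 hq0]
        rw [h5, map_mul, minpoly.aeval, mul_zero]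
      · intro q hq q' hq' hqq
        rw [Finset.mem_coe, mem_filter] at hq hq'
        have h5 : C q.1 * minpoly (ZMod p) q.2 = C q'.1 * minpoly (ZMod p) q'.2 := by
          rw [← hpol q hq.1, hq.2, ← hq'.2, hpol q' hq'.1]
        have h6 := congrArg leadingCoeff h5
        rw [leadingCoeff_mul, leadingCoeff_mul, leadingCoeff_C, leadingCoeff_C,
          (minpoly.monic (hint _)).leadingCoeff, (minpoly.monic (hint _)).leadingCoeff, mul_one,
          mul_one] at h6
        exact Prod.ext h6 hqq
    refine hsub.trans ((Multiset.toFinset_card_le _).trans ?_)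
    rw [aroots]
    refine (card_roots' _).trans ?_
    rw [natDegree_map, hPd]
  have h7 := Finset.card_le_mul_card_image s n hfib
  have h8 : (s.image f).card ≤
      {c : Fin (n + 1) → ZMod p | (pol c).natDegree = n ∧ Irreducible (pol c)}.ncard := by
    rw [← Set.ncard_coe_finset]
    refine Set.ncard_le_ncard ?_ (Set.toFinite _)
    intro c hc
    rw [Finset.mem_coe, mem_image] at hc
    obtain ⟨q, hq, rfl⟩ := hc
    rw [Set.mem_setOf_eq, hpol q hq]
    refine ⟨hdeg q hq, ?_⟩
    rw [mem_product, mem_erase] at hq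
    exact (irreducible_isUnit_mul (isUnit_C.2 (isUnit_iff_ne_zero.2 hq.1.1))).2
      (minpoly.irreducible (hint _))
  have h9 : s.card = (p - 1) * Gd.card := by
    rw [card_product, card_erase_of_mem (mem_univ _), card_univ, ZMod.card]
  have h10 : ((p : ℝ) - 1) * Gd.card ≤ n *
      ({c : Fin (n + 1) → ZMod p | (pol c).natDegree = n ∧ Irreducible (pol c)}.ncard : ℕ) := by
    have h11 : (p - 1) * Gd.card ≤ n * {c : Fin (n + 1) → ZMod p | (pol c).natDegree = n ∧
        Irreducible (pol c)}.ncard := by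
      rw [← h9]
      exact h7.trans (Nat.mul_le_mul_left _ h8)
    have h12 : (((p - 1) * Gd.card : ℕ) : ℝ) ≤ ((n * {c : Fin (n + 1) → ZMod p |
        (pol c).natDegree = n ∧ Irreducible (pol c)}.ncard : ℕ) : ℝ) := by exact_mod_cast h11
    rw [Nat.cast_mul, Nat.cast_mul, Nat.cast_sub (by omega), Nat.cast_one] at h12
    exact h12
  have hp1 : (p : ℝ) / 2 ≤ (p : ℝ) - 1 := by
    have : (2 : ℝ) ≤ p := by exact_mod_cast hp2
    linarith
  have hnpos : (0 : ℝ) < n := by exact_mod_cast (by omega : 0 < n)
  have h13 : (p : ℝ) / 2 * ((p : ℝ) ^ n / 2) ≤ ((p : ℝ) - 1) * Gd.card :=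
    mul_le_mul hp1 (by linarith) (by positivity) (by linarith [show (0 : ℝ) ≤ p from Nat.cast_nonneg _])
  rw [div_mul_eq_mul_div, one_mul, div_le_iff₀ (by positivity)]
  calc (p : ℝ) ^ (n + 1) = 4 * ((p : ℝ) / 2 * ((p : ℝ) ^ n / 2)) := by ring
    _ ≤ 4 * (n * ({c : Fin (n + 1) → ZMod p | (pol c).natDegree = n ∧
        Irreducible (pol c)}.ncard : ℕ)) := by linarith
    _ = _ := by ring

end Pool.Agent.R431.SG
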