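import Pool.Agent.Y713.SE.Twist

/-!
# The criterion for twists

Variant of `Pool.Agent.Y713.SE.twist_primary` with the twisting polynomial given.
-/

set_option autoImplicit false
set_option linter.all false

open Polynomial IsDedekindDomain

namespace Pool.Agent.R431.SG

open Pool.Agent.Y713 Pool.Agent.Y713.SE

section
variable {k : Type} [Field k] {K : Type} [Field K] [Algebra k[X] K] [IsFractionRing k[X] K]

/-- the arithmetic of the twisting polynomial -/
theorem stab2 {ℓ : ℕ} (hℓ : ℓ.Prime) {D : k[X]} (hD : Irreducible D)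
    (hcs : ∀ c : k, (∃ a : k[X], D ∣ C c - a ^ ℓ) → ∃ b : k, c = b ^ ℓ)
    (T : Finset k[X]) (hT : ∀ π ∈ T, Irreducible π ∧ π.Monic) (hDT : ∀ π ∈ T, ¬ D ∣ π)
    (hPD : ∀ (c : k) (a : k[X] → ℕ) (z : k[X]), c ≠ 0 → D ∣ C c * ∏ π ∈ T, π ^ a π - z ^ ℓ →
        ∀ π ∈ T, ℓ ∣ a π)
    {d : K} (hd : d ≠ 0)
    (h : ∀ v : HeightOneSpectrum k[X], (∀ π ∈ T, π ∉ v.asIdeal) → v ≠ hp D hD →
      Pw ℓ (v.valuation K d))
    (hx : ∃ x : (hp D hD).adicCompletion K, algebraMap K _ d = x ^ ℓ) :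
    ∃ y : K, d = y ^ ℓ := by
  classical
  have hDnT : D ∉ T := fun hm => hDT D hm dvd_rfl
  obtain ⟨c, a, z, hc, hz, e⟩ := rep (K := K) hℓ (insert D T) (fun π hπ => by
      rcases Finset.mem_insert.1 hπ with rfl | h
      · exact hD
      · exact (hT π h).1) hd (fun v hv => by
      refine h v (fun π hπ => hv π (Finset.mem_insert_of_mem hπ)) ?_
      rintro rfl
      exact hv D (Finset.mem_insert_self _ _) ((mem_hp hD D).2 dvd_rfl))
  rw [Finset.prod_insert hDnT] at e
  set r := C c * ∏ π ∈ T, π ^ a π with hr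
  have e' : d = algebraMap k[X] K r * (algebraMap k[X] K D) ^ a D * z ^ ℓ := by
    rw [e, hr]
    simp only [map_mul, map_pow]
    ring
  have hDr : ¬ D ∣ r := by
    rw [hr]
    intro hd
    rcases hD.prime.dvd_or_dvd hd with h1 | h1
    · have h2 := isUnit_of_dvd_unit h1 (Polynomial.isUnit_C.2 (IsUnit.mk0 _ hc))
      exact hD.not_isUnit h2
    · obtain ⟨π, hπ, h2⟩ := (Prime.dvd_finset_prod_iff hD.prime _).1 h1
      exact hDT π hπ (hD.prime.dvd_of_dvd_pow h2)
  have hrv : r ∉ (hp D hD).asIdeal := fun hm => hDr ((mem_hp hD r).1 hm)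
  have hval : (hp D hD).valuation K d =
      (WithZero.exp (-1 : ℤ)) ^ a D * ((hp D hD).valuation K z) ^ ℓ := by
    rw [e', map_mul, map_mul, map_pow, map_pow, (val_eq_one_iff _ _).2 hrv, one_mul, val_hp_self]
  obtain ⟨x, hx⟩ := hx
  have hpw : Pw ℓ ((hp D hD).valuation K d) := by
    refine ⟨Valued.v x, ?_⟩
    rw [← val_coe, hx, map_pow]
  have hvz : (hp D hD).valuation K z ≠ 0 := (Valuation.ne_zero_iff _).2 hz
  obtain ⟨b, hb⟩ : ℓ ∣ a D := by
    apply pw_exp_pow hℓ
    rw [hval] at hpw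
    have := hpw.mul (Pw.pow (ℓ := ℓ) ((hp D hD).valuation K z)).inv
    rwa [mul_assoc, mul_inv_cancel₀ (pow_ne_zero _ hvz), mul_one] at this
  have hDK : algebraMap k[X] K D ≠ 0 := by simpa using hD.ne_zero
  set w : K := (algebraMap k[X] K D) ^ b * z with hw
  have hw0 : w ≠ 0 := mul_ne_zero (pow_ne_zero _ hDK) hz
  have e2 : d = algebraMap k[X] K r * w ^ ℓ := by
    rw [e', hb, hw, mul_pow, ← pow_mul, mul_comm b ℓ]; ring
  have hxr : ∃ x : (hp D hD).adicCompletion K,
      algebraMap K ((hp D hD).adicCompletion K) (algebraMap k[X] K r) = x ^ ℓ := by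
    refine ⟨x / algebraMap K _ w, ?_⟩
    have e3 : algebraMap K ((hp D hD).adicCompletion K) d =
        algebraMap K ((hp D hD).adicCompletion K) (algebraMap k[X] K r) *
          (algebraMap K ((hp D hD).adicCompletion K) w) ^ ℓ := by
      rw [← map_pow (algebraMap K ((hp D hD).adicCompletion K)),
        ← map_mul (algebraMap K ((hp D hD).adicCompletion K)), ← e2]
    rw [div_pow, ← hx, e3, mul_div_cancel_right₀]
    exact pow_ne_zero _ ((_root_.map_ne_zero _).2 hw0)
  obtain ⟨z', hz'⟩ := pow_unit hℓ.ne_zero (hp D hD) hrv hxr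
  rw [mem_hp] at hz'
  have hdiv := hPD c a z' hc hz'
  have hr2 : r = C c * (∏ π ∈ T, π ^ (a π / ℓ)) ^ ℓ := by
    rw [hr, ← Finset.prod_pow]
    congr 1
    refine Finset.prod_congr rfl fun π hπ => ?_
    rw [← pow_mul, Nat.div_mul_cancel (hdiv π hπ)]
  set s := ∏ π ∈ T, π ^ (a π / ℓ) with hs
  have hs0 : s ≠ 0 := Finset.prod_ne_zero_iff.2 fun π hπ => pow_ne_zero _ (hT π hπ).1.ne_zero
  have hsK : algebraMap k[X] K s ≠ 0 := by simpa using hs0
  have hcv : C c ∉ (hp D hD).asIdeal := (val_eq_one_iff (K := K) _ _).1 (val_C hc)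
  have hxc : ∃ x : (hp D hD).adicCompletion K,
      algebraMap K ((hp D hD).adicCompletion K) (algebraMap k[X] K (C c)) = x ^ ℓ := by
    obtain ⟨x', hx'⟩ := hxr
    refine ⟨x' / algebraMap K _ (algebraMap k[X] K s), ?_⟩
    rw [div_pow, ← hx', hr2, map_mul, map_mul, map_pow, map_pow, mul_div_cancel_right₀]
    exact pow_ne_zero _ ((_root_.map_ne_zero _).2 hsK)
  obtain ⟨a', ha'⟩ := pow_unit hℓ.ne_zero (hp D hD) hcv hxc
  rw [mem_hp] at ha'
  obtain ⟨b', hb'⟩ := hcs c ⟨a', ha'⟩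
  refine ⟨algebraMap k[X] K (C b' * s) * w, ?_⟩
  have e4 : (algebraMap k[X] K (C b' * s)) ^ ℓ = algebraMap k[X] K r := by
    rw [← map_pow (algebraMap k[X] K), mul_pow, ← C_pow, ← hb', hr2]
  rw [mul_pow, e4, e2]

end

section
variable {k : Type} [Field k] (K : Type) [Field K] [Algebra k[X] K] [IsFractionRing k[X] K]

/-- the criterion -/
theorem twist_crit {ℓ : ℕ} (hℓ : ℓ.Prime)
    (hk : (ℓ : k) ≠ 0) {ζ : k} (hζ : IsPrimitiveRoot ζ ℓ) {F : K[X]} (hs : F.Splits)
    (hsep : F.Separable) (hn : ¬ ℓ ∣ F.natDegree) :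
    ∃ T : Finset k[X], (∀ π ∈ T, Irreducible π ∧ π.Monic) ∧
      ∀ D : k[X], Irreducible D →
        (∀ c : k, (∃ a : k[X], D ∣ C c - a ^ ℓ) → ∃ b : k, c = b ^ ℓ) →
        (∀ π ∈ T, ¬ D ∣ π) →
        (∀ (c : k) (a : k[X] → ℕ) (z : k[X]), c ≠ 0 → D ∣ C c * ∏ π ∈ T, π ^ a π - z ^ ℓ →
          ∀ π ∈ T, ℓ ∣ a π) →
        Jac.ShaPrimaryTrivial ℓ (C (algebraMap k[X] K D) * F) k[X] := by
  classical
  have hnd : F.roots.Nodup := nodup_roots hsep
  have hF0 : F ≠ 0 := hsep.ne_zero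
  set n := F.natDegree with hndef
  have hcard : F.roots.toFinset.card = n := by
    rw [Multiset.toFinset_card_of_nodup hnd, ← hs.natDegree_eq_card_roots]
  let eqv := F.roots.toFinset.equivFinOfCardEq hcard
  let e : Fin n → K := fun i => (eqv.symm i : K)
  have he : Function.Injective e := Subtype.val_injective.comp eqv.symm.injective
  have hlc : F.leadingCoeff ≠ 0 := leadingCoeff_ne_zero.2 hF0
  have hfac : F = C F.leadingCoeff * ∏ i : Fin n, (X - C (e i)) := by
    conv_lhs => rw [hs.eq_prod_roots]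
    congr 1
    have h3 : (F.roots.map fun a => X - C a).prod = ∏ a ∈ F.roots.toFinset, (X - C a) := by
      rw [Finset.prod_multiset_map_count]
      refine Finset.prod_congr rfl fun a ha => ?_
      rw [Multiset.count_eq_one_of_mem hnd (Multiset.mem_toFinset.1 ha), pow_one]
    rw [h3, ← Finset.prod_coe_sort]
    exact (Equiv.prod_comp eqv.symm (fun a : F.roots.toFinset => (X - C (a : K)))).symm
  -- the bad places
  let Bad : Set (HeightOneSpectrum k[X]) := {v | v.valuation K F.leadingCoeff ≠ 1} ∪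
    ⋃ i : Fin n, ⋃ j : Fin n, if i = j then ∅ else {v | v.valuation K (e i - e j) ≠ 1}
  have hBad : Bad.Finite := by
    refine (finite_bad hlc).union (Set.finite_iUnion fun i => Set.finite_iUnion fun j => ?_)
    split_ifs with hij
    · exact Set.finite_empty
    · exact finite_bad (sub_ne_zero.2 fun h => hij (he h))
  have hnBad : ∀ v, v ∉ Bad → v.valuation K F.leadingCoeff = 1 ∧
      ∀ i j, i ≠ j → v.valuation K (e i - e j) = 1 := by
    intro v hv
    rw [Set.mem_union, not_or] at hv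
    refine ⟨not_not.1 hv.1, fun i j hij => ?_⟩
    by_contra hne
    apply hv.2
    rw [Set.mem_iUnion]
    refine ⟨i, Set.mem_iUnion.2 ⟨j, ?_⟩⟩
    rw [if_neg hij]
    exact hne
  let T : Finset k[X] := hBad.toFinset.image gen
  have hT : ∀ π ∈ T, Irreducible π ∧ π.Monic := by
    intro π hπ
    obtain ⟨v, -, rfl⟩ := Finset.mem_image.1 hπ
    exact ⟨gen_irr v, gen_monic v⟩
  have hTBad : ∀ v, (∀ π ∈ T, π ∉ v.asIdeal) → v ∉ Bad := by
    intro v hv hb
    exact hv (gen v) (Finset.mem_image.2 ⟨v, hBad.mem_toFinset.2 hb, rfl⟩) (gen_mem v)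
  refine ⟨T, hT, ?_⟩
  intro D hD2 hD4 hDT hD5
  have hv0 : hp D hD2 ∉ Bad := by
    apply hTBad
    intro π hπ hmem
    exact hDT π hπ ((mem_hp hD2 π).1 hmem)
  have hDK : algebraMap k[X] K D ≠ 0 := by simpa using hD2.ne_zero
  have hδ : algebraMap k[X] K D * F.leadingCoeff ≠ 0 := mul_ne_zero hDK hlc
  let DD := tDat K hℓ hk hζ hδ he hn
  have hf : DD.f = C (algebraMap k[X] K D) * F := by
    unfold Dat.f
    show C (algebraMap k[X] K D * F.leadingCoeff) * ∏ i : Fin n, (X - C (e i)) = _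
    conv_rhs => rw [hfac]
    rw [C_mul, mul_assoc]
  rw [← hf]
  obtain ⟨p, hexp⟩ := ExpChar.exists K
  haveI := hexp
  haveI : ExpChar (SeparableClosure K) p :=
    expChar_of_injective_algebraMap (algebraMap K (SeparableClosure K)).injective p
  haveI : ∀ v : HeightOneSpectrum k[X], ExpChar (SeparableClosure (v.adicCompletion K)) p := fun v =>
    expChar_of_injective_algebraMap
      (algebraMap K (SeparableClosure (v.adicCompletion K))).injective p
  have hvD : ∀ v, v ≠ hp D hD2 → v.valuation K (algebraMap k[X] K D) = 1 := by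
    intro v hv
    rw [val_eq_one_iff]
    exact fun hmem => hv (eq_hp hD2 hmem)
  apply DD.sha_primary (R := k[X])
  refine DD.crit1 (p := p) (fun v => SeparableClosure (v.adicCompletion K)) ?_ Bad (hp D hD2)
    (hnBad _ hv0).2 ?_ ?_ ?_
  · intro v
    have h3 : ((ℓ : ℕ) : K) = algebraMap k[X] K (C (ℓ : k)) := by
      rw [C_eq_natCast, map_natCast]
    rw [h3]
    exact val_C hk
  · show ¬ Pw ℓ ((hp D hD2).valuation K (algebraMap k[X] K D * F.leadingCoeff))
    rw [map_mul, (hnBad _ hv0).1, mul_one, val_hp_self]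
    exact not_pw_exp hℓ
  · intro v hv hvne
    refine ⟨(hnBad v hv).2, ?_⟩
    show v.valuation K (algebraMap k[X] K D * F.leadingCoeff) = 1
    rw [map_mul, (hnBad v hv).1, mul_one, hvD v hvne]
  · intro d hd hpw hx
    exact stab2 hℓ hD2 hD4 T hT hDT hD5 hd (fun v hv hvne => hpw v (hTBad v hv) hvne) hx

end

end Pool.Agent.R431.SG
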