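import Pool.Agent.R431.SG.Crit

/-!
# The criterion for `y ^ ℓ = D(t) ∏ (x - g_i(t))`
-/

set_option autoImplicit false
set_option linter.all false

open Polynomial IsDedekindDomain

namespace Pool.Agent.R431.SG

open Pool.Agent.Y713 Pool.Agent.Y713.SE

variable {k : Type} [Field k] (K : Type) [Field K] [Algebra k[X] K] [IsFractionRing k[X] K]

theorem tuple_crit {ℓ : ℕ} (hℓ : ℓ.Prime) (hk : (ℓ : k) ≠ 0) {ζ : k} (hζ : IsPrimitiveRoot ζ ℓ)
    {N : ℕ} (hn : ¬ ℓ ∣ N) {g : Fin N → k[X]} (hg : Function.Injective g) (T : Finset k[X])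
    (hT : ∀ π ∈ T, Irreducible π ∧ π.Monic)
    (hbad : ∀ i j, i ≠ j → ∀ v : HeightOneSpectrum k[X], (∀ π ∈ T, π ∉ v.asIdeal) →
      g i - g j ∉ v.asIdeal)
    {D : k[X]} (hD2 : Irreducible D)
    (hD4 : ∀ c : k, (∃ a : k[X], D ∣ C c - a ^ ℓ) → ∃ b : k, c = b ^ ℓ)
    (hDT : ∀ π ∈ T, ¬ D ∣ π)
    (hD5 : ∀ (c : k) (a : k[X] → ℕ) (z : k[X]), c ≠ 0 → D ∣ C c * ∏ π ∈ T, π ^ a π - z ^ ℓ →
      ∀ π ∈ T, ℓ ∣ a π) :
    Jac.ShaPrimaryTrivial ℓ
      (C (algebraMap k[X] K D) * ∏ i, (X - C (algebraMap k[X] K (g i)))) k[X] := by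
  classical
  have he : Function.Injective fun i => algebraMap k[X] K (g i) :=
    (IsFractionRing.injective k[X] K).comp hg
  have hδ : algebraMap k[X] K D ≠ 0 := by simpa using hD2.ne_zero
  let Bad : Set (HeightOneSpectrum k[X]) := {v | ∃ π ∈ T, π ∈ v.asIdeal}
  have hnBad : ∀ v, v ∉ Bad → (∀ π ∈ T, π ∉ v.asIdeal) := fun v hv π hπ hm => hv ⟨π, hπ, hm⟩
  let DD := tDat K hℓ hk hζ hδ he hn
  have hsep : ∀ v, v ∉ Bad → ∀ i j, i ≠ j → v.valuation K (DD.e i - DD.e j) = 1 := by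
    intro v hv i j hij
    show v.valuation K (algebraMap k[X] K (g i) - algebraMap k[X] K (g j)) = 1
    rw [← map_sub, val_eq_one_iff]
    exact hbad i j hij v (hnBad v hv)
  have hv0 : hp D hD2 ∉ Bad := by
    rintro ⟨π, hπ, hm⟩
    exact hDT π hπ ((mem_hp hD2 π).1 hm)
  have hf : DD.f = C (algebraMap k[X] K D) * ∏ i, (X - C (algebraMap k[X] K (g i))) := rfl
  rw [← hf]
  obtain ⟨p, hexp⟩ := ExpChar.exists K
  haveI := hexp
  haveI : ExpChar (SeparableClosure K) p :=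
    expChar_of_injective_algebraMap (algebraMap K (SeparableClosure K)).injective p
  haveI : ∀ v : HeightOneSpectrum k[X], ExpChar (SeparableClosure (v.adicCompletion K)) p := fun v =>
    expChar_of_injective_algebraMap
      (algebraMap K (SeparableClosure (v.adicCompletion K))).injective p
  have hvD : ∀ v, v ≠ hp D hD2 → v.valuation K (algebraMap k[X] K D) = 1 := by
    intro v hv
    rw [val_eq_one_iff]
    exact fun hmem => hv (eq_hp hD2 hmem)
  apply DD.sha_primary (R := k[X])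
  refine DD.crit1 (p := p) (fun v => SeparableClosure (v.adicCompletion K)) ?_ Bad (hp D hD2)
    (hsep _ hv0) ?_ ?_ ?_
  · intro v
    have h3 : ((ℓ : ℕ) : K) = algebraMap k[X] K (C (ℓ : k)) := by
      rw [C_eq_natCast, map_natCast]
    rw [h3]
    exact val_C hk
  · show ¬ Pw ℓ ((hp D hD2).valuation K (algebraMap k[X] K D))
    rw [val_hp_self]
    exact not_pw_exp hℓ
  · intro v hv hvne
    exact ⟨hsep v hv, hvD v hvne⟩
  · intro d hd hpw hx
    refine stab2 hℓ hD2 hD4 T hT hDT hD5 hd (fun v hv hvne => hpw v ?_ hvne) hx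
    rintro ⟨π, hπ, hm⟩
    exact hv π hπ hm

end Pool.Agent.R431.SG
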