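import Pool.Agent.R431.SG.Crit

/-!
# The criterion for star shaped collisions, with bad places
-/

set_option autoImplicit false
set_option linter.all false

open Polynomial IsDedekindDomain

namespace Pool.Agent.R431.SG

open Pool.Agent.Y713 Pool.Agent.Y713.SE Pool.Agent.Y713.SE.Dat

section
variable {ℓ n : ℕ} {K : Type} [Field K] (D : Dat ℓ n K)
variable {L : Type} [Field L] [Algebra K L] [IsGalois K L]
variable {R : Type} [CommRing R] [IsDedekindDomain R] [Algebra R K] [IsFractionRing R K]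
variable (Ω : HeightOneSpectrum R → Type) [∀ v, Field (Ω v)]
  [∀ v, Algebra (v.adicCompletion K) (Ω v)] [∀ v, Algebra K (Ω v)]
  [∀ v, IsScalarTower K (v.adicCompletion K) (Ω v)] [∀ v, IsSepClosed (Ω v)]
  [∀ v, IsGalois (v.adicCompletion K) (Ω v)]

/-- criterion with collision places and bad places -/
theorem crit_star [IsSepClosed L] {p : ℕ} [ExpChar L p] [∀ v, ExpChar (Ω v) p]
    (hℓ : ∀ v : HeightOneSpectrum R, v.valuation K (ℓ : K) = 1)
    (hδ : ∀ v : HeightOneSpectrum R, v.valuation K D.δ = 1)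
    (Bad : Set (HeightOneSpectrum R))
    (a0 : Fin n) (w : Fin n → HeightOneSpectrum R)
    (hn3 : 3 ≤ n)
    (hw1 : ∀ i, i ≠ a0 → (w i).valuation K (D.e a0 - D.e i) < 1)
    (hw2 : ∀ i, i ≠ a0 → ¬ Pw ℓ ((w i).valuation K (D.e a0 - D.e i)))
    (hw3 : ∀ i, i ≠ a0 → ∀ j k, j ≠ k → ¬ (j = a0 ∧ k = i) → ¬ (j = i ∧ k = a0) →
      (w i).valuation K (D.e j - D.e k) = 1)
    (hgood : ∀ v, v ∉ Bad → (∀ i, i ≠ a0 → v ≠ w i) → D.Sep1 v)
    (stab : ∀ i, i ≠ a0 → ∀ d : K, d ≠ 0 → (∀ v : HeightOneSpectrum R, v ∉ Bad →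
      Pw ℓ (v.valuation K d)) → (∃ x : (w i).adicCompletion K, algebraMap K _ d = x ^ ℓ) →
        ∃ y : K, d = y ^ ℓ)
    (χ : (L ≃ₐ[K] L) → Fin n → ℕ) (hc : D.Coc (fun σ => cl ((D.base L).PT (χ σ))))
    (ht : ∀ v, D.Triv (v.adicCompletion K) (Ω v) (fun σ => cl ((D.base L).PT (χ σ)))) :
    D.Cob (fun σ => cl ((D.base L).PT (χ σ))) := by
  classical
  have hex : ∀ i, i ≠ a0 → ∃ c0 : Fin n, c0 ≠ a0 ∧ c0 ≠ i := by
    intro i hi
    have h1 : ({a0, i} : Finset (Fin n)).card < (Finset.univ : Finset (Fin n)).card := by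
      rw [Finset.card_univ, Fintype.card_fin]
      exact lt_of_le_of_lt Finset.card_le_two (by omega)
    obtain ⟨c, -, hc⟩ := Finset.exists_mem_notMem_of_card_lt_card h1
    rw [Finset.mem_insert, Finset.mem_singleton, not_or] at hc
    exact ⟨c, hc⟩
  have hcoll : ∀ i, ∃ r : ℕ, i ≠ a0 → ∀ (m : Fin n → ℕ) (Q : ClassGroup (D.base L).A)
      (χ' : (L ≃ₐ[K] L) → Fin n → ℕ)
      (kd : D.KD χ'), m i = r → m a0 = 0 → cl ((D.base L).PT m) * (D.base L).sC Q = Q →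
      (∀ σ, cl ((D.base L).PT (χ' σ)) = cl ((D.base L).PT (χ σ)) / (D.mC (au σ) Q / Q)) →
      (∀ j k, Pw ℓ ((w i).valuation K (kd.d j k))) ∧
      ∃ x : (w i).adicCompletion K, algebraMap K ((w i).adicCompletion K) (kd.d a0 i) = x ^ ℓ := by
    intro i
    by_cases hi : i = a0
    · exact ⟨0, fun h => absurd hi h⟩
    obtain ⟨c0, hca, hci⟩ := hex i hi
    obtain ⟨r, hr⟩ := D.coll_place (p := p) (a0 := a0) (b0 := i) (c0 := c0) (Ne.symm hi) hca hci
      (hw3 i hi) (hw1 i hi) (hw2 i hi) (hδ _) (hℓ _) (ht (w i))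
    exact ⟨r, fun _ => hr⟩
  choose r hr using hcoll
  obtain ⟨Q, χ', hQ, hχ', hc'⟩ := D.exists_adj (p := p) (fun i => if i = a0 then 0 else r i) hc
  obtain ⟨kd⟩ := D.exists_KD hc'
  have ht' : ∀ v, D.Triv (v.adicCompletion K) (Ω v) (fun σ => cl ((D.base L).PT (χ' σ))) := by
    intro v
    have h4 : (fun σ => cl ((D.base L).PT (χ' σ))) =
      fun σ => cl ((D.base L).PT (χ σ)) / (D.mC (au σ) Q / Q) := funext hχ'
    rw [h4]
    exact (ht v).div D Q
  have hr' : ∀ i, i ≠ a0 → (∀ j k, Pw ℓ ((w i).valuation K (kd.d j k))) ∧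
      ∃ x : (w i).adicCompletion K, algebraMap K ((w i).adicCompletion K) (kd.d a0 i) = x ^ ℓ := by
    intro i hi
    exact hr i hi _ Q χ' kd (if_neg hi) (if_pos rfl) hQ hχ'
  have hpw : ∀ (v : HeightOneSpectrum R), v ∉ Bad → ∀ j k, Pw ℓ (v.valuation K (kd.d j k)) := by
    intro v hvB j k
    by_cases hv : ∀ i, i ≠ a0 → v ≠ w i
    · exact D.good_place (p := p) (hgood v hvB hv) (hδ v) (hℓ v) (ht' v) kd j k
    · push Not at hv
      obtain ⟨i, hi, rfl⟩ := hv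
      exact (hr' i hi).1 j k
  have h1 : ∀ i, i ≠ a0 → ∃ y : K, kd.d a0 i = y ^ ℓ := by
    intro i hi
    have hd0 : kd.d a0 i ≠ 0 := by
      intro h0
      have := kd.hd a0 i
      rw [h0, map_zero] at this
      exact kd.h0 a0 i (pow_eq_zero_iff D.pos.ne' |>.1 this)
    exact stab i hi _ hd0 (fun v hv => hpw v hv _ _) (hr' i hi).2
  refine ⟨Q, fun σ => ?_⟩
  have h2 := hχ' σ
  rw [(D.base L).cl_PT_of_modEq fun i j => ?_] at h2
  · exact (div_eq_one.1 h2.symm)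
  · have h3 : ∀ i, χ' σ a0 ≡ χ' σ i [MOD ℓ] := by
      intro i
      by_cases hi : i = a0
      · rw [hi]
      · obtain ⟨y, hy⟩ := h1 i hi
        exact D.modEq_of_pow kd hy σ
    exact (h3 i).symm.trans (h3 j)

end

section
variable {k : Type} [Field k] (K : Type) [Field K] [Algebra k[X] K] [IsFractionRing k[X] K]

/-- the criterion for `y ^ ℓ = δ ∏ (x - g_i(t))` -/
theorem star_crit {ℓ : ℕ} (hℓ : ℓ.Prime) (hk : (ℓ : k) ≠ 0) {ζ : k} (hζ : IsPrimitiveRoot ζ ℓ)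
    {M : ℕ} (hM : 2 ≤ M) (hn : ¬ ℓ ∣ M + 1) {g0 : k[X]} {g : Fin M → k[X]} (T : Finset k[X])
    (hT : ∀ π ∈ T, Irreducible π ∧ π.Monic)
    (hbad : ∀ i j, i ≠ j → ∀ v : HeightOneSpectrum k[X], (∀ π ∈ T, π ∉ v.asIdeal) →
      g i - g j ∉ v.asIdeal)
    (hD : ∀ i, Irreducible (g0 - g i))
    (hD4 : ∀ i, ∀ c : k, (∃ a : k[X], g0 - g i ∣ C c - a ^ ℓ) → ∃ b : k, c = b ^ ℓ)
    (hDT : ∀ i, ∀ π ∈ T, ¬ g0 - g i ∣ π)
    (hDg : ∀ i a b, a ≠ b → ¬ g0 - g i ∣ g a - g b)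
    (hD5 : ∀ i, ∀ (c : k) (a : k[X] → ℕ) (z : k[X]), c ≠ 0 →
      g0 - g i ∣ C c * ∏ π ∈ T, π ^ a π - z ^ ℓ → ∀ π ∈ T, ℓ ∣ a π) {δ : k} (hδ : δ ≠ 0) :
    Jac.ShaPrimaryTrivial ℓ
      (C (algebraMap k[X] K (C δ)) * ∏ i : Fin (M + 1),
        (X - C (algebraMap k[X] K ((Fin.cons g0 g : Fin (M + 1) → k[X]) i)))) k[X] := by
  classical
  have hg : Function.Injective (Fin.cons g0 g : Fin (M + 1) → k[X]) := by
    rw [Fin.cons_injective_iff]
    refine ⟨?_, ?_⟩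
    · rintro ⟨i, hi⟩
      exact (hD i).ne_zero (sub_eq_zero.2 hi.symm)
    · intro a b hab
      by_contra hne
      exact hDg ⟨0, by omega⟩ a b hne (by rw [hab, sub_self]; exact dvd_zero _)
  have he : Function.Injective fun i => algebraMap k[X] K
      ((Fin.cons g0 g : Fin (M + 1) → k[X]) i) := (IsFractionRing.injective k[X] K).comp hg
  have hδ' : algebraMap k[X] K (C δ) ≠ 0 := by
    rw [Ne, map_eq_zero_iff _ (IsFractionRing.injective k[X] K), C_eq_zero]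
    exact hδ
  let Bad : Set (HeightOneSpectrum k[X]) := {v | ∃ π ∈ T, π ∈ v.asIdeal}
  have hnBad : ∀ v, v ∉ Bad → (∀ π ∈ T, π ∉ v.asIdeal) := fun v hv π hπ hm => hv ⟨π, hπ, hm⟩
  let DD := tDat K hℓ hk hζ hδ' he hn
  have i0 : Fin M := ⟨0, by omega⟩
  let w : Fin (M + 1) → HeightOneSpectrum k[X] :=
    Fin.cons (hp _ (hD i0)) (fun i => hp _ (hD i))
  have he0 : DD.e 0 = algebraMap k[X] K g0 := rfl
  have hes : ∀ i : Fin M, DD.e i.succ = algebraMap k[X] K (g i) := fun i => rfl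
  have hsub0 : ∀ i : Fin M, DD.e 0 - DD.e i.succ = algebraMap k[X] K (g0 - g i) := fun i => by
    rw [he0, hes, map_sub]
  have hsubs : ∀ i j : Fin M, DD.e i.succ - DD.e j.succ = algebraMap k[X] K (g i - g j) :=
    fun i j => by rw [hes, hes, map_sub]
  have hf : DD.f = C (algebraMap k[X] K (C δ)) * ∏ i : Fin (M + 1),
        (X - C (algebraMap k[X] K ((Fin.cons g0 g : Fin (M + 1) → k[X]) i))) := rfl
  rw [← hf]
  obtain ⟨p, hexp⟩ := ExpChar.exists K
  haveI := hexp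
  haveI : ExpChar (SeparableClosure K) p :=
    expChar_of_injective_algebraMap (algebraMap K (SeparableClosure K)).injective p
  haveI : ∀ v : HeightOneSpectrum k[X], ExpChar (SeparableClosure (v.adicCompletion K)) p := fun v =>
    expChar_of_injective_algebraMap
      (algebraMap K (SeparableClosure (v.adicCompletion K))).injective p
  apply DD.sha_primary (R := k[X])
  refine crit_star DD (p := p) (fun v => SeparableClosure (v.adicCompletion K)) ?_ ?_ Bad 0 w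
    (by omega) ?_ ?_ ?_ ?_ ?_
  · intro v
    have h3 : ((ℓ : ℕ) : K) = algebraMap k[X] K (C (ℓ : k)) := by
      rw [C_eq_natCast, map_natCast]
    rw [h3]
    exact val_C hk
  · intro v
    exact val_C hδ
  · intro i hi
    obtain ⟨j, rfl⟩ := Fin.exists_succ_eq.2 hi
    rw [hsub0]
    show (hp _ (hD j)).valuation K _ < 1
    rw [val_hp_self, ← WithZero.exp_zero, WithZero.exp_lt_exp]
    norm_num
  · intro i hi
    obtain ⟨j, rfl⟩ := Fin.exists_succ_eq.2 hi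
    rw [hsub0]
    show ¬ Pw ℓ ((hp _ (hD j)).valuation K _)
    rw [val_hp_self]
    exact not_pw_exp hℓ
  · intro i hi a b hab h3 h4
    obtain ⟨j, rfl⟩ := Fin.exists_succ_eq.2 hi
    show (hp _ (hD j)).valuation K _ = 1
    have hgj : ∀ b' : Fin M, b' ≠ j → g0 - g b' ∉ (hp _ (hD j)).asIdeal := by
      intro b' hb' hm
      rw [mem_hp] at hm
      apply hDg j b' j hb'
      have h5 : g b' - g j = (g0 - g j) - (g0 - g b') := by ring
      rw [h5]
      exact dvd_sub dvd_rfl hm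
    rcases Fin.eq_zero_or_eq_succ a with rfl | ⟨a', rfl⟩
    · rcases Fin.eq_zero_or_eq_succ b with rfl | ⟨b', rfl⟩
      · exact absurd rfl hab
      · rw [hsub0, val_eq_one_iff]
        apply hgj
        rintro rfl
        exact h3 ⟨rfl, rfl⟩
    · rcases Fin.eq_zero_or_eq_succ b with rfl | ⟨b', rfl⟩
      · rw [Valuation.map_sub_swap, hsub0, val_eq_one_iff]
        apply hgj
        rintro rfl
        exact h4 ⟨rfl, rfl⟩
      · rw [hsubs, val_eq_one_iff]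
        intro hm
        rw [mem_hp] at hm
        exact hDg j a' b' (fun h => hab (by rw [h])) hm
  · intro v hvB hv a b hab
    have hv' : ∀ i : Fin M, v ≠ hp _ (hD i) := fun i => hv i.succ (Fin.succ_ne_zero _)
    rcases Fin.eq_zero_or_eq_succ a with rfl | ⟨a', rfl⟩
    · rcases Fin.eq_zero_or_eq_succ b with rfl | ⟨b', rfl⟩
      · exact absurd rfl hab
      · rw [hsub0, val_eq_one_iff]
        exact fun hm => hv' b' (eq_hp (hD b') hm)
    · rcases Fin.eq_zero_or_eq_succ b with rfl | ⟨b', rfl⟩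
      · rw [Valuation.map_sub_swap, hsub0, val_eq_one_iff]
        exact fun hm => hv' a' (eq_hp (hD a') hm)
      · rw [hsubs, val_eq_one_iff]
        exact hbad a' b' (fun h => hab (by rw [h])) v (hnBad v hvB)
  · intro i hi d hd hpw hx
    obtain ⟨j, rfl⟩ := Fin.exists_succ_eq.2 hi
    refine SG.stab2 hℓ (hD j) (hD4 j) T hT (hDT j) (hD5 j) hd (fun v hv hvne => hpw v ?_) hx
    rintro ⟨π, hπ, hm⟩
    exact hv π hπ hm

end

end Pool.Agent.R431.SG
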