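import Pool.Agent.R431.SG.Bad
import Pool.Agent.R431.SG.Cnt

/-!
# Constants which become squares modulo a polynomial
-/

set_option autoImplicit false
set_option linter.all false

open scoped Classical

namespace Pool.Agent.R431.SG

open Polynomial

section padic

variable {p : ℕ} [Fact p.Prime]

/-- the factorisation type `1, n - 1` lifts -/
lemma fac_padic {f : ℤ_[p][X]} {m : ℕ} (hf : f.natDegree ≤ m + 1) (r : ZMod p) (g : (ZMod p)[X])
    (hg : Irreducible g) (hgd : g.natDegree = m) (hm : 2 ≤ m)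
    (h : f.map (PadicInt.toZMod (p := p)) = (X - C r) * g) :
    ∃ (ρ : ℚ_[p]) (G : ℚ_[p][X]), Irreducible G ∧ G.natDegree = m ∧
      f.map (algebraMap ℤ_[p] ℚ_[p]) = (X - C ρ) * G := by
  have hgr : g.eval r ≠ 0 := by
    intro h0
    obtain ⟨q, hq⟩ := dvd_iff_isRoot.2 h0
    rcases hg.isUnit_or_isUnit hq with h1 | h1
    · exact not_isUnit_X_sub_C r h1
    · have h2 : g.natDegree = 1 := by
        rw [hq, natDegree_mul (X_sub_C_ne_zero r) h1.ne_zero, natDegree_X_sub_C,
          natDegree_eq_zero_of_isUnit h1]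
      omega
  obtain ⟨ρ, hρ, hρr⟩ := lift_root f r (by rw [h]; simp) (by
    rw [h]
    simp only [derivative_mul, derivative_sub, derivative_X, derivative_C, sub_zero, one_mul,
        eval_add, eval_mul, eval_sub, eval_X, eval_C, sub_self, zero_mul, add_zero]
    exact hgr)
  obtain ⟨G0, hG0⟩ := dvd_iff_isRoot.2 hρ
  have h1 : g = G0.map (PadicInt.toZMod (p := p)) := by
    rw [hG0, Polynomial.map_mul, Polynomial.map_sub, map_X, map_C, hρr] at h
    exact (mul_left_cancel₀ (X_sub_C_ne_zero r) h).symm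
  have hG00 : G0 ≠ 0 := by
    rintro rfl
    rw [Polynomial.map_zero] at h1
    exact hg.ne_zero h1
  have h2 : f.natDegree = 1 + G0.natDegree := by
    rw [hG0, natDegree_mul (X_sub_C_ne_zero ρ) hG00, natDegree_X_sub_C]
  have h3 : Irreducible (G0.map (algebraMap ℤ_[p] ℚ_[p])) := by
    refine irr_padic (n := m) (by omega) ?_ (by omega) ?_
    · rw [← h1, hgd]
    · rw [← h1]; exact hg
  refine ⟨(ρ : ℚ_[p]), G0.map (algebraMap ℤ_[p] ℚ_[p]), h3, ?_, ?_⟩
  · rw [natDegree_map_eq_of_injective (IsFractionRing.injective ℤ_[p] ℚ_[p])]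
    have h4 : g.natDegree ≤ G0.natDegree := by rw [h1]; exact natDegree_map_le
    omega
  · conv_lhs => rw [hG0]
    rw [Polynomial.map_mul, Polynomial.map_sub, map_X, map_C]
    rfl

end padic

/-- no new squares of constants modulo an irreducible polynomial with the factorisation type
`1, n - 1` over an extension -/
theorem const_of_fac {k L : Type} [Field k] [Field L] [CharZero L] (φ : k →+* L) {D : k[X]}
    {m : ℕ} (hDd : D.natDegree = m + 1) (hm : 2 ≤ m) {ρ : L} {G : L[X]} (hG : Irreducible G)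
    (hGd : G.natDegree = m) (h : D.map φ = (X - C ρ) * G) {c : k}
    (hc : ∃ a : k[X], D ∣ C c - a ^ 2) : ∃ b : k, c = b ^ 2 := by
  obtain ⟨a, ha⟩ := hc
  by_contra hns
  push Not at hns
  have hc0 : c ≠ 0 := fun h0 => hns 0 (by rw [h0]; simp)
  have hirr : Irreducible (X ^ 2 - C c : k[X]) := by
    refine X_pow_sub_C_irreducible_of_prime Nat.prime_two ?_
    intro b hb
    exact hns b hb.symm
  haveI : Fact (Irreducible (X ^ 2 - C c : k[X])) := ⟨hirr⟩
  let M := AdjoinRoot (X ^ 2 - C c : k[X])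
  set s : L := (a.map φ).eval ρ with hs
  have hD0 : D ≠ 0 := by
    rintro rfl
    simp at hDd
  have hDL : D.map φ ∣ C (φ c) - (a.map φ) ^ 2 := by
    have := Polynomial.map_dvd φ ha
    rwa [Polynomial.map_sub, map_C, Polynomial.map_pow] at this
  have hs2 : s ^ 2 = φ c := by
    obtain ⟨q, hq⟩ := hDL
    have h1 := congrArg (fun g : L[X] => g.eval ρ) hq
    simp only [h, eval_sub, eval_mul, eval_pow, eval_C, eval_X, sub_self, zero_mul] at h1
    rw [hs]
    exact (sub_eq_zero.1 h1).symm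
  have hs0 : s ≠ 0 := by
    intro h0
    rw [h0, zero_pow two_ne_zero] at hs2
    exact hc0 ((map_eq_zero φ).1 hs2.symm)
  have hψe : ∀ t : L, t ^ 2 = φ c → (X ^ 2 - C c : k[X]).eval₂ φ t = 0 := by
    intro t ht
    rw [eval₂_sub, eval₂_pow, eval₂_X, eval₂_C, ht, sub_self]
  let ψ : (t : L) → t ^ 2 = φ c → (M →+* L) := fun t ht => AdjoinRoot.lift φ t (hψe t ht)
  have hψr : ∀ t ht, ψ t ht (AdjoinRoot.root _) = t := fun t ht =>
    AdjoinRoot.lift_root (hψe t ht)
  have hψo : ∀ t ht, (ψ t ht).comp (AdjoinRoot.of _) = φ := by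
    intro t ht
    ext x
    exact AdjoinRoot.lift_of (hψe t ht)
  set θ : M := AdjoinRoot.root _ with hθ
  set A : M[X] := EuclideanDomain.gcd (D.map (AdjoinRoot.of (X ^ 2 - C c)))
    (C θ - a.map (AdjoinRoot.of (X ^ 2 - C c))) with hA
  have hAψ : ∀ t ht, A.map (ψ t ht) = EuclideanDomain.gcd (D.map φ) (C t - a.map φ) := by
    intro t ht
    rw [hA, ← Polynomial.gcd_map, Polynomial.map_sub, map_C, Polynomial.map_map,
      Polynomial.map_map, hψo t ht, hψr t ht]
  have hAd : ∀ t ht, A.natDegree = (A.map (ψ t ht)).natDegree := fun t ht =>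
    (natDegree_map _).symm
  have hDφ0 : D.map φ ≠ 0 := (Polynomial.map_ne_zero_iff φ.injective).2 hD0
  have hn2 : (-s) ^ 2 = φ c := by rw [neg_sq, hs2]
  have hGD : G ∣ D.map φ := by rw [h]; exact dvd_mul_left _ _
  have hbig : ∀ (t : L) (ht : t ^ 2 = φ c), G ∣ (C t - a.map φ) → m ≤ A.natDegree := by
    intro t ht hG'
    rw [hAd t ht, ← hGd]
    have h1 : G ∣ A.map (ψ t ht) := by
      rw [hAψ t ht]
      exact EuclideanDomain.dvd_gcd hGD hG'
    refine natDegree_le_of_dvd h1 ?_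
    rw [hAψ t ht]
    intro h0
    exact hDφ0 (EuclideanDomain.gcd_eq_zero_iff.1 h0).1
  have hm' : m ≤ A.natDegree := by
    have h1 : G ∣ (C s - a.map φ) * (C (-s) - a.map φ) := by
      have h2 : (C s - a.map φ) * (C (-s) - a.map φ) = -(C (φ c) - (a.map φ) ^ 2) := by
        rw [C_neg, ← hs2, C_pow]
        ring
      rw [h2, dvd_neg]
      exact hGD.trans hDL
    rcases hG.prime.dvd_or_dvd h1 with h2 | h2
    · exact hbig s hs2 h2
    · exact hbig (-s) hn2 h2
  have hcop : IsCoprime (A.map (ψ s hs2)) (A.map (ψ (-s) hn2)) := by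
    have h1 : IsCoprime (C s - a.map φ) (C (-s) - a.map φ) := by
      refine ⟨C (1 / (2 * s)), -C (1 / (2 * s)), ?_⟩
      have h2 : C (1 / (2 * s)) * (C s - a.map φ) + -C (1 / (2 * s)) * (C (-s) - a.map φ) =
          C (1 / (2 * s) * (2 * s)) := by
        rw [C_mul, C_mul, C_neg]
        have : (C (2 : L) : L[X]) = 2 := rfl
        rw [this]
        ring
      rw [h2, one_div, inv_mul_cancel₀ (mul_ne_zero two_ne_zero hs0), C_1]
    refine (h1.of_isCoprime_of_dvd_left ?_).of_isCoprime_of_dvd_right ?_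
    · rw [hAψ s hs2]; exact EuclideanDomain.gcd_dvd_right _ _
    · rw [hAψ (-s) hn2]; exact EuclideanDomain.gcd_dvd_right _ _
  have hdvd : A.map (ψ s hs2) * A.map (ψ (-s) hn2) ∣ D.map φ := by
    refine hcop.mul_dvd ?_ ?_
    · rw [hAψ s hs2]; exact EuclideanDomain.gcd_dvd_left _ _
    · rw [hAψ (-s) hn2]; exact EuclideanDomain.gcd_dvd_left _ _
  have hle := natDegree_le_of_dvd hdvd hDφ0
  have hA0 : ∀ t ht, A.map (ψ t ht) ≠ 0 := by
    intro t ht h0
    rw [hAψ t ht] at h0
    exact hDφ0 (EuclideanDomain.gcd_eq_zero_iff.1 h0).1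
  rw [natDegree_mul (hA0 s hs2) (hA0 (-s) hn2), ← hAd s hs2, ← hAd (-s) hn2, natDegree_map,
    hDd] at hle
  omega

/-- many polynomials have the factorisation type `1, n - 1` -/
theorem card_fac (p : ℕ) [Fact p.Prime] {m : ℕ} (hm : 3 ≤ m) :
    (1 / (4 * m : ℝ)) * (p : ℝ) ^ (m + 2) ≤
      (({c : Fin (m + 2) → ZMod p | ∃ (r : ZMod p) (g : (ZMod p)[X]), pol c = (X - C r) * g ∧
        g.natDegree = m ∧ Irreducible g}.ncard : ℕ) : ℝ) := by
  set S : Set (Fin (m + 1) → ZMod p) := {c | (pol c).natDegree = m ∧ Irreducible (pol c)} with hS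
  let ψ : ZMod p × (Fin (m + 1) → ZMod p) → (Fin (m + 2) → ZMod p) := fun z j =>
    ((X - C z.1) * pol z.2).coeff j
  have hψ : ∀ z, pol (ψ z) = (X - C z.1) * pol z.2 := by
    intro z
    refine pol_of (n := m + 1) ?_
    refine natDegree_mul_le.trans ?_
    have h1 : (X - C z.1 : (ZMod p)[X]).natDegree ≤ 1 := natDegree_X_sub_C_le _
    have h2 := pol_degree z.2
    omega
  have hinj : Set.InjOn ψ ((Set.univ : Set (ZMod p)) ×ˢ S) := by
    intro z hz w hw hzw
    have h1 : (X - C z.1) * pol z.2 = (X - C w.1) * pol w.2 := by rw [← hψ, ← hψ, hzw]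
    have h2 : z.1 = w.1 := by
      by_contra hne
      have h3 := congrArg (fun g : (ZMod p)[X] => g.eval z.1) h1
      simp only [eval_mul, eval_sub, eval_X, eval_C, sub_self, zero_mul] at h3
      have h4 : (pol w.2).eval z.1 = 0 := by
        rcases mul_eq_zero.1 h3.symm with h | h
        · exact absurd (sub_eq_zero.1 h) hne
        · exact h
      obtain ⟨q, hq⟩ := dvd_iff_isRoot.2 h4
      obtain ⟨hd, hi⟩ := hw.2
      rcases hi.isUnit_or_isUnit hq with h5 | h5
      · exact not_isUnit_X_sub_C z.1 h5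
      · have h6 : (pol w.2).natDegree = 1 := by
          rw [hq, natDegree_mul (X_sub_C_ne_zero _) h5.ne_zero, natDegree_X_sub_C,
            natDegree_eq_zero_of_isUnit h5]
        omega
    rw [h2] at h1
    exact Prod.ext h2 (pol_injective (mul_left_cancel₀ (X_sub_C_ne_zero _) h1))
  have h1 : (ψ '' ((Set.univ : Set (ZMod p)) ×ˢ S)).ncard ≤
      {c : Fin (m + 2) → ZMod p | ∃ (r : ZMod p) (g : (ZMod p)[X]), pol c = (X - C r) * g ∧
        g.natDegree = m ∧ Irreducible g}.ncard := by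
    refine Set.ncard_le_ncard ?_ (Set.toFinite _)
    rintro _ ⟨z, hz, rfl⟩
    exact ⟨z.1, pol z.2, hψ z, hz.2.1, hz.2.2⟩
  rw [Set.ncard_image_of_injOn hinj, Set.ncard_prod, Set.ncard_univ, Nat.card_eq_fintype_card,
    ZMod.card] at h1
  have h2 := card_irr p hm
  have h3 : ((p * S.ncard : ℕ) : ℝ) ≤
      (({c : Fin (m + 2) → ZMod p | ∃ (r : ZMod p) (g : (ZMod p)[X]), pol c = (X - C r) * g ∧
        g.natDegree = m ∧ Irreducible g}.ncard : ℕ) : ℝ) := by exact_mod_cast h1
  refine le_trans ?_ h3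
  rw [Nat.cast_mul]
  calc (1 / (4 * m : ℝ)) * (p : ℝ) ^ (m + 2) = p * ((1 / (4 * m : ℝ)) * (p : ℝ) ^ (m + 1)) := by
        ring
    _ ≤ _ := mul_le_mul_of_nonneg_left h2 (Nat.cast_nonneg _)

end Pool.Agent.R431.SG
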