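import Pool.Agent.R431.SG.Cst

/-!
# Constants which become powers modulo a polynomial
-/

set_option autoImplicit false
set_option linter.all false

open scoped Classical

namespace Pool.Agent.R431.SG

open Polynomial

/-- no new powers of constants modulo an irreducible polynomial with the factorisation type
`1, n - 1` over an extension -/
theorem const_of_facL {k L : Type} [Field k] [Field L] [CharZero L] {ℓ : ℕ} (hℓ : ℓ.Prime)
    (φ : k →+* L) {ζ : L} (hζ : IsPrimitiveRoot ζ ℓ) {D : k[X]}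
    {m : ℕ} (hDd : D.natDegree = m + 1) (hm : 2 ≤ m) {ρ : L} {G : L[X]} (hG : Irreducible G)
    (hGd : G.natDegree = m) (h : D.map φ = (X - C ρ) * G) {c : k}
    (hc : ∃ a : k[X], D ∣ C c - a ^ ℓ) : ∃ b : k, c = b ^ ℓ := by
  obtain ⟨a, ha⟩ := hc
  by_contra hns
  push Not at hns
  have hc0 : c ≠ 0 := fun h0 => hns 0 (by rw [h0, zero_pow hℓ.ne_zero])
  have hirr : Irreducible (X ^ ℓ - C c : k[X]) := by
    refine X_pow_sub_C_irreducible_of_prime hℓ ?_
    intro b hb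
    exact hns b hb.symm
  haveI : Fact (Irreducible (X ^ ℓ - C c : k[X])) := ⟨hirr⟩
  let M := AdjoinRoot (X ^ ℓ - C c : k[X])
  set s : L := (a.map φ).eval ρ with hs
  have hD0 : D ≠ 0 := by
    rintro rfl
    simp at hDd
  have hDL : D.map φ ∣ C (φ c) - (a.map φ) ^ ℓ := by
    have := Polynomial.map_dvd φ ha
    rwa [Polynomial.map_sub, map_C, Polynomial.map_pow] at this
  have hs2 : s ^ ℓ = φ c := by
    obtain ⟨q, hq⟩ := hDL
    have h1 := congrArg (fun g : L[X] => g.eval ρ) hq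
    simp only [h, eval_sub, eval_mul, eval_pow, eval_C, eval_X, sub_self, zero_mul] at h1
    rw [hs]
    exact (sub_eq_zero.1 h1).symm
  have hs0 : s ≠ 0 := by
    intro h0
    rw [h0, zero_pow hℓ.ne_zero] at hs2
    exact hc0 ((map_eq_zero φ).1 hs2.symm)
  have hψe : ∀ t : L, t ^ ℓ = φ c → (X ^ ℓ - C c : k[X]).eval₂ φ t = 0 := by
    intro t ht
    rw [eval₂_sub, eval₂_pow, eval₂_X, eval₂_C, ht, sub_self]
  let ψ : (t : L) → t ^ ℓ = φ c → (M →+* L) := fun t ht => AdjoinRoot.lift φ t (hψe t ht)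
  have hψr : ∀ t ht, ψ t ht (AdjoinRoot.root _) = t := fun t ht =>
    AdjoinRoot.lift_root (hψe t ht)
  have hψo : ∀ t ht, (ψ t ht).comp (AdjoinRoot.of _) = φ := by
    intro t ht
    ext x
    exact AdjoinRoot.lift_of (hψe t ht)
  set θ : M := AdjoinRoot.root _ with hθ
  set A : M[X] := EuclideanDomain.gcd (D.map (AdjoinRoot.of (X ^ ℓ - C c)))
    (C θ - a.map (AdjoinRoot.of (X ^ ℓ - C c))) with hA
  have hAψ : ∀ t ht, A.map (ψ t ht) = EuclideanDomain.gcd (D.map φ) (C t - a.map φ) := by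
    intro t ht
    rw [hA, ← Polynomial.gcd_map, Polynomial.map_sub, map_C, Polynomial.map_map,
      Polynomial.map_map, hψo t ht, hψr t ht]
  have hAd : ∀ t ht, A.natDegree = (A.map (ψ t ht)).natDegree := fun t ht =>
    (natDegree_map _).symm
  have hDφ0 : D.map φ ≠ 0 := (Polynomial.map_ne_zero_iff φ.injective).2 hD0
  have hn2 : (ζ * s) ^ ℓ = φ c := by rw [mul_pow, hζ.pow_eq_one, one_mul, hs2]
  have hGD : G ∣ D.map φ := by rw [h]; exact dvd_mul_left _ _
  have hbig : ∀ (t : L) (ht : t ^ ℓ = φ c), G ∣ (C t - a.map φ) → m ≤ A.natDegree := by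
    intro t ht hG'
    rw [hAd t ht, ← hGd]
    have h1 : G ∣ A.map (ψ t ht) := by
      rw [hAψ t ht]
      exact EuclideanDomain.dvd_gcd hGD hG'
    refine natDegree_le_of_dvd h1 ?_
    rw [hAψ t ht]
    intro h0
    exact hDφ0 (EuclideanDomain.gcd_eq_zero_iff.1 h0).1
  have hm' : m ≤ A.natDegree := by
    have hζ' : IsPrimitiveRoot (C ζ) ℓ := hζ.map_of_injective (f := C) C_injective
    have h2 : C (φ c) - (a.map φ) ^ ℓ = -∏ ξ ∈ nthRootsFinset ℓ (1 : L[X]),
        (a.map φ - ξ * C s) := by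
      rw [← hζ'.pow_sub_pow_eq_prod_sub_mul _ _ hℓ.pos, ← C_pow, hs2]
      ring
    have h1 : G ∣ ∏ ξ ∈ nthRootsFinset ℓ (1 : L[X]), (a.map φ - ξ * C s) := by
      rw [← dvd_neg, ← h2]
      exact hGD.trans hDL
    obtain ⟨ξ, hξ, h3⟩ := (Prime.dvd_finset_prod_iff hG.prime _).1 h1
    rw [mem_nthRootsFinset hℓ.pos] at hξ
    haveI : NeZero ℓ := ⟨hℓ.ne_zero⟩
    obtain ⟨i, -, hi⟩ := hζ'.eq_pow_of_pow_eq_one hξ
    refine hbig (ζ ^ i * s) ?_ ?_
    · rw [mul_pow, ← pow_mul, mul_comm i ℓ, pow_mul, hζ.pow_eq_one, one_pow, one_mul, hs2]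
    · rw [← dvd_neg, neg_sub, C_mul, C_pow, hi]
      exact h3
  have hcop : IsCoprime (A.map (ψ s hs2)) (A.map (ψ (ζ * s) hn2)) := by
    have hd : s - ζ * s ≠ 0 := by
      have : s - ζ * s = (1 - ζ) * s := by ring
      rw [this]
      exact mul_ne_zero (sub_ne_zero.2 (hζ.ne_one hℓ.one_lt).symm) hs0
    have h1 : IsCoprime (C s - a.map φ) (C (ζ * s) - a.map φ) := by
      refine ⟨C (1 / (s - ζ * s)), -C (1 / (s - ζ * s)), ?_⟩
      have h2 : C (1 / (s - ζ * s)) * (C s - a.map φ) +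
          -C (1 / (s - ζ * s)) * (C (ζ * s) - a.map φ) =
          C (1 / (s - ζ * s) * (s - ζ * s)) := by
        simp only [C_mul, C_sub]
        ring
      rw [h2, one_div, inv_mul_cancel₀ hd, C_1]
    refine (h1.of_isCoprime_of_dvd_left ?_).of_isCoprime_of_dvd_right ?_
    · rw [hAψ s hs2]; exact EuclideanDomain.gcd_dvd_right _ _
    · rw [hAψ (ζ * s) hn2]; exact EuclideanDomain.gcd_dvd_right _ _
  have hdvd : A.map (ψ s hs2) * A.map (ψ (ζ * s) hn2) ∣ D.map φ := by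
    refine hcop.mul_dvd ?_ ?_
    · rw [hAψ s hs2]; exact EuclideanDomain.gcd_dvd_left _ _
    · rw [hAψ (ζ * s) hn2]; exact EuclideanDomain.gcd_dvd_left _ _
  have hle := natDegree_le_of_dvd hdvd hDφ0
  have hA0 : ∀ t ht, A.map (ψ t ht) ≠ 0 := by
    intro t ht h0
    rw [hAψ t ht] at h0
    exact hDφ0 (EuclideanDomain.gcd_eq_zero_iff.1 h0).1
  rw [natDegree_mul (hA0 s hs2) (hA0 (ζ * s) hn2), ← hAd s hs2, ← hAd (ζ * s) hn2, natDegree_map,
    hDd] at hle
  omega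

end Pool.Agent.R431.SG
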