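import Pool.Agent.R431.SG.MainL

/-!
# Almost all superelliptic curves with rational branch points: the density
-/

set_option autoImplicit false
set_option linter.all false

open scoped Classical

namespace Pool.Agent.R431.SG

open Polynomial NumberField IsDedekindDomain Pool.Agent.Y713

/-- the obstructions for tuples -/
def ObsL (ℓ N m : ℕ) (S : Option (Option ((Fin N × Fin N) ⊕ (Fin N × Fin N → Fin ℓ))))
    (p : ℕ) [Fact p.Prime] : Set (Fin (N + 1) × Fin (m + 3) → ZMod p) :=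
  match S with
  | none => {c | (pol (prj0 N m c)).natDegree = m + 2 ∧ Irreducible (pol (prj0 N m c))}
  | some none => {c | ∃ (r : ZMod p) (g : (ZMod p)[X]), pol (prj0 N m c) = (X - C r) * g ∧
      g.natDegree = m + 1 ∧ Irreducible g}
  | some (some (Sum.inl q)) => {c | q.1 ≠ q.2 → ((pol (prjd N m q.1 q.2 c)).natDegree = m + 2 ∧
      Irreducible (pol (prjd N m q.1 q.2 c)))}
  | some (some (Sum.inr s)) => {c | ((∀ q, ¬ q.1 < q.2 → (s q : ℕ) = 0) ∧ ∃ q, (s q : ℕ) ≠ 0) →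
      PObs ℓ (fs (fun q => (s q : ℕ)) fun i => gp c i.succ) fun j => c (0, j)}

lemma card_univ_I (N m p : ℕ) [Fact p.Prime] {δ : ℝ} (hδ : δ ≤ 1) :
    δ * (p : ℝ) ^ Fintype.card (Fin (N + 1) × Fin (m + 3)) ≤
      (((Set.univ : Set (Fin (N + 1) × Fin (m + 3) → ZMod p)).ncard : ℕ) : ℝ) := by
  rw [Set.ncard_univ, Nat.card_eq_fintype_card, Fintype.card_fun, ZMod.card, Nat.cast_pow]
  have h0 : (0 : ℝ) ≤ (p : ℝ) ^ Fintype.card (Fin (N + 1) × Fin (m + 3)) := by positivity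
  calc δ * (p : ℝ) ^ Fintype.card (Fin (N + 1) × Fin (m + 3)) ≤
      1 * (p : ℝ) ^ Fintype.card (Fin (N + 1) × Fin (m + 3)) := mul_le_mul_of_nonneg_right hδ h0
    _ = _ := one_mul _

lemma card_pull (N m p : ℕ) [Fact p.Prime] {δ δ0 : ℝ} (hδ : δ ≤ δ0)
    (f : (Fin (N + 1) × Fin (m + 3) → ZMod p) →+ (Fin (m + 3) → ZMod p))
    (hf : Function.Surjective f) (Z : Set (Fin (m + 3) → ZMod p))
    (hZ : δ0 * (p : ℝ) ^ (m + 3) ≤ (Z.ncard : ℝ))
    {Ω : Set (Fin (N + 1) × Fin (m + 3) → ZMod p)} (hΩ : ∀ x, f x ∈ Z → x ∈ Ω) :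
    δ * (p : ℝ) ^ Fintype.card (Fin (N + 1) × Fin (m + 3)) ≤ (Ω.ncard : ℝ) := by
  have h1 := proportion f hf Z (δ := δ0) (Ω := Ω) (by
    rw [Fintype.card_fun, ZMod.card, Fintype.card_fin, Nat.cast_pow]
    exact hZ) hΩ
  rw [Fintype.card_fun, ZMod.card, Nat.cast_pow] at h1
  refine le_trans (mul_le_mul_of_nonneg_right hδ (by positivity)) h1

/-- **Almost all superelliptic curves with rational branch points.** -/
theorem curves_main {k : Type} [Field k] [NumberField k] {J : Type} [Fintype J]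
    (B : Module.Basis J ℤ (𝓞 k)) {ℓ : ℕ} (hℓ : ℓ.Prime) {ζ : k} (hζ : IsPrimitiveRoot ζ ℓ)
    {N : ℕ} (hN : ¬ ℓ ∣ N) {n : ℕ} (hn : 4 ≤ n) {η : ℝ} (hη : 0 < η) :
    ∃ H0 : ℕ, ∀ H : ℕ, H0 ≤ H →
      (({c : Fin (N + 1) × Fin (n + 1) → 𝓞 k | (∀ q j, |B.repr (c q) j| ≤ (H : ℤ)) ∧
        ¬ Jac.ShaPrimaryTrivial ℓ (C (algebraMap k[X] (RatFunc k)
          (gp (fun q => algebraMap (𝓞 k) k (c q)) 0)) * ∏ i : Fin N, (X - C (algebraMap k[X]
            (RatFunc k) (gp (fun q => algebraMap (𝓞 k) k (c q)) i.succ)))) k[X]}.ncard : ℕ) :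
              ℝ) ≤
        η * (2 * H + 1) ^ (((N + 1) * (n + 1)) * Fintype.card J) := by
  obtain ⟨m, rfl⟩ : ∃ m, n = m + 2 := ⟨n - 2, by omega⟩
  obtain ⟨ζ', hζ'⟩ : ∃ ζ' : 𝓞 k, IsPrimitiveRoot ζ' ℓ := by
    have hint : IsIntegral ℤ ζ := hζ.isIntegral hℓ.pos
    refine ⟨⟨ζ, hint⟩, ?_⟩
    refine IsPrimitiveRoot.of_map_of_injective (f := algebraMap (𝓞 k) k) ?_
      (FaithfulSMul.algebraMap_injective _ _)
    exact hζ
  set δ : ℝ := 1 / (2048 * ((m + 2 : ℕ) : ℝ) ^ 2) with hδ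
  obtain ⟨hδa, hδb, hδ1⟩ := e1 hn N
  rw [← hδ] at hδa hδb hδ1
  have hδ0 : 0 < δ := by positivity
  set p0 : ℕ := 1600 + (4 * N + 6) + 2 * (N * N) + ℓ + 1 with hp0
  have hc : ∀ S ∈ (Finset.univ : Finset (Option (Option ((Fin N × Fin N) ⊕
      (Fin N × Fin N → Fin ℓ))))), ∀ (p : ℕ) [Fact p.Prime] (σ : 𝓞 k →+* ℤ_[p]), p0 ≤ p →
      δ * (p : ℝ) ^ Fintype.card (Fin (N + 1) × Fin (m + 3)) ≤ ((ObsL ℓ N m S p).ncard : ℝ) := by
    intro S _ p _ σ hp
    rcases S with _ | _ | q | s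
    · exact card_pull N m p hδa (prj0 N m) prj0_surj _ (card_irr p (by omega)) fun x hx => hx
    · refine card_pull N m p hδb (prj0 N m) prj0_surj
        {c | ∃ (r : ZMod p) (g : (ZMod p)[X]), pol c = (X - C r) * g ∧
          g.natDegree = m + 1 ∧ Irreducible g} ?_ fun x hx => hx
      exact card_fac p (m := m + 1) (by omega)
    · by_cases hq : q.1 = q.2
      · have h1 : ObsL ℓ N m (some (some (Sum.inl q))) p = Set.univ := by
          ext c
          simp [ObsL, hq]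
        rw [h1]
        exact card_univ_I N m p hδ1
      · exact card_pull N m p hδa (prjd N m q.1 q.2) (prjd_surj hq) _ (card_irr p (by omega))
          fun x hx _ => hx
    · by_cases hs : (∀ q, ¬ q.1 < q.2 → (s q : ℕ) = 0) ∧ ∃ q, (s q : ℕ) ≠ 0
      · obtain ⟨q0, hq0⟩ := hs.2
        have h1 : ¬ ℓ ∣ (s q0 : ℕ) := Nat.not_dvd_of_pos_of_lt (Nat.pos_of_ne_zero hq0) (s q0).2
        have h2 := card_sObs (p := p) hℓ (np_exists hℓ hζ' σ (by omega)) hs.1 h1 (by omega)
          (by omega) (by omega) m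
        have h3 : ObsL ℓ N m (some (some (Sum.inr s))) p =
            {c | PObs ℓ (fs (fun q => (s q : ℕ)) fun i => gp c i.succ) fun j => c (0, j)} := by
          ext c
          show (_ → _) ↔ _
          exact ⟨fun h => h hs, fun h _ => h⟩
        rw [h3]
        refine le_trans (le_of_eq ?_) h2
        rw [hδ]
        push_cast
        rfl
      · have h1 : ObsL ℓ N m (some (some (Sum.inr s))) p = Set.univ := by
          ext c
          show (_ → _) ↔ _
          exact ⟨fun _ => Set.mem_univ _, fun _ h => absurd h hs⟩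
        rw [h1]
        exact card_univ_I N m p hδ1
  obtain ⟨H0, hH0⟩ := density B (I := Fin (N + 1) × Fin (m + 3)) Finset.univ hδ0 hδ1 p0
    (fun S p _ _ => ObsL ℓ N m S p) hc hη
  refine ⟨H0, fun H hH => ?_⟩
  have hfin := hH0 H hH {c : Fin (N + 1) × Fin (m + 3) → 𝓞 k |
        (∀ q j, |B.repr (c q) j| ≤ (H : ℤ)) ∧
        ¬ Jac.ShaPrimaryTrivial ℓ (C (algebraMap k[X] (RatFunc k)
          (gp (fun q => algebraMap (𝓞 k) k (c q)) 0)) * ∏ i : Fin N, (X - C (algebraMap k[X]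
            (RatFunc k) (gp (fun q => algebraMap (𝓞 k) k (c q)) i.succ)))) k[X]} ?_
  · rw [Fintype.card_prod, Fintype.card_fin, Fintype.card_fin] at hfin
    exact hfin
  rintro c ⟨hbox, hnot⟩
  refine ⟨hbox, ?_⟩
  by_contra hall
  push Not at hall
  apply hnot
  -- irreducibility of a difference or of the first polynomial
  have hred : ∀ (d : Fin (m + 3) → 𝓞 k) (p : ℕ) [Fact p.Prime] (σ : 𝓞 k →+* ℤ_[p]),
      (pol fun j => red σ (d j)).natDegree = m + 2 → Irreducible (pol fun j => red σ (d j)) →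
      Irreducible (pol fun j => algebraMap (𝓞 k) k (d j)) ∧
        (pol fun j => algebraMap (𝓞 k) k (d j)).natDegree = m + 2 := by
    intro d p _ σ h1 h2
    refine ⟨irr_of_red σ (by omega) d h1 h2, le_antisymm (pol_degree _) ?_⟩
    have h3 : ((pol fun j => d j).map (red σ)).natDegree = m + 2 := by
      rw [pol_map]; exact h1
    have h4 : ((pol fun j => d j).map (red σ)).natDegree ≤ (pol fun j => d j).natDegree :=
      natDegree_map_le
    have h5 : (pol fun j => algebraMap (𝓞 k) k (d j)) =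
        (pol fun j => d j).map (algebraMap (𝓞 k) k) := by rw [pol_map]
    rw [h5, natDegree_map_eq_of_injective (FaithfulSMul.algebraMap_injective _ _)]
    omega
  obtain ⟨p, hp, σ, -, hirr⟩ := hall none (Finset.mem_univ _)
  obtain ⟨hD, hDd⟩ := hred (fun j => c (0, j)) p σ hirr.1 hirr.2
  refine all_obsL hℓ hζ hN c hD ?_ ?_ ?_
  · intro b hb
    obtain ⟨p, hp, σ, -, r, g, hg1, hg2, hg3⟩ := hall (some none) (Finset.mem_univ _)
    have h3 : (pol fun j => σ (c (0, j))).map (PadicInt.toZMod (p := p)) = (X - C r) * g := by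
      rw [pol_map]
      exact hg1
    obtain ⟨ρ, G, hG1, hG2, hG3⟩ := fac_padic (f := pol fun j => σ (c (0, j))) (m := m + 1)
      (pol_degree _) r g hg3 hg2 (by omega) h3
    refine const_of_facL hℓ (ext σ) (hζ.map_of_injective (ext σ).injective) hDd (by omega) hG1
      hG2 (ρ := ρ) ?_ hb
    rw [← hG3, pol_map, pol_map]
    congr 1
    funext j
    exact ext_alg σ (c (0, j))
  · intro i j hij
    obtain ⟨p, hp, σ, -, hq⟩ := hall (some (some (Sum.inl (i, j)))) (Finset.mem_univ _)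
    obtain ⟨h1, h2⟩ := hq hij
    have h3 : ∀ t, red σ (c (i.succ, t) - c (j.succ, t)) =
        red σ (c (i.succ, t)) - red σ (c (j.succ, t)) := fun t => map_sub _ _ _
    have h4 := hred (fun t => c (i.succ, t) - c (j.succ, t)) p σ (by
      simp only [h3]; exact h1) (by simp only [h3]; exact h2)
    have h5 : gp (fun q => algebraMap (𝓞 k) k (c q)) i.succ -
        gp (fun q => algebraMap (𝓞 k) k (c q)) j.succ =
        pol fun t => algebraMap (𝓞 k) k (c (i.succ, t) - c (j.succ, t)) := by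
      unfold gp
      rw [pol_sub]
      simp only [map_sub]
    rw [h5]
    exact h4.1
  · intro s h1 h2 h3
    obtain ⟨p, hp, σ, -, ho⟩ := hall (some (some (Sum.inr fun q => ⟨s q, h1 q⟩)))
      (Finset.mem_univ _)
    exact ⟨p, hp, σ, ho ⟨h2, h3⟩⟩

end Pool.Agent.R431.SG
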