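import Pool.Agent.H927R2.RD.T15
import Pool.Agent.H637R2.Leo.Split

/-!
# Embeddings of the ring of integers of a number field into the `p`-adic integers
-/

set_option autoImplicit false
set_option linter.all false

namespace Pool.Agent.R431.SG

open NumberField Pool.Agent.H927R2.RD

/-- there are degree one primes outside a finite set -/
lemma exists_degOne (K : Type) [Field K] [NumberField K] (S : Finset ℕ) :
    ∃ p : ℕ, p ∉ S ∧ DegOne K p := by
  classical
  set N : ℕ := ∏ n ∈ S.filter (fun n => n ≠ 0), n with hN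
  have hN0 : N ≠ 0 := by
    rw [hN, Finset.prod_ne_zero_iff]
    intro n hn
    exact (Finset.mem_filter.1 hn).2
  obtain ⟨q, hq, hqN, ⟨φ⟩⟩ := Pool.Agent.H637R2.Leo.exists_hom K N hN0
  have : Fact q.Prime := ⟨hq⟩
  refine ⟨q, ?_, hq, RingHom.ker φ, ?_⟩
  · intro h
    apply hqN
    rw [hN]
    exact Finset.dvd_prod_of_mem _ (Finset.mem_filter.2 ⟨h, hq.ne_zero⟩)
  · have hs : Function.Surjective φ := by
      intro x
      obtain ⟨n, rfl⟩ := ZMod.intCast_surjective x
      exact ⟨(n : NumberField.RingOfIntegers K), map_intCast φ n⟩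
    have e := RingHom.quotientKerEquivOfSurjective hs
    rw [Ideal.absNorm_apply, Submodule.cardQuot_apply]
    have := Nat.card_congr e.toEquiv
    rw [Nat.card_zmod] at this
    exact this

/-- There are infinitely many primes `p` such that the ring of integers embeds into `ℤ_p`. -/
theorem exists_emb (k : Type) [Field k] [NumberField k] (N : ℕ) :
    ∃ (p : ℕ) (_ : Fact p.Prime), N < p ∧ Nonempty (𝓞 k →+* ℤ_[p]) := by
  classical
  let ω := Module.Free.chooseBasis ℤ (𝓞 k)
  have hint : Algebra.IsIntegral ℤ (𝓞 k) := inferInstance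
  let σ : 𝓞 k →ₐ[ℤ] ℂ := IsAlgClosed.lift
  set s : Finset ℂ := Finset.univ.image (fun j => σ (ω j)) with hs
  obtain ⟨K, hK, hK', S, h⟩ := exists_padic_embedding s
  obtain ⟨p, hpS, hp⟩ := exists_degOne K (S ∪ Finset.range (N + 1))
  rw [Finset.mem_union, not_or] at hpS
  have hpp : Fact p.Prime := ⟨hp.1⟩
  obtain ⟨e⟩ := h p hpS.1 hp
  refine ⟨p, hpp, ?_, ?_⟩
  · have h1 := hpS.2
    rw [Finset.mem_range] at h1
    omega
  have hmem : ∀ x : 𝓞 k, σ x ∈ Subfield.closure (s : Set ℂ) := by
    intro x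
    rw [← ω.sum_repr x, map_sum]
    refine sum_mem fun j _ => ?_
    rw [map_zsmul]
    refine zsmul_mem (Subfield.subset_closure ?_) _
    rw [hs]
    simp
  let τ : 𝓞 k →+* Subfield.closure (s : Set ℂ) := (σ : 𝓞 k →+* ℂ).codRestrict _ hmem
  let g : 𝓞 k →+* ℚ_[p] := e.comp τ
  have hg : ∀ x : 𝓞 k, g x ∈ PadicInt.subring p := by
    intro x
    have h1 : IsIntegral ℤ (g x) := (hint.isIntegral x).map g.toIntAlgHom
    have h2 : IsIntegral ℤ_[p] (g x) := h1.tower_top
    obtain ⟨y, hy⟩ := IsIntegrallyClosed.isIntegral_iff.1 h2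
    rw [← hy]
    exact y.2
  exact ⟨g.codRestrict (PadicInt.subring p) hg⟩

end Pool.Agent.R431.SG
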