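import Pool.Agent.R431.SG.Dens

/-!
# The density principle with auxiliary extensions
-/

set_option autoImplicit false
set_option linter.all false

open scoped Classical

namespace Pool.Agent.R431.SG

open Polynomial NumberField Pool.Agent.R939.EI

variable {k : Type} [Field k] [NumberField k] {J : Type} [Fintype J] (B : Module.Basis J ℤ (𝓞 k))
  {I : Type} [Fintype I]

/-- the property that no embedding of the ring of integers of `k'` gives an obstruction -/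
def NoObs {k' : Type} [Field k'] [NumberField k'] (ι : 𝓞 k →+* 𝓞 k') (p0 : ℕ)
    (Obs : ∀ (p : ℕ) [Fact p.Prime], (𝓞 k' →+* ℤ_[p]) → Set (I → ZMod p)) (c : I → 𝓞 k) : Prop :=
  ∀ (p : ℕ) [Fact p.Prime] (σ : 𝓞 k' →+* ℤ_[p]), p0 ≤ p →
    (fun i => red (σ.comp ι) (c i)) ∉ Obs p σ

/-- **The density principle.** -/
theorem densG_one {k' : Type} [Field k'] [NumberField k'] (ι : 𝓞 k →+* 𝓞 k') {δ : ℝ}
    (hδ0 : 0 < δ) (hδ1 : δ ≤ 1) (p0 : ℕ)
    (Obs : ∀ (p : ℕ) [Fact p.Prime], (𝓞 k' →+* ℤ_[p]) → Set (I → ZMod p))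
    (hc : ∀ (p : ℕ) [Fact p.Prime] (σ : 𝓞 k' →+* ℤ_[p]), p0 ≤ p →
      δ * (p : ℝ) ^ Fintype.card I ≤ ((Obs p σ).ncard : ℝ)) {η : ℝ} (hη : 0 < η) :
    ∃ H0 : ℕ, ∀ H : ℕ, H0 ≤ H →
      (({c : I → 𝓞 k | (∀ i j, |B.repr (c i) j| ≤ (H : ℤ)) ∧ NoObs ι p0 Obs c}.ncard : ℕ) : ℝ) ≤
        η * (2 * H + 1) ^ (Fintype.card I * Fintype.card J) := by
  obtain ⟨m, hm⟩ := exists_pow_lt_of_lt_one
    (show 0 < η / 2 ^ Fintype.card (I × J) by positivity) (show 1 - δ < 1 by linarith)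
  set good : Set ℕ := {p | p0 ≤ p ∧ ∃ h : Fact p.Prime, Nonempty (𝓞 k' →+* ℤ_[p])} with hgood
  have hinf : good.Infinite := by
    rw [Set.infinite_iff_exists_gt]
    intro N
    obtain ⟨p, hp, h1, h2⟩ := exists_emb k' (N + p0)
    exact ⟨p, ⟨by omega, hp, h2⟩, by omega⟩
  obtain ⟨P, hPs, hPc⟩ := hinf.exists_subset_card_eq m
  have hP : ∀ p ∈ P, p.Prime := fun p hp => (hPs hp).2.choose.out
  let Ω : (p : ℕ) → Set (I × J → ZMod p) := fun p =>
    {y | ∃ (h : Fact p.Prime) (σ : 𝓞 k' →+* ℤ_[p]), rd B (σ.comp ι) I y ∈ Obs p σ}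
  have hΩ : ∀ p ∈ P, δ * (p : ℝ) ^ Fintype.card (I × J) ≤ ((Ω p).ncard : ℝ) := by
    intro p hp
    obtain ⟨h1, h2, ⟨σ⟩⟩ := hPs hp
    have h3 := hc p σ h1
    have h4 := proportion (rd B (σ.comp ι) I) (rd_surj B (σ.comp ι)) (Obs p σ) (δ := δ)
      (Ω := Ω p) (by
      rw [Fintype.card_fun, ZMod.card, Nat.cast_pow]
      exact h3) (fun x hx => ⟨h2, σ, hx⟩)
    rw [Fintype.card_fun, ZMod.card, Nat.cast_pow] at h4
    exact h4
  refine ⟨∏ p ∈ P, p, fun H hH => ?_⟩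
  set Z : Set (I → 𝓞 k) := {c : I → 𝓞 k | (∀ i j, |B.repr (c i) j| ≤ (H : ℤ)) ∧
    NoObs ι p0 Obs c} with hZ
  let ψ : (I → 𝓞 k) → (I × J → ℤ) := fun c q => B.repr (c q.1) q.2
  have hψ : Function.Injective ψ := by
    intro c d hcd
    funext i
    apply B.repr.injective
    ext j
    exact congrFun hcd (i, j)
  have hsub : ψ '' Z ⊆ avoid P Ω H := by
    rintro _ ⟨c, hc, rfl⟩
    refine ⟨fun q => hc.1 q.1 q.2, fun p hp => ?_⟩
    rintro ⟨h2, σ, hσ⟩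
    have h5 := rd_int B (σ.comp ι) c
    have h6 : (fun i => red (σ.comp ι) (c i)) ∈ Obs p σ := by
      rw [← h5]
      exact hσ
    exact hc.2 p σ (hPs hp).1 h6
  have hfin : (avoid P Ω H).Finite := by
    have : (Set.pi Set.univ fun _ : I × J => Set.Icc (-(H : ℤ)) H).Finite :=
      Set.Finite.pi fun _ => Set.finite_Icc _ _
    refine this.subset ?_
    intro x hx i _
    exact abs_le.1 (hx.1 i)
  have h7 : (Z.ncard : ℝ) ≤ ((avoid P Ω H).ncard : ℝ) := by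
    rw [← Set.ncard_image_of_injective Z hψ]
    exact_mod_cast Set.ncard_le_ncard hsub hfin
  have h8 := sieve P hP Ω hδ1 hΩ H
  rw [hPc] at h8
  have hQ : ((∏ p ∈ P, p : ℕ) : ℝ) ≤ H := by exact_mod_cast hH
  have hQ0 : (0 : ℝ) ≤ ((∏ p ∈ P, p : ℕ) : ℝ) := Nat.cast_nonneg _
  have hH0 : (0 : ℝ) ≤ H := Nat.cast_nonneg _
  calc (Z.ncard : ℝ) ≤ (1 - δ) ^ m * (2 * H + (∏ p ∈ P, p : ℕ)) ^ Fintype.card (I × J) :=
        h7.trans h8
    _ ≤ (1 - δ) ^ m * (2 * (2 * H + 1)) ^ Fintype.card (I × J) := by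
        refine mul_le_mul_of_nonneg_left ?_ (pow_nonneg (by linarith) _)
        exact pow_le_pow_left₀ (by positivity) (by linarith) _
    _ = ((1 - δ) ^ m * 2 ^ Fintype.card (I × J)) * (2 * H + 1) ^ Fintype.card (I × J) := by
        rw [mul_pow]; ring
    _ ≤ η * (2 * H + 1) ^ Fintype.card (I × J) := by
        refine mul_le_mul_of_nonneg_right ?_ (by positivity)
        have h9 := mul_le_mul_of_nonneg_right hm.le
          (show (0 : ℝ) ≤ 2 ^ Fintype.card (I × J) by positivity)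
        rwa [div_mul_cancel₀ _ (by positivity)] at h9
    _ = _ := by rw [Fintype.card_prod]

/-- finitely many sets of density zero -/
theorem combine {Λ : Type} (T : Finset Λ) (No : Λ → (I → 𝓞 k) → Prop)
    (hNo : ∀ S ∈ T, ∀ η : ℝ, 0 < η → ∃ H0 : ℕ, ∀ H : ℕ, H0 ≤ H →
      (({c : I → 𝓞 k | (∀ i j, |B.repr (c i) j| ≤ (H : ℤ)) ∧ No S c}.ncard : ℕ) : ℝ) ≤
        η * (2 * H + 1) ^ (Fintype.card I * Fintype.card J)) {η : ℝ} (hη : 0 < η) :
    ∃ H0 : ℕ, ∀ H : ℕ, H0 ≤ H → ∀ Bad : Set (I → 𝓞 k),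
      (∀ c ∈ Bad, (∀ i j, |B.repr (c i) j| ≤ (H : ℤ)) ∧ ∃ S ∈ T, No S c) →
      (Bad.ncard : ℝ) ≤ η * (2 * H + 1) ^ (Fintype.card I * Fintype.card J) := by
  set Y : Λ → ℕ → Set (I → 𝓞 k) := fun S H => {c : I → 𝓞 k |
    (∀ i j, |B.repr (c i) j| ≤ (H : ℤ)) ∧ No S c} with hY
  have hη' : 0 < η / (T.card + 1) := by positivity
  have hs : ∀ S ∈ T, ∃ H0 : ℕ, ∀ H : ℕ, H0 ≤ H →
      ((Y S H).ncard : ℝ) ≤ η / (T.card + 1) *
        (2 * H + 1) ^ (Fintype.card I * Fintype.card J) := fun S hS => hNo S hS _ hη'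
  choose! H0 hH0 using hs
  refine ⟨T.sup H0, fun H hH Bad hBad => ?_⟩
  have hboxfin : {c : I → 𝓞 k | ∀ i j, |B.repr (c i) j| ≤ (H : ℤ)}.Finite := by
    have h1 : (Set.pi Set.univ fun _ : I × J => Set.Icc (-(H : ℤ)) H).Finite :=
      Set.Finite.pi fun _ => Set.finite_Icc _ _
    let ψ : (I → 𝓞 k) → (I × J → ℤ) := fun c q => B.repr (c q.1) q.2
    have hψ : Function.Injective ψ := by
      intro c d hcd
      funext i
      apply B.repr.injective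
      ext j
      exact congrFun hcd (i, j)
    refine (h1.preimage hψ.injOn).subset ?_
    intro c hc q _
    exact abs_le.1 (hc q.1 q.2)
  have hsub : Bad ⊆ ⋃ S ∈ T, Y S H := by
    intro c hc
    obtain ⟨hb, S, hS, hno⟩ := hBad c hc
    rw [Set.mem_iUnion₂]
    exact ⟨S, hS, hb, hno⟩
  have hfinY : ∀ S, (Y S H).Finite := fun S => hboxfin.subset fun c hc => hc.1
  have hcard : Bad.ncard ≤ ∑ S ∈ T, (Y S H).ncard :=
    (Set.ncard_le_ncard hsub (Set.Finite.biUnion T.finite_toSet fun S _ => hfinY S)).trans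
      (Finset.set_ncard_biUnion_le T fun S => Y S H)
  calc (Bad.ncard : ℝ) ≤ ((∑ S ∈ T, (Y S H).ncard : ℕ) : ℝ) := by exact_mod_cast hcard
    _ = ∑ S ∈ T, ((Y S H).ncard : ℝ) := by push_cast; rfl
    _ ≤ ∑ _S ∈ T, η / (T.card + 1) * (2 * H + 1) ^ (Fintype.card I * Fintype.card J) :=
        Finset.sum_le_sum fun S hS => hH0 S hS H ((Finset.le_sup hS).trans hH)
    _ = (T.card / (T.card + 1)) *
        (η * (2 * H + 1) ^ (Fintype.card I * Fintype.card J)) := by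
        rw [Finset.sum_const, nsmul_eq_mul]
        field_simp
    _ ≤ 1 * (η * (2 * H + 1) ^ (Fintype.card I * Fintype.card J)) := by
        refine mul_le_mul_of_nonneg_right ?_ (by positivity)
        rw [div_le_one (by positivity)]
        linarith
    _ = _ := one_mul _

end Pool.Agent.R431.SG
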