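import Mathlib

/-!
# Irreducibility from the reduction
-/

set_option autoImplicit false
set_option linter.all false

namespace Pool.Agent.R431.SG

open Polynomial NumberField

/-- The polynomial with given coefficients. -/
noncomputable def pol {R : Type} [CommRing R] {N : ℕ} (c : Fin N → R) : R[X] :=
  ∑ j, C (c j) * X ^ (j : ℕ)

lemma pol_map {R S : Type} [CommRing R] [CommRing S] (φ : R →+* S) {N : ℕ} (c : Fin N → R) :
    (pol c).map φ = pol fun j => φ (c j) := by
  unfold pol
  rw [Polynomial.map_sum]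
  simp

lemma pol_coeff {R : Type} [CommRing R] {N : ℕ} (c : Fin N → R) (j : Fin N) :
    (pol c).coeff j = c j := by
  unfold pol
  rw [finset_sum_coeff, Finset.sum_eq_single j]
  · simp
  · intro i _ hij
    rw [coeff_C_mul, coeff_X_pow, if_neg, mul_zero]
    intro h
    exact hij (Fin.ext h.symm)
  · simp

lemma pol_degree {R : Type} [CommRing R] {N : ℕ} (c : Fin (N + 1) → R) :
    (pol c).natDegree ≤ N := by
  unfold pol
  refine natDegree_sum_le_of_forall_le _ _ fun j _ => ?_
  refine (natDegree_C_mul_X_pow_le _ _).trans ?_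
  have := j.2
  omega

lemma pol_of {R : Type} [CommRing R] {g : R[X]} {n : ℕ} (h : g.natDegree ≤ n) :
    pol (fun j : Fin (n + 1) => g.coeff j) = g := by
  unfold pol
  rw [Fin.sum_univ_eq_sum_range (fun j => C (g.coeff j) * X ^ j) (n + 1)]
  conv_rhs => rw [g.as_sum_range_C_mul_X_pow' (by omega : g.natDegree < n + 1)]

lemma pol_injective {R : Type} [CommRing R] {N : ℕ} :
    Function.Injective (pol : (Fin N → R) → R[X]) := by
  intro c d h
  funext j
  rw [← pol_coeff c j, h, pol_coeff]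

lemma pol_eval {R : Type} [CommRing R] {N : ℕ} (c : Fin N → R) (x : R) :
    (pol c).eval x = ∑ j, c j * x ^ (j : ℕ) := by
  unfold pol
  rw [eval_finset_sum]
  simp

/-- irreducibility descends along an extension of fields -/
lemma irr_of_map {k L : Type} [Field k] [Field L] (φ : k →+* L) {f : k[X]}
    (h : Irreducible (f.map φ)) : Irreducible f := by
  refine ⟨fun hu => h.not_isUnit (hu.map (mapRingHom φ)), ?_⟩
  intro a b hab
  have h1 : f.map φ = a.map φ * b.map φ := by rw [hab, Polynomial.map_mul]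
  have key : ∀ g : k[X], IsUnit (g.map φ) → IsUnit g := by
    intro g hg
    rw [isUnit_iff_degree_eq_zero] at hg ⊢
    rwa [degree_map] at hg
  exact (h.isUnit_or_isUnit h1).imp (key a) (key b)

section padic

variable {p : ℕ} [Fact p.Prime]

/-- a polynomial over `ℤ_p` whose reduction is irreducible of the same degree -/
lemma irr_padic {f : ℤ_[p][X]} {n : ℕ} (hf : f.natDegree ≤ n)
    (hd : (f.map PadicInt.toZMod).natDegree = n) (hn : n ≠ 0)
    (h : Irreducible (f.map (PadicInt.toZMod (p := p)))) :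
    Irreducible (f.map (algebraMap ℤ_[p] ℚ_[p])) := by
  have hn' : f.natDegree = n := le_antisymm hf (by rw [← hd]; exact natDegree_map_le)
  have hlc : PadicInt.toZMod f.leadingCoeff ≠ (0 : ZMod p) := by
    have h1 : (f.map (PadicInt.toZMod (p := p))).leadingCoeff ≠ 0 := by
      rw [Ne, leadingCoeff_eq_zero]
      exact h.ne_zero
    rwa [leadingCoeff, hd, coeff_map, ← hn'] at h1
  have hu : IsUnit f.leadingCoeff := by
    by_contra hcon
    have h1 : f.leadingCoeff ∈ IsLocalRing.maximalIdeal ℤ_[p] := hcon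
    rw [← PadicInt.ker_toZMod] at h1
    exact hlc h1
  obtain ⟨u, hu⟩ := hu
  set g : ℤ_[p][X] := C ((u⁻¹ : ℤ_[p]ˣ) : ℤ_[p]) * f with hg
  have hmon : g.Monic := by
    rw [hg, Monic, leadingCoeff_mul, leadingCoeff_C, ← hu, Units.inv_mul]
  have hCu : IsUnit (C ((u⁻¹ : ℤ_[p]ˣ) : ℤ_[p])) := isUnit_C.2 (Units.isUnit _)
  have hgirr : Irreducible (g.map (PadicInt.toZMod (p := p))) := by
    rw [hg, Polynomial.map_mul]
    exact (irreducible_isUnit_mul (hCu.map (mapRingHom (PadicInt.toZMod (p := p))))).2 h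
  have h2 : Irreducible g := hmon.irreducible_of_irreducible_map _ _ hgirr
  have h3 : Irreducible (g.map (algebraMap ℤ_[p] ℚ_[p])) :=
    (hmon.irreducible_iff_irreducible_map_fraction_map (K := ℚ_[p])).1 h2
  rw [hg, Polynomial.map_mul] at h3
  exact (irreducible_isUnit_mul (hCu.map (mapRingHom (algebraMap ℤ_[p] ℚ_[p])))).1 h3

end padic

section nf

variable {k : Type} [Field k] [NumberField k] {p : ℕ} [Fact p.Prime]

omit [NumberField k] in
/-- a nonzero integer of `k` divides a nonzero rational integer -/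
lemma exists_dvd_int {x : 𝓞 k} (hx : x ≠ 0) : ∃ m : ℤ, m ≠ 0 ∧ x ∣ (m : 𝓞 k) := by
  have h1 : IsAlgebraic ℤ x := Algebra.IsAlgebraic.isAlgebraic x
  obtain ⟨m, hm, h⟩ := h1.exists_nonzero_dvd (mem_nonZeroDivisors_of_ne_zero hx)
  exact ⟨m, hm, by simpa using h⟩

/-- the embedding of the field -/
lemma emb_inj (σ : 𝓞 k →+* ℤ_[p]) : Function.Injective σ := by
  rw [injective_iff_map_eq_zero]
  intro x hx
  by_contra hx0
  obtain ⟨m, hm, y, hy⟩ := exists_dvd_int hx0
  have h3 := congrArg σ hy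
  rw [map_mul, hx, zero_mul, map_intCast] at h3
  exact hm (Int.cast_injective (by rw [h3, Int.cast_zero]))

/-- the extension to the field -/
noncomputable def ext (σ : 𝓞 k →+* ℤ_[p]) : k →+* ℚ_[p] :=
  IsFractionRing.lift (A := 𝓞 k) (K := k) (L := ℚ_[p]) (g := (algebraMap ℤ_[p] ℚ_[p]).comp σ)
    ((IsFractionRing.injective ℤ_[p] ℚ_[p]).comp (emb_inj σ))

lemma ext_alg (σ : 𝓞 k →+* ℤ_[p]) (x : 𝓞 k) :
    ext σ (algebraMap (𝓞 k) k x) = algebraMap ℤ_[p] ℚ_[p] (σ x) := by
  unfold ext
  rw [IsFractionRing.lift_algebraMap]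
  rfl

/-- the reduction -/
noncomputable def red (σ : 𝓞 k →+* ℤ_[p]) : 𝓞 k →+* ZMod p := PadicInt.toZMod.comp σ

/-- irreducibility over `k` from the reduction -/
theorem irr_of_red (σ : 𝓞 k →+* ℤ_[p]) {n : ℕ} (hn : n ≠ 0) (c : Fin (n + 1) → 𝓞 k)
    (hd : (pol fun j => red σ (c j)).natDegree = n)
    (h : Irreducible (pol fun j => red σ (c j))) :
    Irreducible (pol fun j => algebraMap (𝓞 k) k (c j)) := by
  apply irr_of_map (ext σ)
  have h1 : (pol fun j => algebraMap (𝓞 k) k (c j)).map (ext σ) =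
      (pol fun j => σ (c j)).map (algebraMap ℤ_[p] ℚ_[p]) := by
    rw [pol_map, pol_map]
    congr 1
    funext j
    exact ext_alg σ (c j)
  have h2 : (pol fun j => σ (c j)).map (PadicInt.toZMod (p := p)) =
      pol fun j => red σ (c j) := by
    rw [pol_map]
    rfl
  rw [h1]
  refine irr_padic (n := n) (pol_degree _) ?_ hn ?_
  · rw [h2]; exact hd
  · rw [h2]; exact h

end nf

end Pool.Agent.R431.SG
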