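import Pool.Agent.R431.SG.Bad
import Pool.Agent.R431.SG.Dens
import Pool.Agent.R431.SG.Cnt
import Pool.Agent.R431.SG.Cst
import Pool.Agent.R431.SG.Crit

/-!
# Almost all quadratic twists
-/

set_option autoImplicit false
set_option linter.all false

open scoped Classical

namespace Pool.Agent.R431.SG

open Polynomial NumberField IsDedekindDomain Pool.Agent.Y713

lemma coprime_of_ne {k : Type} [Field k] {π π' : k[X]} (h : Irreducible π ∧ π.Monic)
    (h' : Irreducible π' ∧ π'.Monic) (hne : π ≠ π') : IsCoprime π π' := by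
  rw [h.1.coprime_iff_not_dvd]
  intro hd
  exact hne (eq_of_monic_of_associated h.2 h'.2 (h.1.associated_of_dvd h'.1 hd))

lemma sep_prod {k : Type} [Field k] [CharZero k] {S : Finset k[X]}
    (hS : ∀ π ∈ S, Irreducible π ∧ π.Monic) : (∏ π ∈ S, π).Separable :=
  separable_prod' (fun x hx y hy hxy => coprime_of_ne (hS x hx) (hS y hy) hxy) fun x hx =>
    (hS x hx).1.separable

lemma deg_prod {k : Type} [Field k] {S : Finset k[X]}
    (hS : ∀ π ∈ S, Irreducible π ∧ π.Monic) (hne : S.Nonempty) :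
    1 ≤ (∏ π ∈ S, π).natDegree := by
  obtain ⟨π, hπ⟩ := hne
  have h1 : π ∣ ∏ π ∈ S, π := Finset.dvd_prod_of_mem _ hπ
  have h2 := natDegree_le_of_dvd h1 (Finset.prod_ne_zero_iff.2 fun x hx => (hS x hx).1.ne_zero)
  have h3 := (hS π hπ).1.natDegree_pos
  omega

theorem all_obs {k : Type} [Field k] [NumberField k] {T : Finset k[X]} {N : ℕ}
    {c : Fin N → 𝓞 k} (hD : Irreducible (pol fun j => algebraMap (𝓞 k) k (c j)))
    (hobs : ∀ S ⊆ T, S.Nonempty → ∃ (f : (𝓞 k)[X]) (e : k) (p : ℕ) (h : Fact p.Prime)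
      (σ : 𝓞 k →+* ℤ_[p]), e ≠ 0 ∧ f.map (algebraMap (𝓞 k) k) = C e * ∏ π ∈ S, π ∧
        PairObs (f.map (red σ)) (fun j => red σ (c j))) :
    (∀ π ∈ T, ¬ (pol fun j => algebraMap (𝓞 k) k (c j)) ∣ π) ∧
      ∀ (b : k) (a : k[X] → ℕ) (z : k[X]), b ≠ 0 →
        (pol fun j => algebraMap (𝓞 k) k (c j)) ∣ C b * ∏ π ∈ T, π ^ a π - z ^ 2 →
        ∀ π ∈ T, 2 ∣ a π := by
  have h1 : ∀ π ∈ T, ¬ (pol fun j => algebraMap (𝓞 k) k (c j)) ∣ π := by
    intro π hπ hd
    obtain ⟨f, e, p, hp, σ, he, hf, ho⟩ := hobs {π} (Finset.singleton_subset_iff.2 hπ)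
      (Finset.singleton_nonempty π)
    refine pair_contra σ he hf ho (W := 1) (z := 0) (a := 1) one_ne_zero isCoprime_one_right ?_
    rw [Finset.prod_singleton, C_1, one_mul, one_pow, mul_one, zero_pow two_ne_zero, sub_zero]
    exact hd
  refine ⟨h1, ?_⟩
  intro b a z hb hdvd
  by_contra hcon
  push Not at hcon
  obtain ⟨π0, hπ0, hodd⟩ := hcon
  obtain ⟨f, e, p, hp, σ, he, hf, ho⟩ := hobs (T.filter fun π => ¬ 2 ∣ a π)
    (Finset.filter_subset _ _) ⟨π0, Finset.mem_filter.2 ⟨hπ0, hodd⟩⟩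
  refine pair_contra σ he hf ho (W := ∏ π ∈ T, π ^ (a π / 2)) (z := z) hb ?_ ?_
  · refine IsCoprime.prod_right fun π hπ => IsCoprime.pow_right ?_
    exact (hD.coprime_iff_not_dvd).2 (h1 π hπ)
  · have h2 : (∏ π ∈ T.filter (fun π => ¬ 2 ∣ a π), π) * (∏ π ∈ T, π ^ (a π / 2)) ^ 2 =
        ∏ π ∈ T, π ^ a π := by
      rw [← Finset.prod_pow, Finset.prod_filter, ← Finset.prod_mul_distrib]
      refine Finset.prod_congr rfl fun π _ => ?_
      split_ifs with h
      · rw [one_mul, ← pow_mul]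
        congr 1
        omega
      · rw [← pow_mul, ← pow_succ']
        congr 1
        omega
    rw [h2]
    exact hdvd

lemma d1 (m : ℕ) : (1 : ℝ) / (32 * (m + 2) ^ 2) ≤ 1 := by
  rw [div_le_one (by positivity)]
  have : (0 : ℝ) ≤ m := Nat.cast_nonneg m
  nlinarith

lemma d2 (m : ℕ) : 1 / (32 * (m + 2) ^ 2 : ℝ) ≤ 1 / (4 * ((m + 1 : ℕ) : ℝ)) := by
  push_cast
  have : (0 : ℝ) ≤ m := Nat.cast_nonneg m
  apply one_div_le_one_div_of_le (by positivity)
  nlinarith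

lemma d3 (m : ℕ) : 1 / (32 * (m + 2) ^ 2 : ℝ) ≤ 1 / (4 * ((m + 2 : ℕ) : ℝ)) := by
  push_cast
  have : (0 : ℝ) ≤ m := Nat.cast_nonneg m
  apply one_div_le_one_div_of_le (by positivity)
  nlinarith

/-- **Almost all quadratic twists.** -/
theorem twists_main {k : Type} [Field k] [NumberField k] {J : Type} [Fintype J]
    (B : Module.Basis J ℤ (𝓞 k)) {F : (RatFunc k)[X]} (hs : F.Splits) (hsep : F.Separable)
    (hodd : Odd F.natDegree) {n : ℕ} (hn : 3 ≤ n) {η : ℝ} (hη : 0 < η) :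
    ∃ H0 : ℕ, ∀ H : ℕ, H0 ≤ H →
      (({c : Fin (n + 1) → 𝓞 k | (∀ i j, |B.repr (c i) j| ≤ (H : ℤ)) ∧
        ¬ Jac.ShaPrimaryTrivial 2 (C (algebraMap k[X] (RatFunc k)
          (pol fun j => algebraMap (𝓞 k) k (c j))) * F) k[X]}.ncard : ℕ) : ℝ) ≤
        η * (2 * H + 1) ^ ((n + 1) * Fintype.card J) := by
  obtain ⟨m, rfl⟩ : ∃ m, n = m + 2 := ⟨n - 2, by omega⟩
  have hζ : IsPrimitiveRoot (-1 : k) 2 := IsPrimitiveRoot.neg_one 0 (by norm_num)
  obtain ⟨T, hT, hcrit⟩ := twist_crit (RatFunc k) Nat.prime_two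
    (by exact_mod_cast (two_ne_zero : (2 : k) ≠ 0)) hζ hs hsep
    (by rw [← even_iff_two_dvd, Nat.not_even_iff_odd]; exact hodd)
  have hmod : ∀ S : Finset k[X], S ⊆ T → S.Nonempty → ∃ (f : (𝓞 k)[X]) (e : k) (p0 : ℕ), e ≠ 0 ∧
      f.map (algebraMap (𝓞 k) k) = C e * (∏ π ∈ S, π) ∧
      ∀ (p : ℕ) [Fact p.Prime] (σ : 𝓞 k →+* ℤ_[p]), p0 ≤ p →
        (f.map (red σ)).natDegree = (∏ π ∈ S, π).natDegree ∧
          ∀ (c : ZMod p) (h : (ZMod p)[X]), f.map (red σ) ≠ C c * h ^ 2 := fun S hS hne =>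
    exists_model (sep_prod fun π hπ => hT π (hS hπ)) (deg_prod (fun π hπ => hT π (hS hπ)) hne)
  choose! f e p1 he hf hp1 using hmod
  set dg : Finset k[X] → ℕ := fun S => (∏ π ∈ S, π).natDegree with hdg
  set p0 : ℕ := T.powerset.sup p1 + 400 * (T.powerset.sup dg + 1) ^ 2 + 3 with hp0
  let T' : Finset (Bool ⊕ Finset k[X]) :=
    {Sum.inl true, Sum.inl false} ∪ (T.powerset.filter fun S => S.Nonempty).image Sum.inr
  let Obs : Bool ⊕ Finset k[X] → ∀ (p : ℕ) [Fact p.Prime], (𝓞 k →+* ℤ_[p]) →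
      Set (Fin (m + 3) → ZMod p) := fun S p _ σ =>
    match S with
    | Sum.inl true => {c | (pol c).natDegree = m + 2 ∧ Irreducible (pol c)}
    | Sum.inl false => {c | m = 1 ∨ ∃ (r : ZMod p) (g : (ZMod p)[X]), pol c = (X - C r) * g ∧
        g.natDegree = m + 1 ∧ Irreducible g}
    | Sum.inr S => {c | PairObs ((f S).map (red σ)) c}
  have hδ0 : (0 : ℝ) < 1 / (32 * (m + 2) ^ 2) := by positivity
  have hδ1 : (1 : ℝ) / (32 * (m + 2) ^ 2) ≤ 1 := d1 m
  have hc : ∀ S ∈ T', ∀ (p : ℕ) [Fact p.Prime] (σ : 𝓞 k →+* ℤ_[p]), p0 ≤ p →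
      1 / (32 * (m + 2) ^ 2 : ℝ) * (p : ℝ) ^ Fintype.card (Fin (m + 3)) ≤
        ((Obs S p σ).ncard : ℝ) := by
    intro S hS p _ σ hp
    rw [Fintype.card_fin]
    have hm0 : (0 : ℝ) ≤ m := Nat.cast_nonneg m
    have hpp : (0 : ℝ) ≤ (p : ℝ) ^ (m + 3) := by positivity
    rcases S with (_ | _) | S
    · by_cases hm1 : m = 1
      · have h1 : Obs (Sum.inl false) p σ = Set.univ := by
          ext c
          simp [Obs, hm1]
        rw [h1, Set.ncard_univ, Nat.card_eq_fintype_card, Fintype.card_fun, ZMod.card,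
          Fintype.card_fin, Nat.cast_pow]
        calc 1 / (32 * (m + 2) ^ 2 : ℝ) * (p : ℝ) ^ (m + 3) ≤ 1 * (p : ℝ) ^ (m + 3) :=
              mul_le_mul_of_nonneg_right hδ1 hpp
          _ = _ := one_mul _
      · have h1 := card_fac p (m := m + 1) (by omega)
        have h2 : {c : Fin (m + 1 + 2) → ZMod p | ∃ (r : ZMod p) (g : (ZMod p)[X]),
            pol c = (X - C r) * g ∧ g.natDegree = m + 1 ∧ Irreducible g}.ncard ≤
            (Obs (Sum.inl false) p σ).ncard :=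
          Set.ncard_le_ncard (fun c hc => Or.inr hc) (Set.toFinite _)
        have h3 : (({c : Fin (m + 1 + 2) → ZMod p | ∃ (r : ZMod p) (g : (ZMod p)[X]),
            pol c = (X - C r) * g ∧ g.natDegree = m + 1 ∧ Irreducible g}.ncard : ℕ) : ℝ) ≤
            (Obs (Sum.inl false) p σ).ncard := by exact_mod_cast h2
        refine le_trans ?_ (h1.trans h3)
        exact mul_le_mul_of_nonneg_right (d2 m) hpp
    · have h1 := card_irr p (n := m + 2) (by omega)
      refine le_trans ?_ h1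
      exact mul_le_mul_of_nonneg_right (d3 m) hpp
    · have hS' : S ⊆ T ∧ S.Nonempty := by
        simpa [T'] using hS
      have hSp : S ∈ T.powerset := Finset.mem_powerset.2 hS'.1
      have h1 : p1 S ≤ T.powerset.sup p1 := Finset.le_sup hSp
      have h2 : dg S ≤ T.powerset.sup dg := Finset.le_sup hSp
      obtain ⟨h3, h4⟩ := hp1 S hS'.1 hS'.2 p σ (by omega)
      have h5 : 1 ≤ dg S := deg_prod (fun π hπ => hT π (hS'.1 hπ)) hS'.2
      have h6 : 400 * (T.powerset.sup dg + 1) ^ 2 ≤ p := by omega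
      exact card_pairObs (by omega) (d := T.powerset.sup dg) (by rw [h3]; exact h5)
        (by rw [h3]; exact h2) h4 h6 m
  obtain ⟨H0, hH0⟩ := density B (I := Fin (m + 3)) T' hδ0 hδ1 p0 Obs hc hη
  refine ⟨H0, fun H hH => ?_⟩
  have hfin := hH0 H hH {c : Fin (m + 3) → 𝓞 k | (∀ i j, |B.repr (c i) j| ≤ (H : ℤ)) ∧
        ¬ Jac.ShaPrimaryTrivial 2 (C (algebraMap k[X] (RatFunc k)
          (pol fun j => algebraMap (𝓞 k) k (c j))) * F) k[X]} ?_
  · rw [Fintype.card_fin] at hfin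
    exact hfin
  rintro c ⟨hbox, hnot⟩
  refine ⟨hbox, ?_⟩
  by_contra hall
  push Not at hall
  apply hnot
  obtain ⟨p, hp, σ, -, hirr⟩ := hall (Sum.inl true) (by simp [T'])
  have hD : Irreducible (pol fun j => algebraMap (𝓞 k) k (c j)) :=
    irr_of_red σ (by omega) c hirr.1 hirr.2
  have hDd : (pol fun j => algebraMap (𝓞 k) k (c j)).natDegree = m + 2 := by
    refine le_antisymm (pol_degree _) ?_
    have h1 : ((pol fun j => c j).map (red σ)).natDegree = m + 2 := by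
      rw [pol_map]; exact hirr.1
    have h2 : ((pol fun j => c j).map (red σ)).natDegree ≤ (pol fun j => c j).natDegree :=
      natDegree_map_le
    have h3 : (pol fun j => algebraMap (𝓞 k) k (c j)) =
        (pol fun j => c j).map (algebraMap (𝓞 k) k) := by rw [pol_map]
    rw [h3, natDegree_map_eq_of_injective (FaithfulSMul.algebraMap_injective _ _)]
    omega
  obtain ⟨h1, h2⟩ := all_obs (T := T) hD (by
    intro S hST hS
    obtain ⟨p, hp, σ, -, ho⟩ := hall (Sum.inr S) (by simp [T', hST, hS])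
    exact ⟨f S, e S, p, hp, σ, he S hST hS, hf S hST hS, ho⟩)
  refine hcrit _ hD ?_ h1 h2
  intro b hb
  by_cases hm1 : m = 1
  · refine SE.const_stable Nat.prime_two hD ?_ hb
    rw [hDd, hm1]
    norm_num
  · obtain ⟨p, hp, σ, -, ho⟩ := hall (Sum.inl false) (by simp [T'])
    rcases ho with ho | ⟨r, g, hg1, hg2, hg3⟩
    · exact absurd ho hm1
    · have h3 : (pol fun j => σ (c j)).map (PadicInt.toZMod (p := p)) = (X - C r) * g := by
        rw [pol_map]
        exact hg1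
      obtain ⟨ρ, G, hG1, hG2, hG3⟩ := fac_padic (f := pol fun j => σ (c j)) (m := m + 1)
        (pol_degree _) r g hg3 hg2 (by omega) h3
      refine const_of_fac (ext σ) hDd (by omega) hG1 hG2 (ρ := ρ) ?_ hb
      rw [← hG3, pol_map, pol_map]
      congr 1
      funext j
      exact ext_alg σ (c j)

end Pool.Agent.R431.SG
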