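import Pool.Agent.R431.SG.PairL
import Pool.Agent.R431.SG.CstL
import Pool.Agent.R431.SG.CritL

/-!
# Almost all superelliptic curves with rational branch points
-/

set_option autoImplicit false
set_option linter.all false

open scoped Classical

namespace Pool.Agent.R431.SG

open Polynomial NumberField IsDedekindDomain Pool.Agent.Y713

lemma gp_map {R S : Type} [CommRing R] [CommRing S] (φ : R →+* S) {N n : ℕ}
    (c : Fin (N + 1) × Fin (n + 1) → R) (i : Fin (N + 1)) :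
    (gp c i).map φ = gp (fun q => φ (c q)) i := pol_map φ _

lemma fs_gp_map {R S : Type} [CommRing R] [CommRing S] (φ : R →+* S) {N n : ℕ}
    (c : Fin (N + 1) × Fin (n + 1) → R) (s : Fin N × Fin N → ℕ) :
    (fs s fun i => gp c i.succ).map φ = fs s fun i => gp (fun q => φ (c q)) i.succ := by
  have h := fs_map (mapRingHom φ) s (fun i => gp c i.succ)
  rw [coe_mapRingHom] at h
  rw [h]
  congr 1
  funext i
  exact gp_map φ c i.succ

theorem all_obsL {k : Type} [Field k] [NumberField k] {ℓ : ℕ} (hℓ : ℓ.Prime) {ζ : k}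
    (hζ : IsPrimitiveRoot ζ ℓ) {N : ℕ} (hN : ¬ ℓ ∣ N) {n : ℕ}
    (c : Fin (N + 1) × Fin (n + 1) → 𝓞 k)
    (hD : Irreducible (gp (fun q => algebraMap (𝓞 k) k (c q)) 0))
    (hcs : ∀ b : k, (∃ a : k[X], gp (fun q => algebraMap (𝓞 k) k (c q)) 0 ∣ C b - a ^ ℓ) →
      ∃ b' : k, b = b' ^ ℓ)
    (hirr : ∀ i j : Fin N, i ≠ j → Irreducible (gp (fun q => algebraMap (𝓞 k) k (c q)) i.succ -
      gp (fun q => algebraMap (𝓞 k) k (c q)) j.succ))
    (hobs : ∀ s : Fin N × Fin N → ℕ, (∀ q, s q < ℓ) → (∀ q, ¬ q.1 < q.2 → s q = 0) →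
      (∃ q, s q ≠ 0) → ∃ (p : ℕ) (_ : Fact p.Prime) (σ : 𝓞 k →+* ℤ_[p]),
        PObs ℓ (fs s fun i => gp (fun q => red σ (c q)) i.succ) fun j => red σ (c (0, j))) :
    Jac.ShaPrimaryTrivial ℓ (C (algebraMap k[X] (RatFunc k)
      (gp (fun q => algebraMap (𝓞 k) k (c q)) 0)) * ∏ i : Fin N, (X - C (algebraMap k[X]
        (RatFunc k) (gp (fun q => algebraMap (𝓞 k) k (c q)) i.succ)))) k[X] := by
  set D := gp (fun q => algebraMap (𝓞 k) k (c q)) 0 with hDdef
  set g : Fin N → k[X] := fun i => gp (fun q => algebraMap (𝓞 k) k (c q)) i.succ with hgdef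
  -- the obstruction
  have hcon : ∀ s : Fin N × Fin N → ℕ, (∀ q, s q < ℓ) → (∀ q, ¬ q.1 < q.2 → s q = 0) →
      (∃ q, s q ≠ 0) → ∀ (a : k) (W z : k[X]), a ≠ 0 → IsCoprime D W →
        ¬ D ∣ C a * (fs s g * W ^ ℓ) - z ^ ℓ := by
    intro s h1 h2 h3 a W z ha hW hd
    obtain ⟨p, hp, σ, ho⟩ := hobs s h1 h2 h3
    refine pair_contraL hℓ.ne_zero σ (c := fun j => c (0, j))
      (f := fs s fun i => gp c i.succ) ?_ ha hW (z := z) ?_
    · rw [fs_gp_map]
      exact ho
    · rw [fs_gp_map]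
      exact hd
  have hgne : ∀ i j : Fin N, i ≠ j → g i - g j ≠ 0 := fun i j hij => (hirr i j hij).ne_zero
  have hginj : Function.Injective g := by
    intro i j hij
    by_contra hne
    exact hgne i j hne (sub_eq_zero.2 hij)
  let nrm : Fin N × Fin N → k[X] := fun q =>
    (g q.1 - g q.2) * C (g q.1 - g q.2).leadingCoeff⁻¹
  let P : Finset (Fin N × Fin N) := Finset.univ.filter fun q => q.1 < q.2
  set T : Finset k[X] := P.image nrm with hTdef
  have hlt : ∀ q ∈ P, q.1 ≠ q.2 := fun q hq => (Finset.mem_filter.1 hq).2.ne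
  have hu : ∀ q ∈ P, IsUnit (C (g q.1 - g q.2).leadingCoeff⁻¹) := fun q hq =>
    isUnit_C.2 (isUnit_iff_ne_zero.2 (inv_ne_zero (leadingCoeff_ne_zero.2
      (hgne _ _ (hlt q hq)))))
  have hT : ∀ π ∈ T, Irreducible π ∧ π.Monic := by
    intro π hπ
    obtain ⟨q, hq, rfl⟩ := Finset.mem_image.1 hπ
    exact ⟨irreducible_mul_leadingCoeff_inv.2 (hirr _ _ (hlt q hq)),
      monic_mul_leadingCoeff_inv (hgne _ _ (hlt q hq))⟩
  have hℓ2 : 2 ≤ ℓ := hℓ.two_le
  have hDT : ∀ π ∈ T, ¬ D ∣ π := by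
    intro π hπ hd
    obtain ⟨q, hq, rfl⟩ := Finset.mem_image.1 hπ
    have hd' : D ∣ g q.1 - g q.2 := (IsUnit.dvd_mul_right (hu q hq)).1 hd
    refine hcon (fun q' => if q' = q then 1 else 0) ?_ ?_ ⟨q, by simp⟩ 1 1 0 one_ne_zero
      isCoprime_one_right ?_
    · intro q'
      split_ifs <;> omega
    · intro q' hq'
      rw [if_neg]
      rintro rfl
      exact hq' (Finset.mem_filter.1 hq).2
    · have h1 : fs (fun q' => if q' = q then 1 else 0) g = g q.1 - g q.2 := by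
        unfold fs
        rw [Finset.prod_eq_single q]
        · simp
        · intro q' _ h
          simp [h]
        · intro h
          exact absurd (Finset.mem_univ _) h
      rw [h1, C_1, one_mul, one_pow, mul_one, zero_pow hℓ.ne_zero, sub_zero]
      exact hd'
  refine tuple_crit (RatFunc k) hℓ (by exact_mod_cast hℓ.ne_zero) hζ hN hginj T hT ?_ hD hcs hDT ?_
  · intro i j hij v hv hm
    rcases lt_or_gt_of_ne hij with h | h
    · apply hv (nrm (i, j)) (Finset.mem_image.2 ⟨(i, j), Finset.mem_filter.2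
        ⟨Finset.mem_univ _, h⟩, rfl⟩)
      exact Ideal.mul_mem_right _ _ hm
    · apply hv (nrm (j, i)) (Finset.mem_image.2 ⟨(j, i), Finset.mem_filter.2
        ⟨Finset.mem_univ _, h⟩, rfl⟩)
      refine Ideal.mul_mem_right _ _ ?_
      have h2 : g j - g i = -(g i - g j) := by ring
      show g j - g i ∈ _
      rw [h2]
      exact neg_mem hm
  · intro b a z hb hdvd
    by_contra hex
    push Not at hex
    obtain ⟨π0, hπ0, hna⟩ := hex
    obtain ⟨P', hP'P, hinj, himg⟩ := Finset.exists_subset_injOn_image_eq_of_surjOn (f := nrm)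
      (P : Set (Fin N × Fin N)) T (by
        intro π hπ
        obtain ⟨q, hq, rfl⟩ := Finset.mem_image.1 hπ
        exact ⟨q, hq, rfl⟩)
    have hPP : ∀ q ∈ P', q ∈ P := fun q hq => hP'P hq
    let s : Fin N × Fin N → ℕ := fun q => if q ∈ P' then a (nrm q) % ℓ else 0
    obtain ⟨q1, hq1, hq1'⟩ : ∃ q ∈ P', nrm q = π0 := by
      have : π0 ∈ P'.image nrm := by rw [himg]; exact hπ0
      exact Finset.mem_image.1 this
    refine hcon s ?_ ?_ ⟨q1, ?_⟩
      (b * ∏ q ∈ P', ((g q.1 - g q.2).leadingCoeff⁻¹) ^ (a (nrm q) % ℓ))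
      (∏ q ∈ P', nrm q ^ (a (nrm q) / ℓ)) z ?_ ?_ ?_
    · intro q
      simp only [s]
      split_ifs
      · exact Nat.mod_lt _ hℓ.pos
      · exact hℓ.pos
    · intro q hq
      simp only [s]
      rw [if_neg]
      intro h
      exact hq (Finset.mem_filter.1 (hPP q h)).2
    · simp only [s]
      rw [if_pos hq1, hq1']
      intro h
      exact hna (Nat.dvd_of_mod_eq_zero h)
    · refine mul_ne_zero hb (Finset.prod_ne_zero_iff.2 fun q hq => pow_ne_zero _ ?_)
      exact inv_ne_zero (leadingCoeff_ne_zero.2 (hgne _ _ (hlt q (hPP q hq))))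
    · refine IsCoprime.prod_right fun q hq => IsCoprime.pow_right ?_
      refine (hD.coprime_iff_not_dvd).2 (hDT _ ?_)
      rw [← himg]
      exact Finset.mem_image_of_mem _ hq
    · have h1 : ∏ π ∈ T, π ^ a π = ∏ q ∈ P', nrm q ^ a (nrm q) := by
        rw [← himg, Finset.prod_image hinj]
      have h2 : fs s g = ∏ q ∈ P', (g q.1 - g q.2) ^ (a (nrm q) % ℓ) := by
        unfold fs
        rw [← Finset.prod_subset (Finset.subset_univ P') (fun q _ hq => by
          simp only [s]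
          rw [if_neg hq, pow_zero])]
        refine Finset.prod_congr rfl fun q hq => ?_
        simp only [s]
        rw [if_pos hq]
      have h3 : C (b * ∏ q ∈ P', ((g q.1 - g q.2).leadingCoeff⁻¹) ^ (a (nrm q) % ℓ)) *
          (fs s g * (∏ q ∈ P', nrm q ^ (a (nrm q) / ℓ)) ^ ℓ) = C b * ∏ π ∈ T, π ^ a π := by
        rw [h1, h2, C_mul, map_prod, ← Finset.prod_pow, mul_assoc, ← Finset.prod_mul_distrib,
          ← Finset.prod_mul_distrib]
        congr 1
        refine Finset.prod_congr rfl fun q hq => ?_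
        have h4 : nrm q ^ a (nrm q) = nrm q ^ (a (nrm q) % ℓ) * (nrm q ^ (a (nrm q) / ℓ)) ^ ℓ := by
          rw [← pow_mul, ← pow_add]
          congr 1
          rw [mul_comm (a (nrm q) / ℓ)]
          exact (Nat.mod_add_div _ _).symm
        rw [h4, C_pow, ← mul_assoc, ← mul_pow, mul_comm (C _) (g q.1 - g q.2)]
      rw [h3]
      exact hdvd

lemma e1 {n : ℕ} (hn : 4 ≤ n) (N : ℕ) : (1 : ℝ) / (2048 * (n : ℝ) ^ 2) ≤ 1 / (4 * (n : ℝ)) ∧
    (1 : ℝ) / (2048 * (n : ℝ) ^ 2) ≤ 1 / (4 * ((n - 1 : ℕ) : ℝ)) ∧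
    (1 : ℝ) / (2048 * (n : ℝ) ^ 2) ≤ 1 := by
  have h1 : (4 : ℝ) ≤ n := by exact_mod_cast hn
  have h2 : ((n - 1 : ℕ) : ℝ) = n - 1 := by
    rw [Nat.cast_sub (by omega), Nat.cast_one]
  refine ⟨?_, ?_, ?_⟩
  · apply one_div_le_one_div_of_le (by positivity)
    nlinarith
  · rw [h2]
    apply one_div_le_one_div_of_le (by linarith)
    nlinarith
  · rw [div_le_one (by positivity)]
    nlinarith

end Pool.Agent.R431.SG
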