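import Pool.Agent.R431.SG.CurvL
import Pool.Agent.R431.SG.CritS

/-!
# Almost all curves `y ^ ℓ = δ ∏ (x - g_i(t))`
-/

set_option autoImplicit false
set_option linter.all false

open scoped Classical

namespace Pool.Agent.R431.SG

open Polynomial NumberField IsDedekindDomain Pool.Agent.Y713

/-- the set of the prime factors of the differences -/
theorem obs_data {k : Type} [Field k] {ℓ : ℕ} (hℓ : ℓ.Prime) {M : ℕ} (g : Fin M → k[X])
    (hirr : ∀ i j, i ≠ j → Irreducible (g i - g j)) :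
    ∃ T : Finset k[X], (∀ π ∈ T, Irreducible π ∧ π.Monic) ∧
      (∀ i j, i ≠ j → ∀ v : HeightOneSpectrum k[X], (∀ π ∈ T, π ∉ v.asIdeal) →
        g i - g j ∉ v.asIdeal) ∧
      ∀ D : k[X], Irreducible D →
        (∀ s : Fin M × Fin M → ℕ, (∀ q, s q < ℓ) → (∀ q, ¬ q.1 < q.2 → s q = 0) →
          (∃ q, s q ≠ 0) → ∀ (a : k) (W z : k[X]), a ≠ 0 → IsCoprime D W →
            ¬ D ∣ C a * (fs s g * W ^ ℓ) - z ^ ℓ) →
        (∀ π ∈ T, ¬ D ∣ π) ∧ (∀ i j, i ≠ j → ¬ D ∣ g i - g j) ∧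
        ∀ (c : k) (a : k[X] → ℕ) (z : k[X]), c ≠ 0 → D ∣ C c * ∏ π ∈ T, π ^ a π - z ^ ℓ →
          ∀ π ∈ T, ℓ ∣ a π := by
  have hgne : ∀ i j : Fin M, i ≠ j → g i - g j ≠ 0 := fun i j hij => (hirr i j hij).ne_zero
  let nrm : Fin M × Fin M → k[X] := fun q =>
    (g q.1 - g q.2) * C (g q.1 - g q.2).leadingCoeff⁻¹
  let P : Finset (Fin M × Fin M) := Finset.univ.filter fun q => q.1 < q.2
  set T : Finset k[X] := P.image nrm with hTdef
  have hlt : ∀ q ∈ P, q.1 ≠ q.2 := fun q hq => (Finset.mem_filter.1 hq).2.ne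
  have hu : ∀ q ∈ P, IsUnit (C (g q.1 - g q.2).leadingCoeff⁻¹) := fun q hq =>
    isUnit_C.2 (isUnit_iff_ne_zero.2 (inv_ne_zero (leadingCoeff_ne_zero.2
      (hgne _ _ (hlt q hq)))))
  have hT : ∀ π ∈ T, Irreducible π ∧ π.Monic := by
    intro π hπ
    obtain ⟨q, hq, rfl⟩ := Finset.mem_image.1 hπ
    exact ⟨irreducible_mul_leadingCoeff_inv.2 (hirr _ _ (hlt q hq)),
      monic_mul_leadingCoeff_inv (hgne _ _ (hlt q hq))⟩
  have hℓ2 : 2 ≤ ℓ := hℓ.two_le
  refine ⟨T, hT, ?_, ?_⟩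
  · intro i j hij v hv hm
    rcases lt_or_gt_of_ne hij with h | h
    · apply hv (nrm (i, j)) (Finset.mem_image.2 ⟨(i, j), Finset.mem_filter.2
        ⟨Finset.mem_univ _, h⟩, rfl⟩)
      exact Ideal.mul_mem_right _ _ hm
    · apply hv (nrm (j, i)) (Finset.mem_image.2 ⟨(j, i), Finset.mem_filter.2
        ⟨Finset.mem_univ _, h⟩, rfl⟩)
      refine Ideal.mul_mem_right _ _ ?_
      have h2 : g j - g i = -(g i - g j) := by ring
      show g j - g i ∈ _
      rw [h2]
      exact neg_mem hm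
  intro D hD hcon
  have hD1 : ∀ q ∈ P, ¬ D ∣ g q.1 - g q.2 := by
    intro q hq hd'
    refine hcon (fun q' => if q' = q then 1 else 0) ?_ ?_ ⟨q, by simp⟩ 1 1 0 one_ne_zero
      isCoprime_one_right ?_
    · intro q'
      split_ifs <;> omega
    · intro q' hq'
      rw [if_neg]
      rintro rfl
      exact hq' (Finset.mem_filter.1 hq).2
    · have h1 : fs (fun q' => if q' = q then 1 else 0) g = g q.1 - g q.2 := by
        unfold fs
        rw [Finset.prod_eq_single q]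
        · simp
        · intro q' _ h
          simp [h]
        · intro h
          exact absurd (Finset.mem_univ _) h
      rw [h1, C_1, one_mul, one_pow, mul_one, zero_pow hℓ.ne_zero, sub_zero]
      exact hd'
  have hDT : ∀ π ∈ T, ¬ D ∣ π := by
    intro π hπ hd
    obtain ⟨q, hq, rfl⟩ := Finset.mem_image.1 hπ
    exact hD1 q hq ((IsUnit.dvd_mul_right (hu q hq)).1 hd)
  refine ⟨hDT, ?_, ?_⟩
  · intro i j hij hd
    rcases lt_or_gt_of_ne hij with h | h
    · exact hD1 (i, j) (Finset.mem_filter.2 ⟨Finset.mem_univ _, h⟩) hd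
    · refine hD1 (j, i) (Finset.mem_filter.2 ⟨Finset.mem_univ _, h⟩) ?_
      have h2 : g j - g i = -(g i - g j) := by ring
      show D ∣ g j - g i
      rw [h2, dvd_neg]
      exact hd
  · intro b a z hb hdvd
    by_contra hex
    push Not at hex
    obtain ⟨π0, hπ0, hna⟩ := hex
    obtain ⟨P', hP'P, hinj, himg⟩ := Finset.exists_subset_injOn_image_eq_of_surjOn (f := nrm)
      (P : Set (Fin M × Fin M)) T (by
        intro π hπ
        obtain ⟨q, hq, rfl⟩ := Finset.mem_image.1 hπ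
        exact ⟨q, hq, rfl⟩)
    have hPP : ∀ q ∈ P', q ∈ P := fun q hq => hP'P hq
    let s : Fin M × Fin M → ℕ := fun q => if q ∈ P' then a (nrm q) % ℓ else 0
    obtain ⟨q1, hq1, hq1'⟩ : ∃ q ∈ P', nrm q = π0 := by
      have : π0 ∈ P'.image nrm := by rw [himg]; exact hπ0
      exact Finset.mem_image.1 this
    refine hcon s ?_ ?_ ⟨q1, ?_⟩
      (b * ∏ q ∈ P', ((g q.1 - g q.2).leadingCoeff⁻¹) ^ (a (nrm q) % ℓ))
      (∏ q ∈ P', nrm q ^ (a (nrm q) / ℓ)) z ?_ ?_ ?_
    · intro q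
      simp only [s]
      split_ifs
      · exact Nat.mod_lt _ hℓ.pos
      · exact hℓ.pos
    · intro q hq
      simp only [s]
      rw [if_neg]
      intro h
      exact hq (Finset.mem_filter.1 (hPP q h)).2
    · simp only [s]
      rw [if_pos hq1, hq1']
      intro h
      exact hna (Nat.dvd_of_mod_eq_zero h)
    · refine mul_ne_zero hb (Finset.prod_ne_zero_iff.2 fun q hq => pow_ne_zero _ ?_)
      exact inv_ne_zero (leadingCoeff_ne_zero.2 (hgne _ _ (hlt q (hPP q hq))))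
    · refine IsCoprime.prod_right fun q hq => IsCoprime.pow_right ?_
      refine (hD.coprime_iff_not_dvd).2 (hDT _ ?_)
      rw [← himg]
      exact Finset.mem_image_of_mem _ hq
    · have h1 : ∏ π ∈ T, π ^ a π = ∏ q ∈ P', nrm q ^ a (nrm q) := by
        rw [← himg, Finset.prod_image hinj]
      have h2 : fs s g = ∏ q ∈ P', (g q.1 - g q.2) ^ (a (nrm q) % ℓ) := by
        unfold fs
        rw [← Finset.prod_subset (Finset.subset_univ P') (fun q _ hq => by
          simp only [s]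
          rw [if_neg hq, pow_zero])]
        refine Finset.prod_congr rfl fun q hq => ?_
        simp only [s]
        rw [if_pos hq]
      have h3 : C (b * ∏ q ∈ P', ((g q.1 - g q.2).leadingCoeff⁻¹) ^ (a (nrm q) % ℓ)) *
          (fs s g * (∏ q ∈ P', nrm q ^ (a (nrm q) / ℓ)) ^ ℓ) = C b * ∏ π ∈ T, π ^ a π := by
        rw [h1, h2, C_mul, map_prod, ← Finset.prod_pow, mul_assoc, ← Finset.prod_mul_distrib,
          ← Finset.prod_mul_distrib]
        congr 1
        refine Finset.prod_congr rfl fun q hq => ?_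
        have h4 : nrm q ^ a (nrm q) = nrm q ^ (a (nrm q) % ℓ) * (nrm q ^ (a (nrm q) / ℓ)) ^ ℓ := by
          rw [← pow_mul, ← pow_add]
          congr 1
          rw [mul_comm (a (nrm q) / ℓ)]
          exact (Nat.mod_add_div _ _).symm
        rw [h4, C_pow, ← mul_assoc, ← mul_pow, mul_comm (C _) (g q.1 - g q.2)]
      rw [h3]
      exact hdvd

/-- the properties of a tuple with all obstructions -/
theorem tuple_data {k : Type} [Field k] [NumberField k] {ℓ : ℕ} (hℓ : ℓ.Prime) {ζ : k}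
    (hζ : IsPrimitiveRoot ζ ℓ) {N m : ℕ} (hm : 2 ≤ m) (c : Fin (N + 1) × Fin (m + 3) → 𝓞 k)
    (hall : ∀ S : Option (Option ((Fin N × Fin N) ⊕ (Fin N × Fin N → Fin ℓ))),
      ∃ (p : ℕ) (_ : Fact p.Prime) (σ : 𝓞 k →+* ℤ_[p]),
        (fun q => red σ (c q)) ∈ ObsL ℓ N m S p) :
    Irreducible (gp (fun q => algebraMap (𝓞 k) k (c q)) 0) ∧
    (∀ b : k, (∃ a : k[X], gp (fun q => algebraMap (𝓞 k) k (c q)) 0 ∣ C b - a ^ ℓ) →
      ∃ b' : k, b = b' ^ ℓ) ∧
    (∀ i j : Fin N, i ≠ j → Irreducible (gp (fun q => algebraMap (𝓞 k) k (c q)) i.succ -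
      gp (fun q => algebraMap (𝓞 k) k (c q)) j.succ)) ∧
    (∀ s : Fin N × Fin N → ℕ, (∀ q, s q < ℓ) → (∀ q, ¬ q.1 < q.2 → s q = 0) →
      (∃ q, s q ≠ 0) → ∀ (a : k) (W z : k[X]), a ≠ 0 →
        IsCoprime (gp (fun q => algebraMap (𝓞 k) k (c q)) 0) W →
        ¬ gp (fun q => algebraMap (𝓞 k) k (c q)) 0 ∣
          C a * (fs s (fun i => gp (fun q => algebraMap (𝓞 k) k (c q)) i.succ) * W ^ ℓ) -
            z ^ ℓ) := by
  have hred : ∀ (d : Fin (m + 3) → 𝓞 k) (p : ℕ) [Fact p.Prime] (σ : 𝓞 k →+* ℤ_[p]),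
      (pol fun j => red σ (d j)).natDegree = m + 2 → Irreducible (pol fun j => red σ (d j)) →
      Irreducible (pol fun j => algebraMap (𝓞 k) k (d j)) ∧
        (pol fun j => algebraMap (𝓞 k) k (d j)).natDegree = m + 2 := by
    intro d p _ σ h1 h2
    refine ⟨irr_of_red σ (by omega) d h1 h2, le_antisymm (pol_degree _) ?_⟩
    have h3 : ((pol fun j => d j).map (red σ)).natDegree = m + 2 := by
      rw [pol_map]; exact h1
    have h4 : ((pol fun j => d j).map (red σ)).natDegree ≤ (pol fun j => d j).natDegree :=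
      natDegree_map_le
    have h5 : (pol fun j => algebraMap (𝓞 k) k (d j)) =
        (pol fun j => d j).map (algebraMap (𝓞 k) k) := by rw [pol_map]
    rw [h5, natDegree_map_eq_of_injective (FaithfulSMul.algebraMap_injective _ _)]
    omega
  obtain ⟨p, hp, σ, hirr⟩ := hall none
  obtain ⟨hD, hDd⟩ := hred (fun j => c (0, j)) p σ hirr.1 hirr.2
  refine ⟨hD, ?_, ?_, ?_⟩
  · intro b hb
    obtain ⟨p, hp, σ, r, g, hg1, hg2, hg3⟩ := hall (some none)
    have h3 : (pol fun j => σ (c (0, j))).map (PadicInt.toZMod (p := p)) = (X - C r) * g := by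
      rw [pol_map]
      exact hg1
    obtain ⟨ρ, G, hG1, hG2, hG3⟩ := fac_padic (f := pol fun j => σ (c (0, j))) (m := m + 1)
      (pol_degree _) r g hg3 hg2 (by omega) h3
    refine const_of_facL hℓ (ext σ) (hζ.map_of_injective (ext σ).injective) hDd (by omega) hG1
      hG2 (ρ := ρ) ?_ hb
    rw [← hG3, pol_map, pol_map]
    congr 1
    funext j
    exact ext_alg σ (c (0, j))
  · intro i j hij
    obtain ⟨p, hp, σ, hq⟩ := hall (some (some (Sum.inl (i, j))))
    obtain ⟨h1, h2⟩ := hq hij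
    have h3 : ∀ t, red σ (c (i.succ, t) - c (j.succ, t)) =
        red σ (c (i.succ, t)) - red σ (c (j.succ, t)) := fun t => map_sub _ _ _
    have h4 := hred (fun t => c (i.succ, t) - c (j.succ, t)) p σ (by
      simp only [h3]; exact h1) (by simp only [h3]; exact h2)
    have h5 : gp (fun q => algebraMap (𝓞 k) k (c q)) i.succ -
        gp (fun q => algebraMap (𝓞 k) k (c q)) j.succ =
        pol fun t => algebraMap (𝓞 k) k (c (i.succ, t) - c (j.succ, t)) := by
      unfold gp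
      rw [pol_sub]
      simp only [map_sub]
    rw [h5]
    exact h4.1
  · intro s h1 h2 h3 a W z ha hW hd
    obtain ⟨p, hp, σ, ho⟩ := hall (some (some (Sum.inr fun q => ⟨s q, h1 q⟩)))
    have ho' := ho ⟨h2, h3⟩
    refine pair_contraL hℓ.ne_zero σ (c := fun j => c (0, j))
      (f := fs s fun i => gp c i.succ) ?_ ha hW (z := z) ?_
    · rw [fs_gp_map]
      exact ho'
    · rw [fs_gp_map]
      exact hd

/-- the translation of the first polynomial -/
def trn {R : Type} [CommRing R] {M N : ℕ} (i : Fin M) (c : Fin (M + 1) × Fin N → R) :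
    Fin (M + 1) × Fin N → R :=
  fun q => if q.1 = 0 then c (0, q.2) - c (i.succ, q.2) else c q

lemma trn_zero {R : Type} [CommRing R] {M N : ℕ} (i : Fin M) (c : Fin (M + 1) × Fin N → R)
    (t : Fin N) : trn i c (0, t) = c (0, t) - c (i.succ, t) := if_pos rfl

lemma trn_succ {R : Type} [CommRing R] {M N : ℕ} (i j : Fin M) (c : Fin (M + 1) × Fin N → R)
    (t : Fin N) : trn i c (j.succ, t) = c (j.succ, t) := if_neg (Fin.succ_ne_zero j)

lemma trn_inj {R : Type} [CommRing R] {M N : ℕ} (i : Fin M) :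
    Function.Injective (trn (R := R) (N := N) i) := by
  intro c d h
  have h1 : ∀ (j : Fin M) t, c (j.succ, t) = d (j.succ, t) := by
    intro j t
    have := congrFun h (j.succ, t)
    rwa [trn_succ, trn_succ] at this
  funext q
  obtain ⟨a, t⟩ := q
  rcases Fin.eq_zero_or_eq_succ a with rfl | ⟨j, rfl⟩
  · have := congrFun h (0, t)
    rw [trn_zero, trn_zero, h1 i t] at this
    exact sub_left_injective this
  · exact h1 j t

lemma card_trn {p : ℕ} [Fact p.Prime] {M N : ℕ} (i : Fin M)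
    (Z : Set (Fin (M + 1) × Fin N → ZMod p)) : {c | trn i c ∈ Z}.ncard = Z.ncard := by
  have hs : Function.Surjective (trn (R := ZMod p) (N := N) i) :=
    Finite.surjective_of_injective (trn_inj i)
  rw [← Set.ncard_image_of_injective _ (trn_inj (R := ZMod p) (N := N) i)]
  congr 1
  ext x
  constructor
  · rintro ⟨c, hc, rfl⟩
    exact hc
  · intro hx
    obtain ⟨c, rfl⟩ := hs x
    exact ⟨c, hx, rfl⟩

lemma trn_map {R S : Type} [CommRing R] [CommRing S] (φ : R →+* S) {M N : ℕ} (i : Fin M)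
    (c : Fin (M + 1) × Fin N → R) : (fun q => φ (trn i c q)) = trn i fun q => φ (c q) := by
  funext q
  unfold trn
  split_ifs
  · rw [map_sub]
  · rfl

lemma gp_trn_zero {R : Type} [CommRing R] {M n : ℕ} (i : Fin M)
    (c : Fin (M + 1) × Fin (n + 1) → R) : gp (trn i c) 0 = gp c 0 - gp c i.succ := by
  unfold gp
  rw [pol_sub]
  congr 1

lemma gp_trn_succ {R : Type} [CommRing R] {M n : ℕ} (i j : Fin M)
    (c : Fin (M + 1) × Fin (n + 1) → R) : gp (trn i c) j.succ = gp c j.succ := by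
  unfold gp
  congr 1

/-- the counting of `CurvL` -/
theorem card_ObsL {k : Type} [Field k] [NumberField k] {ℓ : ℕ} (hℓ : ℓ.Prime) {ζ' : 𝓞 k}
    (hζ' : IsPrimitiveRoot ζ' ℓ) {N m : ℕ} (hm : 2 ≤ m)
    (S : Option (Option ((Fin N × Fin N) ⊕ (Fin N × Fin N → Fin ℓ)))) (p : ℕ) [Fact p.Prime]
    (σ : 𝓞 k →+* ℤ_[p]) (hp : 1600 + (4 * N + 6) + 2 * (N * N) + ℓ + 1 ≤ p) :
    (1 / (2048 * ((m + 2 : ℕ) : ℝ) ^ 2)) * (p : ℝ) ^ Fintype.card (Fin (N + 1) × Fin (m + 3)) ≤
      ((ObsL ℓ N m S p).ncard : ℝ) := by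
  obtain ⟨hδa, hδb, hδ1⟩ := e1 (show 4 ≤ m + 2 by omega) N
  rcases S with _ | _ | q | s
  · exact card_pull N m p hδa (prj0 N m) prj0_surj _ (card_irr p (by omega)) fun x hx => hx
  · refine card_pull N m p hδb (prj0 N m) prj0_surj
      {c | ∃ (r : ZMod p) (g : (ZMod p)[X]), pol c = (X - C r) * g ∧
        g.natDegree = m + 1 ∧ Irreducible g} ?_ fun x hx => hx
    exact card_fac p (m := m + 1) (by omega)
  · by_cases hq : q.1 = q.2
    · have h1 : ObsL ℓ N m (some (some (Sum.inl q))) p = Set.univ := by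
        ext c
        simp [ObsL, hq]
      rw [h1]
      exact card_univ_I N m p hδ1
    · exact card_pull N m p hδa (prjd N m q.1 q.2) (prjd_surj hq) _ (card_irr p (by omega))
        fun x hx _ => hx
  · by_cases hs : (∀ q, ¬ q.1 < q.2 → (s q : ℕ) = 0) ∧ ∃ q, (s q : ℕ) ≠ 0
    · obtain ⟨q0, hq0⟩ := hs.2
      have h1 : ¬ ℓ ∣ (s q0 : ℕ) := Nat.not_dvd_of_pos_of_lt (Nat.pos_of_ne_zero hq0) (s q0).2
      have h2 := card_sObs (p := p) hℓ (np_exists hℓ hζ' σ (by omega)) hs.1 h1 (by omega)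
        (by omega) (by omega) m
      have h3 : ObsL ℓ N m (some (some (Sum.inr s))) p =
          {c | PObs ℓ (fs (fun q => (s q : ℕ)) fun i => gp c i.succ) fun j => c (0, j)} := by
        ext c
        show (_ → _) ↔ _
        exact ⟨fun h => h hs, fun h _ => h⟩
      rw [h3]
      refine le_trans (le_of_eq ?_) h2
      push_cast
      rfl
    · have h1 : ObsL ℓ N m (some (some (Sum.inr s))) p = Set.univ := by
        ext c
        show (_ → _) ↔ _
        exact ⟨fun _ => Set.mem_univ _, fun _ h => absurd h hs⟩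
      rw [h1]
      exact card_univ_I N m p hδ1

/-- **Almost all curves with rational branch points and no twisting factor.** -/
theorem star_main {k : Type} [Field k] [NumberField k] {J : Type} [Fintype J]
    (B : Module.Basis J ℤ (𝓞 k)) {ℓ : ℕ} (hℓ : ℓ.Prime) {ζ : k} (hζ : IsPrimitiveRoot ζ ℓ)
    {M : ℕ} (hM : 2 ≤ M) (hN : ¬ ℓ ∣ M + 1) {n : ℕ} (hn : 4 ≤ n) {η : ℝ} (hη : 0 < η) :
    ∃ H0 : ℕ, ∀ H : ℕ, H0 ≤ H →
      (({c : Fin (M + 1) × Fin (n + 1) → 𝓞 k | (∀ q j, |B.repr (c q) j| ≤ (H : ℤ)) ∧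
        ¬ ∀ δ : k, δ ≠ 0 → Jac.ShaPrimaryTrivial ℓ (C (algebraMap k[X] (RatFunc k) (C δ)) *
          ∏ i : Fin (M + 1), (X - C (algebraMap k[X]
            (RatFunc k) (gp (fun q => algebraMap (𝓞 k) k (c q)) i)))) k[X]}.ncard : ℕ) :
              ℝ) ≤
        η * (2 * H + 1) ^ (((M + 1) * (n + 1)) * Fintype.card J) := by
  obtain ⟨m, rfl⟩ : ∃ m, n = m + 2 := ⟨n - 2, by omega⟩
  obtain ⟨ζ', hζ'⟩ : ∃ ζ' : 𝓞 k, IsPrimitiveRoot ζ' ℓ := by
    have hint : IsIntegral ℤ ζ := hζ.isIntegral hℓ.pos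
    refine ⟨⟨ζ, hint⟩, ?_⟩
    refine IsPrimitiveRoot.of_map_of_injective (f := algebraMap (𝓞 k) k) ?_
      (FaithfulSMul.algebraMap_injective _ _)
    exact hζ
  set δ0 : ℝ := 1 / (2048 * ((m + 2 : ℕ) : ℝ) ^ 2) with hδ
  obtain ⟨-, -, hδ1⟩ := e1 hn M
  rw [← hδ] at hδ1
  have hδ0 : 0 < δ0 := by positivity
  set p0 : ℕ := 1600 + (4 * M + 6) + 2 * (M * M) + ℓ + 1 with hp0
  obtain ⟨H0, hH0⟩ := density B (I := Fin (M + 1) × Fin (m + 3))
    (Finset.univ : Finset (Fin M × Option (Option ((Fin M × Fin M) ⊕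
      (Fin M × Fin M → Fin ℓ))))) hδ0 hδ1 p0
    (fun S p _ _ => {c | trn S.1 c ∈ ObsL ℓ M m S.2 p}) (by
      intro S _ p _ σ hp
      rw [card_trn]
      exact card_ObsL hℓ hζ' (by omega) S.2 p σ hp) hη
  refine ⟨H0, fun H hH => ?_⟩
  have hfin := hH0 H hH {c : Fin (M + 1) × Fin (m + 3) → 𝓞 k |
        (∀ q j, |B.repr (c q) j| ≤ (H : ℤ)) ∧
        ¬ ∀ δ : k, δ ≠ 0 → Jac.ShaPrimaryTrivial ℓ (C (algebraMap k[X] (RatFunc k) (C δ)) *
          ∏ i : Fin (M + 1), (X - C (algebraMap k[X]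
            (RatFunc k) (gp (fun q => algebraMap (𝓞 k) k (c q)) i)))) k[X]} ?_
  · rw [Fintype.card_prod, Fintype.card_fin, Fintype.card_fin] at hfin
    exact hfin
  rintro c ⟨hbox, hnot⟩
  refine ⟨hbox, ?_⟩
  by_contra hall
  push Not at hall
  apply hnot
  have hdata : ∀ i : Fin M, _ := fun i => tuple_data (ζ := ζ) hℓ hζ (N := M) (m := m) (by omega)
    (trn i c) (by
      intro S
      obtain ⟨p, hp, σ, -, ho⟩ := hall (i, S) (Finset.mem_univ _)
      refine ⟨p, hp, σ, ?_⟩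
      rw [trn_map]
      exact ho)
  have i0 : Fin M := ⟨0, by omega⟩
  have hmap : ∀ i : Fin M, (fun q => algebraMap (𝓞 k) k (trn i c q)) =
      trn i fun q => algebraMap (𝓞 k) k (c q) := fun i => trn_map _ i c
  have hg0 : ∀ i : Fin M, gp (fun q => algebraMap (𝓞 k) k (trn i c q)) 0 =
      gp (fun q => algebraMap (𝓞 k) k (c q)) 0 -
        gp (fun q => algebraMap (𝓞 k) k (c q)) i.succ := by
    intro i
    rw [hmap, gp_trn_zero]
  have hgs : ∀ i j : Fin M, gp (fun q => algebraMap (𝓞 k) k (trn i c q)) j.succ =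
      gp (fun q => algebraMap (𝓞 k) k (c q)) j.succ := by
    intro i j
    rw [hmap, gp_trn_succ]
  simp only [hg0, hgs] at hdata
  obtain ⟨T, hT, hbad, hTD⟩ := obs_data hℓ
    (fun i : Fin M => gp (fun q => algebraMap (𝓞 k) k (c q)) i.succ) (hdata i0).2.2.1
  have hall2 := fun i : Fin M => hTD _ (hdata i).1 (hdata i).2.2.2
  intro δ hδne
  have hcons : (fun i => gp (fun q => algebraMap (𝓞 k) k (c q)) i) =
      (Fin.cons (gp (fun q => algebraMap (𝓞 k) k (c q)) 0)
        (fun i : Fin M => gp (fun q => algebraMap (𝓞 k) k (c q)) i.succ) :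
          Fin (M + 1) → k[X]) := by
    funext i
    rcases Fin.eq_zero_or_eq_succ i with rfl | ⟨j, rfl⟩
    · rfl
    · rfl
  have hcons' : ∀ i, gp (fun q => algebraMap (𝓞 k) k (c q)) i =
      (Fin.cons (gp (fun q => algebraMap (𝓞 k) k (c q)) 0)
        (fun i : Fin M => gp (fun q => algebraMap (𝓞 k) k (c q)) i.succ) :
          Fin (M + 1) → k[X]) i := fun i => congrFun hcons i
  have hprod : ∏ i : Fin (M + 1), (X - C (algebraMap k[X] (RatFunc k)
      (gp (fun q => algebraMap (𝓞 k) k (c q)) i))) =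
      ∏ i : Fin (M + 1), (X - C (algebraMap k[X] (RatFunc k)
        ((Fin.cons (gp (fun q => algebraMap (𝓞 k) k (c q)) 0)
        (fun i : Fin M => gp (fun q => algebraMap (𝓞 k) k (c q)) i.succ) :
          Fin (M + 1) → k[X]) i))) :=
    Finset.prod_congr rfl fun i _ => by rw [← hcons' i]
  rw [hprod]
  exact star_crit (RatFunc k) hℓ (by exact_mod_cast hℓ.ne_zero) hζ hM hN T hT hbad
    (fun i => (hdata i).1) (fun i => (hdata i).2.1) (fun i => (hall2 i).1)
    (fun i => (hall2 i).2.1) (fun i => (hall2 i).2.2) hδne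

end Pool.Agent.R431.SG
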