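import Pool.Agent.R431.SG.PairL
import Pool.Agent.H435R3.Weil.CRD

/-!
# The values of a fixed polynomial and powers of a prime exponent
-/

set_option autoImplicit false
set_option linter.all false

open scoped Classical

namespace Pool.Agent.R431.SG

open Polynomial Finset Pool.Agent.H435R3.Weil

lemma rm_comp {F : Type} [Field F] (f : F[X]) (c v : F) :
    rootMultiplicity (v - c) (f.comp (X + C c)) = rootMultiplicity v f := by
  rw [rootMultiplicity_eq_rootMultiplicity, rootMultiplicity_eq_rootMultiplicity (t := v),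
    comp_assoc]
  congr 2
  simp only [add_comp, X_comp, C_comp, C_sub]
  ring

/-- the one sided bound -/
theorem step_bound {ℓ : ℕ} (hℓ : ℓ.Prime) (d : ℕ) : ∃ P0 : ℕ, ∀ (p : ℕ) [Fact p.Prime],
    P0 ≤ p → ℓ ∣ p - 1 → ∀ f : (ZMod p)[X], 1 ≤ f.natDegree → f.natDegree ≤ d → Cop ℓ f →
    ∀ b : ZMod p, b ≠ 0 →
      (p : ℝ) ≤ 4 * ((univ.filter fun x : ZMod p => f.eval x ≠ 0 ∧
        ∀ y, f.eval x ≠ y ^ ℓ * b).card : ℝ) := by
  obtain ⟨K, hK, hcrd⟩ := crd ℓ d hℓ.two_le
  obtain ⟨P1, hP1⟩ := exists_nat_gt ((4 * K) ^ 2)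
  refine ⟨P1 + d + 2, ?_⟩
  intro p _ hp hdvd f hf1 hfd hcop b hb
  have hf0 : f ≠ 0 := by
    rintro rfl
    simp at hf1
  -- a point where `f` does not vanish
  obtain ⟨c, hc⟩ : ∃ c : ZMod p, f.eval c ≠ 0 := by
    by_contra hcon
    push Not at hcon
    have h1 : (univ : Finset (ZMod p)) ⊆ f.roots.toFinset := by
      intro x _
      rw [Multiset.mem_toFinset, mem_roots hf0]
      exact hcon x
    have h2 := Finset.card_le_card h1
    rw [card_univ, ZMod.card] at h2
    have h3 := Multiset.toFinset_card_le f.roots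
    have h4 := card_roots' f
    omega
  set g := f.comp (X + C c) with hg
  have hgd : g.natDegree = f.natDegree := by
    rw [hg, natDegree_comp, natDegree_X_add_C, mul_one]
  have hge : ∀ x, g.eval x = f.eval (x + c) := by
    intro x
    rw [hg, eval_comp]
    simp
  have hgcop : Cop ℓ g := by
    obtain ⟨v, hv⟩ := hcop
    refine ⟨v - c, ?_⟩
    rw [hg, rm_comp]
    exact hv
  obtain ⟨Q, hQ⟩ := hdvd
  have hpp : p.Prime := Fact.out
  have hp1 := hpp.one_lt
  have hQ' : ℓ * Q + 1 = Fintype.card (ZMod p) := by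
    rw [ZMod.card]
    omega
  have h1 := hcrd (ZMod p) g (by rw [hgd]; exact hf1) (by rw [hgd]; exact hfd)
    (by rw [hge, zero_add]; exact hc) hgcop (b ^ Q) Q hQ'
  rw [ZMod.card] at h1
  set A := univ.filter fun x : ZMod p => g.eval x = 0 ∨ g.eval x ^ Q = b ^ Q with hA
  set Z := univ.filter fun x : ZMod p => f.eval x ≠ 0 ∧ ∀ y, f.eval x ≠ y ^ ℓ * b with hZ
  have h2 : p ≤ A.card + Z.card := by
    have h3 : (univ : Finset (ZMod p)) ⊆ (A.image fun x => x + c) ∪ Z := by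
      intro x _
      rw [mem_union]
      by_cases hx : x ∈ Z
      · exact Or.inr hx
      · left
        rw [mem_image]
        refine ⟨x - c, ?_, by ring⟩
        rw [hA, mem_filter]
        refine ⟨mem_univ _, ?_⟩
        rw [hge, sub_add_cancel]
        rw [hZ, mem_filter] at hx
        by_cases h0 : f.eval x = 0
        · exact Or.inl h0
        · right
          have h4 : ∃ y, f.eval x = y ^ ℓ * b := by
            by_contra hcon
            push Not at hcon
            exact hx ⟨mem_univ _, h0, hcon⟩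
          obtain ⟨y, hy⟩ := h4
          have hy0 : y ≠ 0 := by
            rintro rfl
            rw [zero_pow hℓ.ne_zero, zero_mul] at hy
            exact h0 hy
          rw [hy, mul_pow, ← pow_mul, ← hQ, ZMod.pow_card_sub_one_eq_one hy0, one_mul]
    have h4 := Finset.card_le_card h3
    rw [card_univ, ZMod.card] at h4
    have h5 := Finset.card_union_le (A.image fun x => x + c) Z
    have h6 := Finset.card_image_le (s := A) (f := fun x => x + c)
    omega
  have h1' : ((A.card : ℕ) : ℝ) ≤ (p : ℝ) / ℓ + K * Real.sqrt p := by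
    rw [hA]
    convert h1
  have h3 : (p : ℝ) ≤ A.card + Z.card := by exact_mod_cast h2
  have h4 : (p : ℝ) / ℓ ≤ p / 2 := by
    have h5 : (2 : ℝ) ≤ ℓ := by exact_mod_cast hℓ.two_le
    exact div_le_div_of_nonneg_left (Nat.cast_nonneg _) (by norm_num) h5
  have h5 : K * Real.sqrt p ≤ p / 4 := by
    have h6 : (4 * K) ^ 2 ≤ (p : ℝ) := by
      have h7 : (P1 : ℝ) ≤ p := by
        have : P1 ≤ p := by omega
        exact_mod_cast this
      linarith
    have h7 : 4 * K ≤ Real.sqrt p := Real.le_sqrt_of_sq_le h6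
    have h8 : Real.sqrt p * Real.sqrt p = p := Real.mul_self_sqrt (Nat.cast_nonneg _)
    have h9 := mul_le_mul_of_nonneg_right h7 (Real.sqrt_nonneg (p : ℝ))
    rw [h8] at h9
    linarith
  linarith

/-- many pairs -/
theorem card_prs {ℓ : ℕ} (hℓ : ℓ.Prime) (d : ℕ) : ∃ P0 : ℕ, ∀ (p : ℕ) [Fact p.Prime],
    P0 ≤ p → ℓ ∣ p - 1 → ∀ f : (ZMod p)[X], 1 ≤ f.natDegree → f.natDegree ≤ d → Cop ℓ f →
      (p : ℝ) * p ≤ 8 * ((univ.filter fun x : ZMod p × ZMod p => f.eval x.1 ≠ 0 ∧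
        f.eval x.2 ≠ 0 ∧ ∀ y, f.eval x.1 ≠ y ^ ℓ * f.eval x.2).card : ℝ) := by
  obtain ⟨P0, hP0⟩ := step_bound hℓ d
  refine ⟨P0 + 2 * d, ?_⟩
  intro p _ hp hdvd f hf1 hfd hcop
  have hf0 : f ≠ 0 := by
    rintro rfl
    simp at hf1
  have hs := hP0 p (by omega) hdvd f hf1 hfd hcop
  set G := univ.filter fun x : ZMod p => f.eval x ≠ 0 with hG
  have h1 : p ≤ G.card + d := by
    have h2 : (univ : Finset (ZMod p)) ⊆ G ∪ f.roots.toFinset := by
      intro x _
      rw [mem_union, hG, mem_filter, Multiset.mem_toFinset, mem_roots hf0]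
      by_cases h : f.eval x = 0
      · exact Or.inr h
      · exact Or.inl ⟨mem_univ _, h⟩
    have h3 := Finset.card_le_card h2
    rw [card_univ, ZMod.card] at h3
    have h4 := Finset.card_union_le G f.roots.toFinset
    have h5 := Multiset.toFinset_card_le f.roots
    have h6 := card_roots' f
    omega
  have h2 : (p : ℝ) ≤ 2 * G.card := by
    have : p ≤ 2 * G.card := by omega
    exact_mod_cast this
  set N : ZMod p → ℕ := fun b => (univ.filter fun x : ZMod p => f.eval x ≠ 0 ∧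
    ∀ y, f.eval x ≠ y ^ ℓ * f.eval b).card with hN
  have h3 : ∑ b ∈ G, N b ≤ (univ.filter fun x : ZMod p × ZMod p => f.eval x.1 ≠ 0 ∧
        f.eval x.2 ≠ 0 ∧ ∀ y, f.eval x.1 ≠ y ^ ℓ * f.eval x.2).card := by
    rw [← Finset.card_sigma]
    refine Finset.card_le_card_of_injOn (fun z => (z.2, z.1)) ?_ ?_
    · rintro ⟨b, x⟩ hz
      rw [Finset.mem_coe, Finset.mem_sigma, hG, mem_filter, mem_filter] at hz
      rw [Finset.mem_coe, mem_filter]
      exact ⟨mem_univ _, hz.2.2.1, hz.1.2, hz.2.2.2⟩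
    · rintro ⟨b, x⟩ _ ⟨b', x'⟩ _ h
      have e1 : x = x' := congrArg Prod.fst h
      have e2 : b = b' := congrArg Prod.snd h
      rw [e1, e2]
  have h4 : ∀ b ∈ G, (p : ℝ) / 4 ≤ N b := by
    intro b hb
    rw [hG, mem_filter] at hb
    have := hs (f.eval b) hb.2
    linarith
  have h5 : (G.card : ℝ) * (p / 4) ≤ ∑ b ∈ G, (N b : ℝ) := by
    rw [← nsmul_eq_mul, ← Finset.sum_const]
    exact Finset.sum_le_sum h4
  have h6 : ((∑ b ∈ G, N b : ℕ) : ℝ) ≤ ((univ.filter fun x : ZMod p × ZMod p =>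
      f.eval x.1 ≠ 0 ∧ f.eval x.2 ≠ 0 ∧ ∀ y, f.eval x.1 ≠ y ^ ℓ * f.eval x.2).card : ℝ) := by
    exact_mod_cast h3
  rw [Nat.cast_sum] at h6
  have h7 : (0 : ℝ) ≤ p := Nat.cast_nonneg _
  nlinarith

/-- **The count.** -/
theorem card_PObs {ℓ : ℕ} (hℓ : ℓ.Prime) (d : ℕ) : ∃ P0 : ℕ, ∀ (p : ℕ) [Fact p.Prime],
    P0 ≤ p → ℓ ∣ p - 1 → ∀ f : (ZMod p)[X], 1 ≤ f.natDegree → f.natDegree ≤ d → Cop ℓ f →
    ∀ m : ℕ, (1 / (32 * (m + 2) ^ 2 : ℝ)) * (p : ℝ) ^ (m + 3) ≤
      (({c : Fin (m + 3) → ZMod p | PObs ℓ f c}.ncard : ℕ) : ℝ) := by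
  obtain ⟨P0, hP0⟩ := card_prs hℓ d
  refine ⟨P0 + 4, ?_⟩
  intro p _ hp hdvd f hf1 hfd hcop m
  have hpr := hP0 p (by omega) hdvd f hf1 hfd hcop
  set A := univ.filter fun x : ZMod p × ZMod p => f.eval x.1 ≠ 0 ∧
        f.eval x.2 ≠ 0 ∧ ∀ y, f.eval x.1 ≠ y ^ ℓ * f.eval x.2 with hAd
  have hp4 : 4 ≤ p := by omega
  let R : (ZMod p × ZMod p) → (Fin (m + 1) → ZMod p) → Prop := fun x q =>
    (pol q).eval x.1 ≠ 0 ∧ (pol q).eval x.2 ≠ 0
  have hR : ∀ x ∈ A, p ^ (m + 1) - 2 * p ^ m ≤ (univ.filter (R x)).card := by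
    intro x _
    have h1 := card_zero_at m x.1
    have h2 := card_zero_at m x.2
    have h3 : (univ : Finset (Fin (m + 1) → ZMod p)) ⊆ (univ.filter (R x)) ∪
        ((univ.filter fun q : Fin (m + 1) → ZMod p => (pol q).eval x.1 = 0) ∪
          (univ.filter fun q : Fin (m + 1) → ZMod p => (pol q).eval x.2 = 0)) := by
      intro q _
      rw [mem_union, mem_union, mem_filter, mem_filter, mem_filter]
      by_cases h4 : (pol q).eval x.1 = 0
      · exact Or.inr (Or.inl ⟨mem_univ _, h4⟩)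
      · by_cases h5 : (pol q).eval x.2 = 0
        · exact Or.inr (Or.inr ⟨mem_univ _, h5⟩)
        · exact Or.inl ⟨mem_univ _, h4, h5⟩
    have h6 := Finset.card_le_card h3
    have h7 := h6.trans (Finset.card_union_le _ _)
    have h8 := Finset.card_union_le
      (univ.filter fun q : Fin (m + 1) → ZMod p => (pol q).eval x.1 = 0)
      (univ.filter fun q : Fin (m + 1) → ZMod p => (pol q).eval x.2 = 0)
    rw [card_univ, Fintype.card_fun, ZMod.card, Fintype.card_fin] at h7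
    omega
  set T := (A ×ˢ (univ : Finset (Fin (m + 1) → ZMod p))).filter
    (fun z : (ZMod p × ZMod p) × (Fin (m + 1) → ZMod p) => R z.1 z.2) with hT
  have hTc : A.card * (p ^ (m + 1) - 2 * p ^ m) ≤ T.card := by
    have := card_pair0 A R (p ^ (m + 1) - 2 * p ^ m) (fun x hx => by
      convert hR x hx)
    convert this
  let P : (ZMod p × ZMod p) × (Fin (m + 1) → ZMod p) → (ZMod p)[X] := fun z =>
    (X - C z.1.1) * ((X - C z.1.2) * pol z.2)
  have hPd : ∀ z, (P z).natDegree ≤ m + 2 := by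
    intro z
    refine natDegree_mul_le.trans ?_
    have h1 : ((X - C z.1.2) * pol z.2).natDegree ≤ 1 + m := by
      refine natDegree_mul_le.trans ?_
      exact Nat.add_le_add (natDegree_X_sub_C_le _) (pol_degree _)
    have h2 : (X - C z.1.1 : (ZMod p)[X]).natDegree ≤ 1 := natDegree_X_sub_C_le _
    omega
  let φ : (ZMod p × ZMod p) × (Fin (m + 1) → ZMod p) → (Fin (m + 3) → ZMod p) := fun z j =>
    (P z).coeff j
  have hφ : ∀ z, pol (φ z) = P z := fun z => pol_of (hPd z)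
  have hT' : ∀ z ∈ T, (f.eval z.1.1 ≠ 0 ∧
        f.eval z.1.2 ≠ 0 ∧ ∀ y, f.eval z.1.1 ≠ y ^ ℓ * f.eval z.1.2) ∧
      (pol z.2).eval z.1.1 ≠ 0 ∧ (pol z.2).eval z.1.2 ≠ 0 ∧ z.1.1 ≠ z.1.2 := by
    intro z hz
    rw [hT, mem_filter, mem_product, hAd, mem_filter] at hz
    refine ⟨hz.1.1.2, hz.2.1, hz.2.2, ?_⟩
    intro h
    apply hz.1.1.2.2.2 1
    rw [h, one_pow, one_mul]
  have hP0 : ∀ z ∈ T, P z ≠ 0 := by
    intro z hz h0
    obtain ⟨-, h1, -, -⟩ := hT' z hz
    have h2 : pol z.2 = 0 := by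
      rcases mul_eq_zero.1 h0 with h | h
      · exact absurd h (X_sub_C_ne_zero _)
      · rcases mul_eq_zero.1 h with h | h
        · exact absurd h (X_sub_C_ne_zero _)
        · exact h
    rw [h2, eval_zero] at h1
    exact h1 rfl
  have hfib : ∀ b ∈ T.image φ, (T.filter fun z => φ z = b).card ≤ (m + 2) ^ 2 := by
    intro b hb
    obtain ⟨z0, hz0, rfl⟩ := mem_image.1 hb
    set Q := P z0 with hQ
    have hQ0 : Q ≠ 0 := hP0 z0 hz0
    have h1 : (T.filter fun z => φ z = φ z0).card ≤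
        (Q.roots.toFinset ×ˢ Q.roots.toFinset).card := by
      refine Finset.card_le_card_of_injOn (fun z => z.1) ?_ ?_
      · intro z hz
        rw [Finset.mem_coe, mem_filter] at hz
        have h5 : P z = Q := by rw [← hφ, hz.2, hφ]
        rw [Finset.mem_coe, mem_product, Multiset.mem_toFinset, Multiset.mem_toFinset,
          mem_roots hQ0, mem_roots hQ0, ← h5]
        constructor
        · show (P z).eval z.1.1 = 0
          simp [P]
        · show (P z).eval z.1.2 = 0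
          simp [P]
      · intro z hz z' hz' hzz
        rw [Finset.mem_coe, mem_filter] at hz hz'
        have h5 : P z = P z' := by rw [← hφ, hz.2, ← hz'.2, hφ]
        have h6 : z.1 = z'.1 := hzz
        have h7 : pol z.2 = pol z'.2 := by
          have h8 : (X - C z.1.1) * ((X - C z.1.2) * pol z.2) =
              (X - C z.1.1) * ((X - C z.1.2) * pol z'.2) := by
            have h9 : P z' = (X - C z.1.1) * ((X - C z.1.2) * pol z'.2) := by
              simp only [P, h6]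
            rw [← h9]
            exact h5
          exact mul_left_cancel₀ (X_sub_C_ne_zero _) (mul_left_cancel₀ (X_sub_C_ne_zero _) h8)
        exact Prod.ext h6 (pol_injective h7)
    refine h1.trans ?_
    rw [card_product, sq]
    have h2 : Q.roots.toFinset.card ≤ m + 2 :=
      (Multiset.toFinset_card_le _).trans ((card_roots' _).trans (hPd z0))
    exact Nat.mul_le_mul h2 h2
  have h7 := Finset.card_le_mul_card_image T _ hfib
  have h8 : (T.image φ).card ≤ {c : Fin (m + 3) → ZMod p | PObs ℓ f c}.ncard := by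
    rw [← Set.ncard_coe_finset]
    refine Set.ncard_le_ncard ?_ (Set.toFinite _)
    intro c hc
    rw [Finset.mem_coe, mem_image] at hc
    obtain ⟨z, hz, rfl⟩ := hc
    obtain ⟨⟨h1, h2, h2'⟩, h3, h4, h5⟩ := hT' z hz
    refine ⟨z.1.1, z.1.2, ?_, ?_, ?_, ?_, h1, h2, h2'⟩
    · rw [hφ]; simp [P]
    · rw [hφ]; simp [P]
    · rw [hφ]
      simp only [P, derivative_mul, derivative_sub, derivative_X, derivative_C, sub_zero, one_mul,
        eval_add, eval_mul, eval_sub, eval_X, eval_C, sub_self, zero_mul, add_zero]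
      exact mul_ne_zero (sub_ne_zero.2 h5) h3
    · rw [hφ]
      simp only [P, derivative_mul, derivative_sub, derivative_X, derivative_C, sub_zero, one_mul,
        eval_add, eval_mul, eval_sub, eval_X, eval_C, sub_self, zero_mul, add_zero, zero_add]
      exact mul_ne_zero (sub_ne_zero.2 (Ne.symm h5)) h4
  -- the arithmetic
  have h9 : (A.card : ℝ) * ((p : ℝ) ^ (m + 1) / 2) ≤ T.card := by
    have h10 : (p : ℝ) ^ (m + 1) / 2 ≤ ((p ^ (m + 1) - 2 * p ^ m : ℕ) : ℝ) := by
      have h11 : 2 * p ^ m ≤ p ^ (m + 1) := by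
        rw [pow_succ, Nat.mul_comm]
        exact Nat.mul_le_mul_left _ (by omega)
      rw [Nat.cast_sub h11]
      push_cast
      have h12 : (4 : ℝ) ≤ p := by exact_mod_cast hp4
      have h13 : (0 : ℝ) ≤ (p : ℝ) ^ m := by positivity
      rw [pow_succ]
      nlinarith
    calc (A.card : ℝ) * ((p : ℝ) ^ (m + 1) / 2)
        ≤ (A.card : ℝ) * ((p ^ (m + 1) - 2 * p ^ m : ℕ) : ℝ) :=
          mul_le_mul_of_nonneg_left h10 (by positivity)
      _ ≤ T.card := by exact_mod_cast hTc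
  have h10 : (T.card : ℝ) ≤ (m + 2) ^ 2 *
      (({c : Fin (m + 3) → ZMod p | PObs ℓ f c}.ncard : ℕ) : ℝ) := by
    have h11 : T.card ≤ (m + 2) ^ 2 * {c : Fin (m + 3) → ZMod p | PObs ℓ f c}.ncard :=
      h7.trans (Nat.mul_le_mul_left _ h8)
    exact_mod_cast h11
  rw [div_mul_eq_mul_div, one_mul, div_le_iff₀ (by positivity)]
  have h12 : (0 : ℝ) ≤ (p : ℝ) ^ (m + 1) := by positivity
  have h13 : (0 : ℝ) ≤ (m + 2 : ℝ) ^ 2 *
      (({c : Fin (m + 3) → ZMod p | PObs ℓ f c}.ncard : ℕ) : ℝ) := by positivity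
  calc (p : ℝ) ^ (m + 3) = ((p : ℝ) * p) * (p : ℝ) ^ (m + 1) := by ring
    _ ≤ (8 * (A.card : ℝ)) * (p : ℝ) ^ (m + 1) :=
        mul_le_mul_of_nonneg_right hpr h12
    _ = 16 * ((A.card : ℝ) * ((p : ℝ) ^ (m + 1) / 2)) := by ring
    _ ≤ 32 * ((m + 2) ^ 2 * (({c : Fin (m + 3) → ZMod p | PObs ℓ f c}.ncard : ℕ) : ℝ)) := by
        linarith
    _ = _ := by ring

end Pool.Agent.R431.SG
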