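import Pool.Agent.R431.SG.DensG
import Pool.Agent.R431.SG.Main
import Pool.Agent.R431.SG.StepL

/-!
# Integral models with a rational root of multiplicity prime to the exponent
-/

set_option autoImplicit false
set_option linter.all false

open scoped Classical

namespace Pool.Agent.R431.SG

open Polynomial NumberField Pool.Agent.H435R3.Weil

lemma rm_pow {F : Type} [Field F] (g : F[X]) (v : F) (s : ℕ) :
    rootMultiplicity v (g ^ s) = s * rootMultiplicity v g := by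
  rw [← count_roots, ← count_roots, roots_pow, Multiset.count_nsmul]

lemma rm_pow_prod {F : Type} [Field F] {Λ : Type} (T : Finset Λ) (G : Λ → F[X]) (s : Λ → ℕ)
    (hsep : (∏ i ∈ T, G i).Separable) {i0 : Λ} (hi0 : i0 ∈ T) {v : F}
    (hv : (G i0).eval v = 0) :
    (∏ i ∈ T, G i ^ s i) ≠ 0 ∧ rootMultiplicity v (∏ i ∈ T, G i ^ s i) = s i0 := by
  have hne : ∀ i ∈ T, G i ≠ 0 := fun i hi => (Finset.prod_ne_zero_iff.1 hsep.ne_zero) i hi
  have h0 : (∏ i ∈ T, G i ^ s i) ≠ 0 :=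
    Finset.prod_ne_zero_iff.2 fun i hi => pow_ne_zero _ (hne i hi)
  refine ⟨h0, ?_⟩
  have h1 := rootMultiplicity_le_one_of_separable hsep v
  have h2 : G i0 * ∏ i ∈ T.erase i0, G i = ∏ i ∈ T, G i := Finset.mul_prod_erase _ _ hi0
  have h3 : G i0 ^ s i0 * ∏ i ∈ T.erase i0, G i ^ s i = ∏ i ∈ T, G i ^ s i :=
    Finset.mul_prod_erase _ (fun i => G i ^ s i) hi0
  have h4 : G i0 * ∏ i ∈ T.erase i0, G i ≠ 0 := by rw [h2]; exact hsep.ne_zero
  rw [← h2, rootMultiplicity_mul h4] at h1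
  have h5 : 0 < rootMultiplicity v (G i0) := (rootMultiplicity_pos (hne i0 hi0)).2 hv
  have h6 : rootMultiplicity v (∏ i ∈ T.erase i0, G i) = 0 := by omega
  have h7 : (∏ i ∈ T.erase i0, G i).eval v ≠ 0 := by
    intro h
    have := (rootMultiplicity_pos (right_ne_zero_of_mul h4)).2 h
    omega
  have h8 : (∏ i ∈ T.erase i0, G i ^ s i).eval v ≠ 0 := by
    rw [eval_prod] at h7 ⊢
    refine Finset.prod_ne_zero_iff.2 fun i hi => ?_
    rw [eval_pow]
    exact pow_ne_zero _ (Finset.prod_ne_zero_iff.1 h7 i hi)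
  have h9 : rootMultiplicity v (∏ i ∈ T.erase i0, G i ^ s i) = 0 := rootMultiplicity_eq_zero h8
  rw [← h3, rootMultiplicity_mul (by rw [h3]; exact h0), h9, add_zero, rm_pow]
  have h10 : rootMultiplicity v (G i0) = 1 := by omega
  rw [h10, mul_one]

section
variable {k : Type} [Field k] [NumberField k]

/-- a separable integral polynomial stays separable -/
theorem sep_red {P : (𝓞 k)[X]} (hP : (P.map (algebraMap (𝓞 k) k)).Separable) :
    ∃ p0 : ℕ, ∀ (p : ℕ) [Fact p.Prime] (σ : 𝓞 k →+* ℤ_[p]), p0 ≤ p →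
      (P.map (red σ)).Separable := by
  have hinj : Function.Injective (algebraMap (𝓞 k) k) := FaithfulSMul.algebraMap_injective _ _
  obtain ⟨u, v, huv⟩ := hP
  obtain ⟨U, s, hs, hU⟩ := clear u
  obtain ⟨V, t, ht, hV⟩ := clear v
  have key : C t * U * P + C s * V * derivative P = C (s * t) := by
    apply Polynomial.map_injective _ hinj
    rw [Polynomial.map_add, Polynomial.map_mul, Polynomial.map_mul, Polynomial.map_mul,
      Polynomial.map_mul, map_C, map_C, map_C, hU, hV, map_mul, C_mul, ← derivative_map]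
    linear_combination (C (algebraMap (𝓞 k) k s) * C (algebraMap (𝓞 k) k t)) * huv
  obtain ⟨m1, hm1, h1⟩ := exists_dvd_int (mul_ne_zero hs ht)
  refine ⟨m1.natAbs + 1, fun p _ σ hp => ?_⟩
  have r1 := red_ne_zero hm1 h1 (by omega) σ
  have k1 := congrArg (Polynomial.map (red σ)) key
  rw [Polynomial.map_add, Polynomial.map_mul, Polynomial.map_mul, Polynomial.map_mul,
    Polynomial.map_mul, map_C, map_C, map_C, ← derivative_map] at k1
  have h2 : C (red σ (s * t))⁻¹ * C (red σ (s * t)) = 1 := by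
    rw [← C_mul, inv_mul_cancel₀ r1, C_1]
  refine ⟨C (red σ (s * t))⁻¹ * (C (red σ t) * U.map (red σ)),
    C (red σ (s * t))⁻¹ * (C (red σ s) * V.map (red σ)), ?_⟩
  linear_combination C (red σ (s * t))⁻¹ * k1 + h2

/-- a root of the reduction from a root over an extension -/
theorem root_red {k' : Type} [Field k'] [NumberField k'] (φ : k →+* k') (ι : 𝓞 k →+* 𝓞 k')
    (hι : ∀ x : 𝓞 k, algebraMap (𝓞 k') k' (ι x) = φ (algebraMap (𝓞 k) k x))
    {g : (𝓞 k)[X]} {β : k'} (hβ : ((g.map (algebraMap (𝓞 k) k)).map φ).eval β = 0) :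
    ∃ p0 : ℕ, ∀ (p : ℕ) [Fact p.Prime] (σ : 𝓞 k' →+* ℤ_[p]), p0 ≤ p →
      ∃ v : ZMod p, (g.map (red (σ.comp ι))).eval v = 0 := by
  obtain ⟨α, b, hb, hβ'⟩ := IsFractionRing.div_surjective (A := 𝓞 k') β
  have hb0 : b ≠ 0 := nonZeroDivisors.ne_zero hb
  obtain ⟨m, hm, h1⟩ := exists_dvd_int hb0
  refine ⟨m.natAbs + 1, fun p _ σ hp => ?_⟩
  have r1 := red_ne_zero hm h1 (by omega) σ
  have hun : IsUnit (σ b) := by
    by_contra hcon
    have h8 : σ b ∈ IsLocalRing.maximalIdeal ℤ_[p] := hcon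
    rw [← PadicInt.ker_toZMod, RingHom.mem_ker] at h8
    exact r1 h8
  obtain ⟨U, hU⟩ := hun
  obtain ⟨ρ, hρ⟩ : ∃ ρ : ℤ_[p], ρ * σ b = σ α := by
    refine ⟨σ α * ((U⁻¹ : ℤ_[p]ˣ) : ℤ_[p]), ?_⟩
    rw [← hU, mul_assoc, Units.inv_mul, mul_one]
  have hbb : algebraMap ℤ_[p] ℚ_[p] (σ b) ≠ 0 := by
    rw [Ne, map_eq_zero_iff _ (IsFractionRing.injective ℤ_[p] ℚ_[p]), ← hU]
    exact U.ne_zero
  have hρβ : algebraMap ℤ_[p] ℚ_[p] ρ = ext σ β := by
    rw [← hβ', map_div₀, ext_alg, ext_alg, eq_div_iff hbb, ← map_mul, hρ]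
  have hev : (g.map (σ.comp ι)).eval ρ = 0 := by
    apply IsFractionRing.injective ℤ_[p] ℚ_[p]
    have e2 : algebraMap ℤ_[p] ℚ_[p] ((g.map (σ.comp ι)).eval ρ) =
        ((g.map (σ.comp ι)).map (algebraMap ℤ_[p] ℚ_[p])).eval (algebraMap ℤ_[p] ℚ_[p] ρ) := by
      conv_rhs => rw [eval_map, eval₂_hom]
    have e1 : (g.map (σ.comp ι)).map (algebraMap ℤ_[p] ℚ_[p]) =
        ((g.map (algebraMap (𝓞 k) k)).map φ).map (ext σ) := by
      rw [Polynomial.map_map, Polynomial.map_map, Polynomial.map_map]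
      congr 1
      ext x
      simp only [RingHom.comp_apply]
      rw [← hι, ext_alg]
    rw [map_zero, e2, e1, hρβ]
    have e3 : (((g.map (algebraMap (𝓞 k) k)).map φ).map (ext σ)).eval (ext σ β) =
        ext σ (((g.map (algebraMap (𝓞 k) k)).map φ).eval β) := by
      conv_lhs => rw [eval_map, eval₂_hom]
    rw [e3, hβ, map_zero]
  refine ⟨PadicInt.toZMod ρ, ?_⟩
  have e4 : g.map (red (σ.comp ι)) = (g.map (σ.comp ι)).map (PadicInt.toZMod (p := p)) := by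
    rw [Polynomial.map_map]; rfl
  conv_lhs => rw [e4, eval_map, eval₂_hom]
  rw [hev, map_zero]

/-- the integral models -/
theorem model {T : Finset k[X]} (hT : ∀ π ∈ T, Irreducible π ∧ π.Monic) {ℓ : ℕ}
    (hℓ : ℓ.Prime) (s : k[X] → ℕ) {π0 : k[X]} (hπ0 : π0 ∈ T) (hs : Nat.Coprime (s π0) ℓ) :
    ∃ (f : (𝓞 k)[X]) (e : k), e ≠ 0 ∧
      f.map (algebraMap (𝓞 k) k) = C e * ∏ π ∈ T, π ^ s π ∧
      ∃ (k' : Type) (_ : Field k') (_ : NumberField k') (ι : 𝓞 k →+* 𝓞 k') (p0 : ℕ),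
        ∀ (p : ℕ) [Fact p.Prime] (σ : 𝓞 k' →+* ℤ_[p]), p0 ≤ p →
          1 ≤ (f.map (red (σ.comp ι))).natDegree ∧ Cop ℓ (f.map (red (σ.comp ι))) := by
  choose g d hd hg using fun π : k[X] => clear π
  have hinj : Function.Injective (algebraMap (𝓞 k) k) := FaithfulSMul.algebraMap_injective _ _
  have hd' : ∀ π, algebraMap (𝓞 k) k (d π) ≠ 0 := fun π => by
    rw [Ne, map_eq_zero_iff _ hinj]
    exact hd π
  refine ⟨∏ π ∈ T, g π ^ s π, ∏ π ∈ T, (algebraMap (𝓞 k) k (d π)) ^ s π,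
    Finset.prod_ne_zero_iff.2 fun π _ => pow_ne_zero _ (hd' π), ?_, ?_⟩
  · rw [Polynomial.map_prod, map_prod, ← Finset.prod_mul_distrib]
    refine Finset.prod_congr rfl fun π _ => ?_
    rw [Polynomial.map_pow, hg, mul_pow, C_pow]
  have hPsep : ((∏ π ∈ T, g π).map (algebraMap (𝓞 k) k)).Separable := by
    have h1 : (∏ π ∈ T, g π).map (algebraMap (𝓞 k) k) =
        C (∏ π ∈ T, algebraMap (𝓞 k) k (d π)) * ∏ π ∈ T, π := by
      rw [Polynomial.map_prod, map_prod, ← Finset.prod_mul_distrib]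
      exact Finset.prod_congr rfl fun π _ => hg π
    rw [h1]
    exact (sep_prod hT).unit_mul (isUnit_C.2 (isUnit_iff_ne_zero.2
      (Finset.prod_ne_zero_iff.2 fun π _ => hd' π)))
  haveI : Fact (Irreducible π0) := ⟨(hT π0 hπ0).1⟩
  haveI : Module.Finite k (AdjoinRoot π0) := (hT π0 hπ0).2.finite_adjoinRoot
  haveI hnf : NumberField (AdjoinRoot π0) := NumberField.of_module_finite k (AdjoinRoot π0)
  obtain ⟨p1, hp1⟩ := sep_red hPsep
  obtain ⟨p2, hp2⟩ := root_red (algebraMap k (AdjoinRoot π0))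
    (RingOfIntegers.mapRingHom (algebraMap k (AdjoinRoot π0))) (fun x => rfl)
    (g := g π0) (β := AdjoinRoot.root π0) (by
      rw [hg, Polynomial.map_mul, eval_mul]
      have h1 : (π0.map (algebraMap k (AdjoinRoot π0))).eval (AdjoinRoot.root π0) = 0 :=
        AdjoinRoot.isRoot_root π0
      rw [h1, mul_zero])
  refine ⟨AdjoinRoot π0, inferInstance, hnf,
    RingOfIntegers.mapRingHom (algebraMap k (AdjoinRoot π0)), p1 + p2, ?_⟩
  intro p _ σ hp
  have hsep := hp1 p (σ.comp (RingOfIntegers.mapRingHom (algebraMap k (AdjoinRoot π0))))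
    (by omega)
  obtain ⟨v, hv⟩ := hp2 p σ (by omega)
  rw [Polynomial.map_prod] at hsep ⊢
  obtain ⟨h1, h2⟩ := rm_pow_prod T _ s hsep hπ0 hv
  have e1 : ∏ π ∈ T, (g π ^ s π).map
      (red (σ.comp (RingOfIntegers.mapRingHom (algebraMap k (AdjoinRoot π0))))) =
      ∏ π ∈ T, (g π).map
      (red (σ.comp (RingOfIntegers.mapRingHom (algebraMap k (AdjoinRoot π0))))) ^ s π :=
    Finset.prod_congr rfl fun π _ => Polynomial.map_pow _ _
  rw [e1]
  refine ⟨?_, v, by rw [h2]; exact hs⟩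
  have h3 : s π0 ≠ 0 := by
    intro h
    rw [h, Nat.coprime_zero_left] at hs
    exact hℓ.ne_one hs
  have h4 := Multiset.count_le_card v (∏ π ∈ T, (g π).map
      (red (σ.comp (RingOfIntegers.mapRingHom (algebraMap k (AdjoinRoot π0))))) ^ s π).roots
  rw [count_roots, h2] at h4
  have h5 := card_roots' (∏ π ∈ T, (g π).map
      (red (σ.comp (RingOfIntegers.mapRingHom (algebraMap k (AdjoinRoot π0))))) ^ s π)
  omega

lemma ell_dvd {ℓ : ℕ} (hℓ : ℓ.Prime) {ζ : 𝓞 k} (hζ : IsPrimitiveRoot ζ ℓ) {p : ℕ}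
    [Fact p.Prime] (σ : 𝓞 k →+* ℤ_[p]) (hp : ℓ < p) : ℓ ∣ p - 1 := by
  have h0 : red σ ζ ^ ℓ = 1 := by rw [← map_pow, hζ.pow_eq_one, map_one]
  have h1 : red σ ζ ≠ 1 := by
    intro h1
    have h2 := congrArg (red σ) (hζ.geom_sum_eq_zero hℓ.one_lt)
    rw [map_sum, map_zero] at h2
    simp only [map_pow, h1, one_pow, Finset.sum_const, Finset.card_range, nsmul_eq_mul,
      mul_one] at h2
    rw [ZMod.natCast_eq_zero_iff] at h2
    exact absurd (Nat.le_of_dvd hℓ.pos h2) (not_le.2 hp)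
  haveI : Fact ℓ.Prime := ⟨hℓ⟩
  have h2 := orderOf_eq_prime h0 h1
  have h3 : red σ ζ ≠ 0 := by
    intro h
    rw [h, zero_pow hℓ.ne_zero] at h0
    exact zero_ne_one h0
  rw [← h2]
  exact orderOf_dvd_of_pow_eq_one (ZMod.pow_card_sub_one_eq_one h3)

lemma box_fin {J I : Type} [Fintype J] [Fintype I] (B : Module.Basis J ℤ (𝓞 k)) (H : ℕ) :
    {c : I → 𝓞 k | ∀ i j, |B.repr (c i) j| ≤ (H : ℤ)}.Finite := by
  have h1 : (Set.pi Set.univ fun _ : I × J => Set.Icc (-(H : ℤ)) H).Finite :=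
    Set.Finite.pi fun _ => Set.finite_Icc _ _
  let ψ : (I → 𝓞 k) → (I × J → ℤ) := fun c q => B.repr (c q.1) q.2
  have hψ : Function.Injective ψ := by
    intro c d hcd
    funext i
    apply B.repr.injective
    ext j
    exact congrFun hcd (i, j)
  refine (h1.preimage hψ.injOn).subset ?_
  intro c hc q _
  exact abs_le.1 (hc q.1 q.2)

/-- almost all tuples have the obstruction -/
theorem dens_s {J : Type} [Fintype J] (B : Module.Basis J ℤ (𝓞 k)) {ℓ : ℕ} (hℓ : ℓ.Prime)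
    {ζ' : 𝓞 k} (hζ' : IsPrimitiveRoot ζ' ℓ) (f : (𝓞 k)[X]) {k' : Type} [Field k']
    [NumberField k'] (ι : 𝓞 k →+* 𝓞 k') (p0 : ℕ)
    (hf : ∀ (p : ℕ) [Fact p.Prime] (σ : 𝓞 k' →+* ℤ_[p]), p0 ≤ p →
          1 ≤ (f.map (red (σ.comp ι))).natDegree ∧ Cop ℓ (f.map (red (σ.comp ι))))
    (m : ℕ) {η : ℝ} (hη : 0 < η) :
    ∃ H0 : ℕ, ∀ H : ℕ, H0 ≤ H →
      (({c : Fin (m + 3) → 𝓞 k | (∀ i j, |B.repr (c i) j| ≤ (H : ℤ)) ∧
        ∀ (p : ℕ) [Fact p.Prime] (σ : 𝓞 k →+* ℤ_[p]),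
          ¬ PObs ℓ (f.map (red σ)) (fun j => red σ (c j))}.ncard : ℕ) : ℝ) ≤
        η * (2 * H + 1) ^ (Fintype.card (Fin (m + 3)) * Fintype.card J) := by
  obtain ⟨P0, hP0⟩ := card_PObs hℓ f.natDegree
  obtain ⟨H0, hH0⟩ := densG_one B (I := Fin (m + 3)) ι
    (δ := 1 / (32 * (m + 2) ^ 2)) (by positivity) (d1 m) (p0 + P0 + ℓ + 1)
    (fun p _ σ => {c | PObs ℓ (f.map (red (σ.comp ι))) c}) (by
      intro p _ σ hp
      obtain ⟨h1, h2⟩ := hf p σ (by omega)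
      rw [Fintype.card_fin]
      exact hP0 p (by omega) (ell_dvd hℓ hζ' (σ.comp ι) (by omega)) _ h1 natDegree_map_le h2 m) hη
  refine ⟨H0, fun H hH => ?_⟩
  refine le_trans ?_ (hH0 H hH)
  have h1 : {c : Fin (m + 3) → 𝓞 k | (∀ i j, |B.repr (c i) j| ≤ (H : ℤ)) ∧
        ∀ (p : ℕ) [Fact p.Prime] (σ : 𝓞 k →+* ℤ_[p]),
          ¬ PObs ℓ (f.map (red σ)) (fun j => red σ (c j))}.ncard ≤
      {c : Fin (m + 3) → 𝓞 k | (∀ i j, |B.repr (c i) j| ≤ (H : ℤ)) ∧
        NoObs ι (p0 + P0 + ℓ + 1) (fun p _ σ => {c | PObs ℓ (f.map (red (σ.comp ι))) c})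
          c}.ncard := by
    refine Set.ncard_le_ncard ?_ ((box_fin B H).subset fun c hc => hc.1)
    rintro c ⟨hc1, hc2⟩
    exact ⟨hc1, fun p _ σ _ h => hc2 p (σ.comp ι) h⟩
  exact_mod_cast h1

end

end Pool.Agent.R431.SG
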