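import Pool.Agent.R431.SG.Irr
import Pool.Agent.H341R2.Stepanov

/-!
# Counting polynomials with two roots at which the values of a fixed polynomial differ by a
nonsquare
-/

set_option autoImplicit false
set_option linter.all false

open scoped Classical

namespace Pool.Agent.R431.SG

open Polynomial Finset

/-- two simple roots at which the values of `f` differ by a nonsquare -/
def PairObs {p : ℕ} [Fact p.Prime] {N : ℕ} (f : (ZMod p)[X]) (c : Fin N → ZMod p) : Prop :=
  ∃ r r' : ZMod p, (pol c).eval r = 0 ∧ (pol c).eval r' = 0 ∧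
    (derivative (pol c)).eval r ≠ 0 ∧ (derivative (pol c)).eval r' ≠ 0 ∧
    quadraticChar (ZMod p) (f.eval r * f.eval r') = -1

lemma card_pair0 {α β : Type} [Fintype β] (X : Finset α) (R : α → β → Prop)
    (m : ℕ) (h : ∀ x ∈ X, m ≤ (Finset.univ.filter (R x)).card) :
    X.card * m ≤ ((X ×ˢ Finset.univ).filter fun z : α × β => R z.1 z.2).card := by
  rw [Finset.card_filter, Finset.sum_product, ← smul_eq_mul, ← Finset.sum_const]
  refine Finset.sum_le_sum fun x hx => ?_
  have := h x hx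
  rwa [Finset.card_filter] at this

lemma card_zero_at {p : ℕ} [Fact p.Prime] (m : ℕ) (r : ZMod p) :
    (univ.filter fun q : Fin (m + 1) → ZMod p => (pol q).eval r = 0).card ≤ p ^ m := by
  have h1 : Fintype.card (Fin m → ZMod p) = p ^ m := by
    rw [Fintype.card_fun, ZMod.card, Fintype.card_fin]
  rw [← h1, ← Finset.card_univ]
  refine Finset.card_le_card_of_injOn (fun q j => q j.succ) (fun q _ => by simp) ?_
  intro q hq q' hq' hqq
  rw [Finset.mem_coe, mem_filter, pol_eval, Fin.sum_univ_succ] at hq hq'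
  have h2 : ∀ j : Fin m, q j.succ = q' j.succ := fun j => congrFun hqq j
  funext j
  refine Fin.cases ?_ h2 j
  have h3 := hq.2
  have h4 := hq'.2
  simp only [Fin.val_zero, pow_zero, mul_one, h2] at h3 h4
  linear_combination h3 - h4

/-- both signs are frequent -/
lemma card_sign {p : ℕ} [Fact p.Prime] (hp2 : p ≠ 2) {f : (ZMod p)[X]} {d : ℕ}
    (hd1 : 1 ≤ f.natDegree) (hd : f.natDegree ≤ d) (hns : ∀ c h, f ≠ C c * h ^ 2)
    (hp : 400 * (d + 1) ^ 2 ≤ p) :
    (p : ℝ) ≤ 4 * ((univ.filter fun x : ZMod p => quadraticChar (ZMod p) (f.eval x) = 1).card : ℝ) ∧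
    (p : ℝ) ≤ 4 * ((univ.filter fun x : ZMod p => quadraticChar (ZMod p) (f.eval x) = -1).card : ℝ)
    := by
  have hF : ringChar (ZMod p) ≠ 2 := by
    rw [ZMod.ringChar_zmod_n]
    exact hp2
  have hw := Pool.Agent.H341R2.weil_bound hF f hd1 hns
  rw [ZMod.card] at hw
  set a := (univ.filter fun x : ZMod p => quadraticChar (ZMod p) (f.eval x) = 1).card with ha
  set b := (univ.filter fun x : ZMod p => quadraticChar (ZMod p) (f.eval x) = -1).card with hb
  set z := (univ.filter fun x : ZMod p => f.eval x = 0).card with hz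
  have e1 : ∀ x : ZMod p, ((quadraticChar (ZMod p) (f.eval x) : ℤ) : ℝ) =
      (if quadraticChar (ZMod p) (f.eval x) = 1 then 1 else 0) -
      (if quadraticChar (ZMod p) (f.eval x) = -1 then 1 else 0) := by
    intro x
    by_cases hx : f.eval x = 0
    · rw [hx, MulChar.map_zero]; norm_num
    · rcases quadraticChar_dichotomy hx with h | h <;> rw [h] <;> norm_num
  have e2 : ∀ x : ZMod p, (1 : ℝ) = (if quadraticChar (ZMod p) (f.eval x) = 1 then 1 else 0) +
      (if quadraticChar (ZMod p) (f.eval x) = -1 then 1 else 0) +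
      (if f.eval x = 0 then 1 else 0) := by
    intro x
    by_cases hx : f.eval x = 0
    · rw [hx, MulChar.map_zero]; norm_num
    · rcases quadraticChar_dichotomy hx with h | h <;> rw [h, if_neg hx] <;> norm_num
  have s1 : ∑ x : ZMod p, ((quadraticChar (ZMod p) (f.eval x) : ℤ) : ℝ) = (a : ℝ) - b := by
    rw [Finset.sum_congr rfl fun x _ => e1 x, Finset.sum_sub_distrib, Finset.sum_boole,
      Finset.sum_boole]
  have s2 : (p : ℝ) = a + b + z := by
    have h1 : ((Fintype.card (ZMod p) : ℕ) : ℝ) = ∑ x : ZMod p, (1 : ℝ) := by simp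
    rw [ZMod.card] at h1
    rw [h1, Finset.sum_congr rfl fun x _ => e2 x, Finset.sum_add_distrib,
      Finset.sum_add_distrib, Finset.sum_boole, Finset.sum_boole, Finset.sum_boole]
  have hf0 : f ≠ 0 := by
    rintro rfl
    simp at hd1
  have hzd : z ≤ d := by
    refine le_trans ?_ hd
    refine le_trans ?_ (card_roots' f)
    refine le_trans ?_ (Multiset.toFinset_card_le _)
    refine Finset.card_le_card fun x hx => ?_
    rw [mem_filter] at hx
    rw [Multiset.mem_toFinset, mem_roots hf0]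
    exact hx.2
  rw [s1] at hw
  have hsq : 20 * ((d : ℝ) + 1) ≤ Real.sqrt p := by
    apply Real.le_sqrt_of_sq_le
    have h1 : ((400 * (d + 1) ^ 2 : ℕ) : ℝ) ≤ p := by exact_mod_cast hp
    push_cast at h1
    have h2 : (20 * ((d : ℝ) + 1)) ^ 2 = 400 * ((d : ℝ) + 1) ^ 2 := by ring
    rw [h2]
    exact h1
  have hsp : Real.sqrt p * Real.sqrt p = p := Real.mul_self_sqrt (Nat.cast_nonneg _)
  have hs0 : 0 ≤ Real.sqrt p := Real.sqrt_nonneg _
  have hd0 : (0 : ℝ) ≤ d := Nat.cast_nonneg _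
  have h5 : 5 * (f.natDegree : ℝ) * Real.sqrt p ≤ p / 4 := by
    have h6 : (f.natDegree : ℝ) ≤ d := by exact_mod_cast hd
    have h7 : 5 * (f.natDegree : ℝ) ≤ Real.sqrt p / 4 := by linarith
    calc 5 * (f.natDegree : ℝ) * Real.sqrt p ≤ Real.sqrt p / 4 * Real.sqrt p :=
          mul_le_mul_of_nonneg_right h7 hs0
      _ = p / 4 := by rw [div_mul_eq_mul_div, hsp]
  have h8 : (d : ℝ) ≤ p / 4 := by
    have h1 : ((400 * (d + 1) ^ 2 : ℕ) : ℝ) ≤ p := by exact_mod_cast hp
    push_cast at h1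
    nlinarith
  have hzd' : (z : ℝ) ≤ d := by exact_mod_cast hzd
  have h9 := abs_le.1 (hw.trans h5)
  constructor
  · linarith [h9.1, h9.2]
  · linarith [h9.1, h9.2]

/-- **The count.** -/
theorem card_pairObs {p : ℕ} [Fact p.Prime] (hp2 : p ≠ 2) {f : (ZMod p)[X]} {d : ℕ}
    (hd1 : 1 ≤ f.natDegree) (hd : f.natDegree ≤ d) (hns : ∀ c h, f ≠ C c * h ^ 2)
    (hp : 400 * (d + 1) ^ 2 ≤ p) (m : ℕ) :
    (1 / (32 * (m + 2) ^ 2 : ℝ)) * (p : ℝ) ^ (m + 3) ≤
      (({c : Fin (m + 3) → ZMod p | PairObs f c}.ncard : ℕ) : ℝ) := by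
  obtain ⟨hA, hB⟩ := card_sign hp2 hd1 hd hns hp
  set A := univ.filter fun x : ZMod p => quadraticChar (ZMod p) (f.eval x) = 1 with hAd
  set B := univ.filter fun x : ZMod p => quadraticChar (ZMod p) (f.eval x) = -1 with hBd
  have hp4 : 4 ≤ p := by
    have : 1 ≤ (d + 1) ^ 2 := Nat.one_le_pow _ _ (by omega)
    omega
  let R : (ZMod p × ZMod p) → (Fin (m + 1) → ZMod p) → Prop := fun x q =>
    (pol q).eval x.1 ≠ 0 ∧ (pol q).eval x.2 ≠ 0
  have hR : ∀ x ∈ A ×ˢ B, p ^ (m + 1) - 2 * p ^ m ≤ (univ.filter (R x)).card := by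
    intro x _
    have h1 := card_zero_at m x.1
    have h2 := card_zero_at m x.2
    have h3 : (univ : Finset (Fin (m + 1) → ZMod p)) ⊆ (univ.filter (R x)) ∪
        ((univ.filter fun q : Fin (m + 1) → ZMod p => (pol q).eval x.1 = 0) ∪
          (univ.filter fun q : Fin (m + 1) → ZMod p => (pol q).eval x.2 = 0)) := by
      intro q _
      rw [mem_union, mem_union, mem_filter, mem_filter, mem_filter]
      by_cases h4 : (pol q).eval x.1 = 0
      · exact Or.inr (Or.inl ⟨mem_univ _, h4⟩)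
      · by_cases h5 : (pol q).eval x.2 = 0
        · exact Or.inr (Or.inr ⟨mem_univ _, h5⟩)
        · exact Or.inl ⟨mem_univ _, h4, h5⟩
    have h6 := Finset.card_le_card h3
    have h7 := h6.trans (Finset.card_union_le _ _)
    have h8 := Finset.card_union_le
      (univ.filter fun q : Fin (m + 1) → ZMod p => (pol q).eval x.1 = 0)
      (univ.filter fun q : Fin (m + 1) → ZMod p => (pol q).eval x.2 = 0)
    rw [card_univ, Fintype.card_fun, ZMod.card, Fintype.card_fin] at h7
    omega
  set T := ((A ×ˢ B) ×ˢ (univ : Finset (Fin (m + 1) → ZMod p))).filter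
    (fun z : (ZMod p × ZMod p) × (Fin (m + 1) → ZMod p) => R z.1 z.2) with hT
  have hTc : (A.card * B.card) * (p ^ (m + 1) - 2 * p ^ m) ≤ T.card := by
    have := card_pair0 (A ×ˢ B) R (p ^ (m + 1) - 2 * p ^ m) (fun x hx => by
      convert hR x hx)
    rw [card_product] at this
    convert this
  let P : (ZMod p × ZMod p) × (Fin (m + 1) → ZMod p) → (ZMod p)[X] := fun z =>
    (X - C z.1.1) * ((X - C z.1.2) * pol z.2)
  have hPd : ∀ z, (P z).natDegree ≤ m + 2 := by
    intro z
    refine natDegree_mul_le.trans ?_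
    have h1 : ((X - C z.1.2) * pol z.2).natDegree ≤ 1 + m := by
      refine natDegree_mul_le.trans ?_
      exact Nat.add_le_add (natDegree_X_sub_C_le _) (pol_degree _)
    have h2 : (X - C z.1.1 : (ZMod p)[X]).natDegree ≤ 1 := natDegree_X_sub_C_le _
    omega
  let φ : (ZMod p × ZMod p) × (Fin (m + 1) → ZMod p) → (Fin (m + 3) → ZMod p) := fun z j =>
    (P z).coeff j
  have hφ : ∀ z, pol (φ z) = P z := fun z => pol_of (hPd z)
  have hT' : ∀ z ∈ T, quadraticChar (ZMod p) (f.eval z.1.1) = 1 ∧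
      quadraticChar (ZMod p) (f.eval z.1.2) = -1 ∧ (pol z.2).eval z.1.1 ≠ 0 ∧
      (pol z.2).eval z.1.2 ≠ 0 ∧ z.1.1 ≠ z.1.2 := by
    intro z hz
    rw [hT, mem_filter, mem_product, mem_product, hAd, hBd, mem_filter, mem_filter] at hz
    refine ⟨hz.1.1.1.2, hz.1.1.2.2, hz.2.1, hz.2.2, ?_⟩
    intro h
    have h1 := hz.1.1.1.2
    rw [h, hz.1.1.2.2] at h1
    norm_num at h1
  have hP0 : ∀ z ∈ T, P z ≠ 0 := by
    intro z hz h0
    obtain ⟨-, -, h1, -, -⟩ := hT' z hz
    have h2 : pol z.2 = 0 := by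
      rcases mul_eq_zero.1 h0 with h | h
      · exact absurd h (X_sub_C_ne_zero _)
      · rcases mul_eq_zero.1 h with h | h
        · exact absurd h (X_sub_C_ne_zero _)
        · exact h
    rw [h2, eval_zero] at h1
    exact h1 rfl
  have hfib : ∀ b ∈ T.image φ, (T.filter fun z => φ z = b).card ≤ (m + 2) ^ 2 := by
    intro b hb
    obtain ⟨z0, hz0, rfl⟩ := mem_image.1 hb
    set Q := P z0 with hQ
    have hQ0 : Q ≠ 0 := hP0 z0 hz0
    have h1 : (T.filter fun z => φ z = φ z0).card ≤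
        (Q.roots.toFinset ×ˢ Q.roots.toFinset).card := by
      refine Finset.card_le_card_of_injOn (fun z => z.1) ?_ ?_
      · intro z hz
        rw [Finset.mem_coe, mem_filter] at hz
        have h5 : P z = Q := by rw [← hφ, hz.2, hφ]
        rw [Finset.mem_coe, mem_product, Multiset.mem_toFinset, Multiset.mem_toFinset,
          mem_roots hQ0, mem_roots hQ0, ← h5]
        constructor
        · show (P z).eval z.1.1 = 0
          simp [P]
        · show (P z).eval z.1.2 = 0
          simp [P]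
      · intro z hz z' hz' hzz
        rw [Finset.mem_coe, mem_filter] at hz hz'
        have h5 : P z = P z' := by rw [← hφ, hz.2, ← hz'.2, hφ]
        have h6 : z.1 = z'.1 := hzz
        have h7 : pol z.2 = pol z'.2 := by
          have h8 : (X - C z.1.1) * ((X - C z.1.2) * pol z.2) =
              (X - C z.1.1) * ((X - C z.1.2) * pol z'.2) := by
            have h9 : P z' = (X - C z.1.1) * ((X - C z.1.2) * pol z'.2) := by
              simp only [P, h6]
            rw [← h9]
            exact h5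
          exact mul_left_cancel₀ (X_sub_C_ne_zero _) (mul_left_cancel₀ (X_sub_C_ne_zero _) h8)
        exact Prod.ext h6 (pol_injective h7)
    refine h1.trans ?_
    rw [card_product, sq]
    have h2 : Q.roots.toFinset.card ≤ m + 2 :=
      (Multiset.toFinset_card_le _).trans ((card_roots' _).trans (hPd z0))
    exact Nat.mul_le_mul h2 h2
  have h7 := Finset.card_le_mul_card_image T _ hfib
  have h8 : (T.image φ).card ≤ {c : Fin (m + 3) → ZMod p | PairObs f c}.ncard := by
    rw [← Set.ncard_coe_finset]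
    refine Set.ncard_le_ncard ?_ (Set.toFinite _)
    intro c hc
    rw [Finset.mem_coe, mem_image] at hc
    obtain ⟨z, hz, rfl⟩ := hc
    obtain ⟨h1, h2, h3, h4, h5⟩ := hT' z hz
    refine ⟨z.1.1, z.1.2, ?_, ?_, ?_, ?_, ?_⟩
    · rw [hφ]; simp [P]
    · rw [hφ]; simp [P]
    · rw [hφ]
      simp only [P, derivative_mul, derivative_sub, derivative_X, derivative_C, sub_zero, one_mul,
        eval_add, eval_mul, eval_sub, eval_X, eval_C, sub_self, zero_mul, add_zero]
      exact mul_ne_zero (sub_ne_zero.2 h5) h3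
    · rw [hφ]
      simp only [P, derivative_mul, derivative_sub, derivative_X, derivative_C, sub_zero, one_mul,
        eval_add, eval_mul, eval_sub, eval_X, eval_C, sub_self, zero_mul, add_zero, zero_add]
      exact mul_ne_zero (sub_ne_zero.2 (Ne.symm h5)) h4
    · rw [map_mul, h1, h2]
      norm_num
  -- the arithmetic
  have h9 : ((A.card : ℝ) * B.card) * ((p : ℝ) ^ (m + 1) / 2) ≤ T.card := by
    have h10 : (p : ℝ) ^ (m + 1) / 2 ≤ ((p ^ (m + 1) - 2 * p ^ m : ℕ) : ℝ) := by
      have h11 : 2 * p ^ m ≤ p ^ (m + 1) := by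
        rw [pow_succ, Nat.mul_comm]
        exact Nat.mul_le_mul_left _ (by omega)
      rw [Nat.cast_sub h11]
      push_cast
      have h12 : (4 : ℝ) ≤ p := by exact_mod_cast hp4
      have h13 : (0 : ℝ) ≤ (p : ℝ) ^ m := by positivity
      rw [pow_succ]
      nlinarith
    calc ((A.card : ℝ) * B.card) * ((p : ℝ) ^ (m + 1) / 2)
        ≤ ((A.card : ℝ) * B.card) * ((p ^ (m + 1) - 2 * p ^ m : ℕ) : ℝ) :=
          mul_le_mul_of_nonneg_left h10 (by positivity)
      _ ≤ T.card := by exact_mod_cast hTc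
  have h10 : (T.card : ℝ) ≤ (m + 2) ^ 2 *
      (({c : Fin (m + 3) → ZMod p | PairObs f c}.ncard : ℕ) : ℝ) := by
    have h11 : T.card ≤ (m + 2) ^ 2 * {c : Fin (m + 3) → ZMod p | PairObs f c}.ncard :=
      h7.trans (Nat.mul_le_mul_left _ h8)
    exact_mod_cast h11
  have h11 : (p : ℝ) * p ≤ 16 * ((A.card : ℝ) * B.card) := by
    have h12 : (0 : ℝ) ≤ p := Nat.cast_nonneg _
    have h13 := mul_le_mul hA hB h12 (by positivity)
    linarith
  rw [div_mul_eq_mul_div, one_mul, div_le_iff₀ (by positivity)]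
  have h12 : (0 : ℝ) ≤ (p : ℝ) ^ (m + 1) := by positivity
  calc (p : ℝ) ^ (m + 3) = ((p : ℝ) * p) * (p : ℝ) ^ (m + 1) := by ring
    _ ≤ (16 * ((A.card : ℝ) * B.card)) * (p : ℝ) ^ (m + 1) :=
        mul_le_mul_of_nonneg_right h11 h12
    _ = 32 * (((A.card : ℝ) * B.card) * ((p : ℝ) ^ (m + 1) / 2)) := by ring
    _ ≤ 32 * ((m + 2) ^ 2 * (({c : Fin (m + 3) → ZMod p | PairObs f c}.ncard : ℕ) : ℝ)) := by
        linarith
    _ = _ := by ring

end Pool.Agent.R431.SG
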