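import Pool.Agent.R431.SG.PowN

/-!
# Values of products of differences modulo powers
-/

set_option autoImplicit false
set_option linter.all false

open scoped Classical

namespace Pool.Agent.R431.SG

open Finset

/-- the product of differences -/
noncomputable def fs {N : ℕ} {R : Type} [CommRing R] (s : Fin N × Fin N → ℕ) (u : Fin N → R) : R :=
  ∏ q : Fin N × Fin N, (u q.1 - u q.2) ^ s q

section

variable {F : Type} [Field F] {N : ℕ} {s : Fin N × Fin N → ℕ}

lemma fs_ne_zero (hs : ∀ q : Fin N × Fin N, ¬ q.1 < q.2 → s q = 0) {u : Fin N → F}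
    (hu : Function.Injective u) : fs s u ≠ 0 := by
  unfold fs
  rw [Finset.prod_ne_zero_iff]
  intro q _
  by_cases hq : q.1 < q.2
  · exact pow_ne_zero _ (sub_ne_zero.2 fun h => hq.ne (hu h))
  · rw [hs q hq, pow_zero]
    exact one_ne_zero

lemma inj_update {u : Fin N → F} (hu : Function.Injective u) {i : Fin N} {x : F}
    (hx : ∀ j, j ≠ i → u j ≠ x) : Function.Injective (Function.update u i x) := by
  intro a b hab
  by_cases ha : a = i
  · by_cases hb : b = i
    · rw [ha, hb]
    · rw [ha, Function.update_self, Function.update_of_ne hb] at hab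
      exact absurd hab.symm (hx b hb)
  · by_cases hb : b = i
    · rw [hb, Function.update_self, Function.update_of_ne ha] at hab
      exact absurd hab (hx a ha)
    · rw [Function.update_of_ne ha, Function.update_of_ne hb] at hab
      exact hu hab

/-- the change of the product -/
lemma fs_ratio (hs : ∀ q : Fin N × Fin N, ¬ q.1 < q.2 → s q = 0) {q0 : Fin N × Fin N}
    (hq0 : q0.1 < q0.2) {u : Fin N → F} (hu : Function.Injective u) {y' : F}
    (hy' : ∀ i, u i ≠ y') :
    ∃ B : F, B ≠ 0 ∧ ∀ x : F, (∀ i, i ≠ q0.1 → u i ≠ x) → y' ≠ x →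
      fs s (Function.update u q0.1 x) = ((x - u q0.2) / (x - y')) ^ s q0 * B *
        fs s (Function.update (Function.update u q0.1 x) q0.2 y') := by
  set w := Function.update u q0.2 y' with hw
  have hwi : Function.Injective w := inj_update hu fun j _ => hy' j
  let t : Fin N × Fin N → F := fun q => if q.1 = q0.1 ∨ q.2 = q0.1 ∨ ¬ q.1 < q.2 then 1 else
    ((u q.1 - u q.2) / (w q.1 - w q.2)) ^ s q
  have ht : ∀ q, t q ≠ 0 := by
    intro q
    simp only [t]
    split_ifs with h
    · exact one_ne_zero
    · push Not at h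
      have hne : q.1 ≠ q.2 := h.2.2.ne
      exact pow_ne_zero _ (div_ne_zero (sub_ne_zero.2 fun h' => hne (hu h'))
        (sub_ne_zero.2 fun h' => hne (hwi h')))
  refine ⟨∏ q ∈ univ.erase q0, t q, Finset.prod_ne_zero_iff.2 fun q _ => ht q, ?_⟩
  intro x hx hyx
  set u1 := Function.update u q0.1 x with hu1
  set w1 := Function.update u1 q0.2 y' with hw1
  have hu1i : Function.Injective u1 := inj_update hu hx
  have hne0 : q0.2 ≠ q0.1 := hq0.ne'
  have hw1i : Function.Injective w1 := by
    refine inj_update hu1i fun j hj => ?_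
    by_cases hj1 : j = q0.1
    · rw [hj1, hu1, Function.update_self]
      exact hyx.symm
    · rw [hu1, Function.update_of_ne hj1]
      exact hy' j
  have e1 : u1 q0.1 = x := by rw [hu1, Function.update_self]
  have e2 : u1 q0.2 = u q0.2 := by rw [hu1, Function.update_of_ne hne0]
  have e3 : w1 q0.1 = x := by rw [hw1, Function.update_of_ne hne0.symm, e1]
  have e4 : w1 q0.2 = y' := by rw [hw1, Function.update_self]
  have e5 : ∀ j, j ≠ q0.1 → u1 j = u j := fun j hj => by rw [hu1, Function.update_of_ne hj]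
  have e6 : ∀ j, j ≠ q0.1 → w1 j = w j := by
    intro j hj
    by_cases hj2 : j = q0.2
    · rw [hj2, e4, hw, Function.update_self]
    · rw [hw1, Function.update_of_ne hj2, e5 j hj, hw, Function.update_of_ne hj2]
  have e7 : ∀ j, j ≠ q0.2 → w1 j = u1 j := fun j hj => by rw [hw1, Function.update_of_ne hj]
  have hterm : ∀ q ∈ univ.erase q0, (u1 q.1 - u1 q.2) ^ s q =
      t q * (w1 q.1 - w1 q.2) ^ s q := by
    intro q hq
    rw [mem_erase] at hq
    simp only [t]
    by_cases hlt : q.1 < q.2
    · have hd : w1 q.1 - w1 q.2 ≠ 0 := sub_ne_zero.2 fun h' => hlt.ne (hw1i h')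
      by_cases h1 : q.1 = q0.1
      · rw [if_pos (Or.inl h1), one_mul]
        have h2 : q.2 ≠ q0.2 := fun h2 => hq.1 (Prod.ext h1 h2)
        rw [e7 q.2 h2, e7 q.1 (by rw [h1]; exact hne0.symm)]
      · by_cases h2 : q.2 = q0.1
        · rw [if_pos (Or.inr (Or.inl h2)), one_mul]
          have h3 : q.1 ≠ q0.2 := by
            intro h3
            rw [h3, h2] at hlt
            exact absurd hlt (not_lt.2 hq0.le)
          rw [e7 q.1 h3, e7 q.2 (by rw [h2]; exact hne0.symm)]
        · rw [if_neg (by push Not; exact ⟨h1, h2, hlt⟩), e5 _ h1, e5 _ h2, ← e6 _ h1, ← e6 _ h2,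
            div_pow, div_mul_cancel₀ _ (pow_ne_zero _ hd)]
    · rw [if_pos (Or.inr (Or.inr hlt)), one_mul, hs q hlt, pow_zero, pow_zero]
  have hd0 : x - y' ≠ 0 := sub_ne_zero.2 hyx.symm
  unfold fs
  rw [← Finset.mul_prod_erase univ (fun q => (u1 q.1 - u1 q.2) ^ s q) (mem_univ q0),
    ← Finset.mul_prod_erase univ (fun q => (w1 q.1 - w1 q.2) ^ s q) (mem_univ q0),
    Finset.prod_congr rfl hterm, Finset.prod_mul_distrib, e1, e2, e3, e4, div_pow,
    div_mul_eq_mul_div, div_mul_eq_mul_div, eq_div_iff (pow_ne_zero _ hd0)]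
  ring

variable [Fintype F] {ℓ : ℕ}

/-- many good values -/
lemma card_good (hℓ : ℓ.Prime) (hex : ∃ γ : F, NP ℓ γ) {m : ℕ} (hm : ¬ ℓ ∣ m) {B : F} (hB : B ≠ 0)
    {y y' : F} (hy : y ≠ y') (i0 : Fin N) (u : Fin N → F) (hN : 4 * N + 6 ≤ Fintype.card F) :
    Fintype.card F ≤ 4 * (univ.filter fun x : F => (∀ i, i ≠ i0 → u i ≠ x) ∧ y' ≠ x ∧
      NP ℓ (((x - y) / (x - y')) ^ m * B)).card := by
  have h1 := card_np hℓ hex hm hB
  set A := univ.filter fun v : F => v ≠ 0 ∧ NP ℓ (v ^ m * B) with hA
  have h2 : A.card ≤ (A.erase 1).card + 1 := by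
    have := Finset.pred_card_le_card_erase (s := A) (a := (1 : F))
    omega
  set X := (A.erase 1).image fun v => (y - v * y') / (1 - v) with hX
  have h3 : X.card = (A.erase 1).card := by
    rw [hX]
    apply Finset.card_image_of_injOn
    intro v hv w hw hvw
    rw [Finset.mem_coe, mem_erase] at hv hw
    have hv1 : 1 - v ≠ 0 := sub_ne_zero.2 (Ne.symm hv.1)
    have hw1 : 1 - w ≠ 0 := sub_ne_zero.2 (Ne.symm hw.1)
    simp only at hvw
    rw [div_eq_div_iff hv1 hw1] at hvw
    have h4 : (v - w) * (y - y') = 0 := by linear_combination hvw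
    rcases mul_eq_zero.1 h4 with h | h
    · exact sub_eq_zero.1 h
    · exact absurd (sub_eq_zero.1 h) hy
  have h4 : (X \ (univ.image u)).card ≤ (univ.filter fun x : F => (∀ i, i ≠ i0 → u i ≠ x) ∧
      y' ≠ x ∧ NP ℓ (((x - y) / (x - y')) ^ m * B)).card := by
    apply Finset.card_le_card
    intro x hx
    rw [mem_sdiff, hX, mem_image] at hx
    obtain ⟨⟨v, hv, rfl⟩, hxu⟩ := hx
    rw [mem_erase, hA, mem_filter] at hv
    obtain ⟨hv1, -, hv0, hnp⟩ := hv
    have hv1' : 1 - v ≠ 0 := sub_ne_zero.2 (Ne.symm hv1)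
    have hyy : y - y' ≠ 0 := sub_ne_zero.2 hy
    have e1 : (y - v * y') / (1 - v) - y' = (y - y') / (1 - v) := by
      field_simp
      ring
    have e2 : (y - v * y') / (1 - v) - y = v * (y - y') / (1 - v) := by
      field_simp
      ring
    rw [mem_filter]
    refine ⟨mem_univ _, ?_, ?_, ?_⟩
    · intro i _ h
      exact hxu (mem_image.2 ⟨i, mem_univ _, h⟩)
    · intro h
      rw [← h, sub_self] at e1
      exact div_ne_zero hyy hv1' e1.symm
    · rw [e1, e2]
      have e3 : v * (y - y') / (1 - v) / ((y - y') / (1 - v)) = v := by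
        field_simp
      rw [e3]
      exact hnp
  have h5 : X.card ≤ (X \ (univ.image u)).card + N := by
    have h6 := Finset.card_le_card_sdiff_add_card (s := X) (t := univ.image u)
    have h7 : (univ.image u).card ≤ N := by
      refine Finset.card_image_le.trans ?_
      rw [card_univ, Fintype.card_fin]
    omega
  omega

/-- no class of powers contains almost all values -/
theorem card_class (hℓ : ℓ.Prime) (hex : ∃ γ : F, NP ℓ γ)
    (hs : ∀ q : Fin N × Fin N, ¬ q.1 < q.2 → s q = 0) {q0 : Fin N × Fin N} (hq0 : ¬ ℓ ∣ s q0)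
    {b : F} (hb : b ≠ 0) (hN : 4 * N + 6 ≤ Fintype.card F) (hN2 : 2 * (N * N) ≤ Fintype.card F) :
    Fintype.card F ^ N ≤ 32 *
      (univ.filter fun u : Fin N → F => Function.Injective u ∧ NP ℓ (fs s u * b)).card := by
  have hlt : q0.1 < q0.2 := by
    by_contra h
    exact hq0 (by rw [hs q0 h]; exact dvd_zero _)
  obtain ⟨P, hP⟩ : ∃ P : (Fin N → F) → Prop, ∀ u, P u ↔
      (Function.Injective u ∧ NP ℓ (fs s u * b)) := ⟨_, fun _ => Iff.rfl⟩
  have hVe : (univ.filter fun u : Fin N → F => Function.Injective u ∧ NP ℓ (fs s u * b)) =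
      univ.filter fun u : Fin N → F => P u := Finset.filter_congr fun u _ => (hP u).symm
  rw [hVe]
  set V := univ.filter fun u : Fin N → F => P u with hV
  set c := Fintype.card F with hc
  have hex2 : ∀ (u : Fin N → F) (y' : F), ∃ B : F, B ≠ 0 ∧ (Function.Injective u →
      (∀ i, u i ≠ y') → ∀ x : F, (∀ i, i ≠ q0.1 → u i ≠ x) → y' ≠ x →
      fs s (Function.update u q0.1 x) = ((x - u q0.2) / (x - y')) ^ s q0 * B *
        fs s (Function.update (Function.update u q0.1 x) q0.2 y')) := by
    intro u y'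
    by_cases h : Function.Injective u ∧ ∀ i, u i ≠ y'
    · obtain ⟨B, h1, h2⟩ := fs_ratio hs hlt h.1 h.2
      exact ⟨B, h1, fun _ _ => h2⟩
    · exact ⟨1, one_ne_zero, fun h1 h2 => absurd ⟨h1, h2⟩ h⟩
  choose B hB0 hB using hex2
  let G : (Fin N → F) → F → F → Prop := fun u y' x => (Function.Injective u ∧ ∀ i, u i ≠ y') ∧
    ((∀ i, i ≠ q0.1 → u i ≠ x) ∧ y' ≠ x ∧
      NP ℓ (((x - u q0.2) / (x - y')) ^ s q0 * B u y'))
  have hG : ∀ u y' x, G u y' x → P (Function.update u q0.1 x) ∨
      P (Function.update (Function.update u q0.1 x) q0.2 y') := by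
    rintro u y' x ⟨⟨h1, h2⟩, h3, h4, h5⟩
    by_contra hcon
    push Not at hcon
    obtain ⟨hc1, hc2⟩ := hcon
    have hu1 : Function.Injective (Function.update u q0.1 x) := inj_update h1 h3
    have hw1 : Function.Injective (Function.update (Function.update u q0.1 x) q0.2 y') := by
      refine inj_update hu1 fun j hj => ?_
      by_cases hj1 : j = q0.1
      · rw [hj1, Function.update_self]
        exact h4.symm
      · rw [Function.update_of_ne hj1]
        exact h2 j
    have k1 : ¬ NP ℓ (fs s (Function.update u q0.1 x) * b) := fun h => hc1 ((hP _).2 ⟨hu1, h⟩)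
    have k2 : ¬ NP ℓ (fs s (Function.update (Function.update u q0.1 x) q0.2 y') * b) :=
      fun h => hc2 ((hP _).2 ⟨hw1, h⟩)
    unfold NP at k1 k2
    push Not at k1 k2
    obtain ⟨z1, hz1⟩ := k1
    obtain ⟨z2, hz2⟩ := k2
    have hz20 : z2 ≠ 0 := by
      rintro rfl
      rw [zero_pow hℓ.ne_zero] at hz2
      exact mul_ne_zero (fs_ne_zero hs hw1) hb hz2
    apply h5 (z1 / z2)
    rw [div_pow z1 z2, eq_div_iff (pow_ne_zero _ hz20), ← hz1, ← hz2, hB u y' h1 h2 x h3 h4]
    ring
  -- the lower bound
  have hlow : ∀ y' : F, c * (univ.filter fun u : Fin N → F => Function.Injective u ∧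
      ∀ i, u i ≠ y').card ≤ 4 * (univ.filter fun z : (Fin N → F) × F => G z.1 y' z.2).card := by
    intro y'
    have h1 : (univ.filter fun z : (Fin N → F) × F => G z.1 y' z.2).card =
        ∑ u : Fin N → F, (univ.filter fun x : F => G u y' x).card := by
      rw [Finset.card_filter, ← Finset.univ_product_univ, Finset.sum_product]
      refine Finset.sum_congr rfl fun u _ => ?_
      rw [Finset.card_filter]
    rw [h1, Finset.mul_sum, mul_comm, ← smul_eq_mul, ← Finset.sum_const, Finset.sum_filter]
    refine Finset.sum_le_sum fun u _ => ?_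
    split_ifs with hu
    · have h2 := card_good (N := N) hℓ hex hq0 (hB0 u y') (hu.2 q0.2) q0.1 u hN
      refine h2.trans (Nat.mul_le_mul_left _ (card_le_card ?_))
      intro x hx
      rw [mem_filter] at hx ⊢
      exact ⟨mem_univ _, hu, hx.2⟩
    · exact Nat.zero_le _
  have hup : ∀ y' : F, (univ.filter fun z : (Fin N → F) × F => G z.1 y' z.2).card ≤
      V.card * c + (univ.filter fun u : Fin N → F => P (Function.update u q0.2 y')).card * c := by
    intro y'
    have h1 : (univ.filter fun z : (Fin N → F) × F => G z.1 y' z.2) ⊆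
        (univ.filter fun z : (Fin N → F) × F => P (Function.update z.1 q0.1 z.2)) ∪
        (univ.filter fun z : (Fin N → F) × F =>
          P (Function.update (Function.update z.1 q0.1 z.2) q0.2 y')) := by
      intro z hz
      rw [mem_filter] at hz
      rw [mem_union, mem_filter, mem_filter]
      exact (hG _ _ _ hz.2).imp (fun h => ⟨mem_univ _, h⟩) fun h => ⟨mem_univ _, h⟩
    refine (card_le_card h1).trans ((card_union_le _ _).trans ?_)
    rw [card_upd q0.1 P, card_upd q0.1 fun u => P (Function.update u q0.2 y')]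
  have hY : c ^ N * c ≤ 4 * ∑ y' : F, (univ.filter fun u : Fin N → F => Function.Injective u ∧
      ∀ i, u i ≠ y').card := by
    have h1 : ∑ y' : F, (univ.filter fun u : Fin N → F => Function.Injective u ∧
        ∀ i, u i ≠ y').card =
        ∑ u ∈ univ.filter fun u : Fin N → F => Function.Injective u,
          (univ.filter fun y' : F => ∀ i, u i ≠ y').card := by
      simp only [Finset.card_filter]
      rw [Finset.sum_comm, Finset.sum_filter]
      refine Finset.sum_congr rfl fun u _ => ?_
      split_ifs with hu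
      · exact Finset.sum_congr rfl fun y' _ => by simp [hu]
      · exact Finset.sum_eq_zero fun y' _ => by simp [hu]
    have h2 : ∀ u : Fin N → F, c ≤ 2 * (univ.filter fun y' : F => ∀ i, u i ≠ y').card := by
      intro u
      have h3 : (univ.filter fun y' : F => ∀ i, u i ≠ y').card +
          (univ.filter fun y' : F => ¬ ∀ i, u i ≠ y').card = c := by
        rw [Finset.card_filter_add_card_filter_not, card_univ]
      have h4 : (univ.filter fun y' : F => ¬ ∀ i, u i ≠ y').card ≤ N := by
        have h5 : (univ.filter fun y' : F => ¬ ∀ i, u i ≠ y') ⊆ univ.image u := by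
          intro y' hy'
          rw [mem_filter] at hy'
          have h6 := hy'.2
          push Not at h6
          obtain ⟨i, hi⟩ := h6
          exact mem_image.2 ⟨i, mem_univ _, hi⟩
        refine (card_le_card h5).trans (Finset.card_image_le.trans ?_)
        rw [card_univ, Fintype.card_fin]
      omega
    have h3 := card_inj (F := F) N hN2
    rw [h1]
    have h4 : c * (univ.filter fun u : Fin N → F => Function.Injective u).card ≤
        2 * ∑ u ∈ univ.filter fun u : Fin N → F => Function.Injective u,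
          (univ.filter fun y' : F => ∀ i, u i ≠ y').card := by
      rw [mul_comm, ← smul_eq_mul, ← Finset.sum_const, Finset.mul_sum]
      exact Finset.sum_le_sum fun u _ => h2 u
    calc c ^ N * c ≤ 2 * (univ.filter fun u : Fin N → F => Function.Injective u).card * c :=
          Nat.mul_le_mul_right _ h3
      _ = 2 * (c * (univ.filter fun u : Fin N → F => Function.Injective u).card) := by ring
      _ ≤ 2 * (2 * ∑ u ∈ univ.filter fun u : Fin N → F => Function.Injective u,
          (univ.filter fun y' : F => ∀ i, u i ≠ y').card) := Nat.mul_le_mul_left _ h4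
      _ = _ := by ring
  have hsum : ∑ y' : F, (univ.filter fun u : Fin N → F => P (Function.update u q0.2 y')).card =
      V.card * c := by
    rw [← card_upd q0.2 P]
    rw [Finset.card_filter, ← Finset.univ_product_univ, Finset.sum_product_right]
    refine Finset.sum_congr rfl fun y' _ => ?_
    rw [Finset.card_filter]
  have hc0 : 0 < c := by omega
  have hfin : c * (c ^ N * c) ≤ c * ((32 * V.card) * c) := by
    calc c * (c ^ N * c) ≤ c * (4 * ∑ y' : F, (univ.filter fun u : Fin N → F =>
          Function.Injective u ∧ ∀ i, u i ≠ y').card) := Nat.mul_le_mul_left _ hY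
      _ = 4 * ∑ y' : F, c * (univ.filter fun u : Fin N → F => Function.Injective u ∧
          ∀ i, u i ≠ y').card := by rw [← Finset.mul_sum]; ring
      _ ≤ 4 * ∑ y' : F, 4 * (univ.filter fun z : (Fin N → F) × F => G z.1 y' z.2).card :=
          Nat.mul_le_mul_left _ (Finset.sum_le_sum fun y' _ => hlow y')
      _ ≤ 4 * ∑ y' : F, 4 * (V.card * c + (univ.filter fun u : Fin N → F =>
          P (Function.update u q0.2 y')).card * c) :=
          Nat.mul_le_mul_left _ (Finset.sum_le_sum fun y' _ => Nat.mul_le_mul_left _ (hup y'))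
      _ = 4 * (4 * (c * (V.card * c) + (∑ y' : F, (univ.filter fun u : Fin N → F =>
          P (Function.update u q0.2 y')).card) * c)) := by
          rw [← Finset.mul_sum, Finset.sum_add_distrib, Finset.sum_const, card_univ, smul_eq_mul,
            Finset.sum_mul]
      _ = c * ((32 * V.card) * c) := by
          rw [hsum]; ring
  exact Nat.le_of_mul_le_mul_right (Nat.le_of_mul_le_mul_left hfin hc0) hc0

/-- many pairs of tuples -/
theorem card_pairs (hℓ : ℓ.Prime) (hex : ∃ γ : F, NP ℓ γ)
    (hs : ∀ q : Fin N × Fin N, ¬ q.1 < q.2 → s q = 0) {q0 : Fin N × Fin N} (hq0 : ¬ ℓ ∣ s q0)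
    (hN : 4 * N + 6 ≤ Fintype.card F) (hN2 : 2 * (N * N) ≤ Fintype.card F) :
    Fintype.card F ^ N * Fintype.card F ^ N ≤ 64 *
      (univ.filter fun z : (Fin N → F) × (Fin N → F) => fs s z.1 ≠ 0 ∧ fs s z.2 ≠ 0 ∧
        ∀ y, fs s z.1 ≠ y ^ ℓ * fs s z.2).card := by
  have h1 := card_inj (F := F) N hN2
  have h2 : ∑ w ∈ univ.filter fun w : Fin N → F => Function.Injective w,
      (univ.filter fun u : Fin N → F => Function.Injective u ∧
        NP ℓ (fs s u * (fs s w)⁻¹)).card ≤
      (univ.filter fun z : (Fin N → F) × (Fin N → F) => fs s z.1 ≠ 0 ∧ fs s z.2 ≠ 0 ∧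
        ∀ y, fs s z.1 ≠ y ^ ℓ * fs s z.2).card := by
    rw [Finset.card_filter (p := fun z : (Fin N → F) × (Fin N → F) => fs s z.1 ≠ 0 ∧ fs s z.2 ≠ 0 ∧
        ∀ y, fs s z.1 ≠ y ^ ℓ * fs s z.2), ← Finset.univ_product_univ, Finset.sum_product_right,
      Finset.sum_filter]
    refine Finset.sum_le_sum fun w _ => ?_
    split_ifs with hw
    · rw [← Finset.card_filter]
      apply card_le_card
      intro u hu
      rw [mem_filter] at hu ⊢
      refine ⟨mem_univ _, fs_ne_zero hs hu.2.1, fs_ne_zero hs hw, ?_⟩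
      intro y hy
      apply hu.2.2 y
      rw [hy, mul_assoc, mul_inv_cancel₀ (fs_ne_zero hs hw), mul_one]
    · exact Nat.zero_le _
  have h3 : Fintype.card F ^ N * (univ.filter fun w : Fin N → F => Function.Injective w).card ≤
      32 * ∑ w ∈ univ.filter fun w : Fin N → F => Function.Injective w,
      (univ.filter fun u : Fin N → F => Function.Injective u ∧
        NP ℓ (fs s u * (fs s w)⁻¹)).card := by
    rw [mul_comm (Fintype.card F ^ N), ← smul_eq_mul, ← Finset.sum_const, Finset.mul_sum]
    refine Finset.sum_le_sum fun w hw => ?_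
    rw [mem_filter] at hw
    exact card_class hℓ hex hs hq0 (inv_ne_zero (fs_ne_zero hs hw.2)) hN hN2
  calc Fintype.card F ^ N * Fintype.card F ^ N
      ≤ Fintype.card F ^ N *
        (2 * (univ.filter fun w : Fin N → F => Function.Injective w).card) :=
        Nat.mul_le_mul_left _ h1
    _ = 2 * (Fintype.card F ^ N *
        (univ.filter fun w : Fin N → F => Function.Injective w).card) := by ring
    _ ≤ 2 * (32 * _) := Nat.mul_le_mul_left _ h3
    _ ≤ 2 * (32 * _) := Nat.mul_le_mul_left _ (Nat.mul_le_mul_left _ h2)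
    _ = _ := by ring

end

end Pool.Agent.R431.SG
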