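import Pool.Agent.R431.SG.Bad
import Pool.Agent.R431.SG.Dens
import Pool.Agent.R431.SG.Cnt
import Pool.Agent.R431.SG.PowM

/-!
# The obstruction for powers of a prime exponent and tuples of polynomials
-/

set_option autoImplicit false
set_option linter.all false

open scoped Classical

namespace Pool.Agent.R431.SG

open Polynomial NumberField

/-- the obstruction modulo `p` -/
def PObs (ℓ : ℕ) {p : ℕ} [Fact p.Prime] {N : ℕ} (f : (ZMod p)[X]) (c : Fin N → ZMod p) : Prop :=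
  ∃ r r' : ZMod p, (pol c).eval r = 0 ∧ (pol c).eval r' = 0 ∧
    (derivative (pol c)).eval r ≠ 0 ∧ (derivative (pol c)).eval r' ≠ 0 ∧
    f.eval r ≠ 0 ∧ f.eval r' ≠ 0 ∧ ∀ y, f.eval r ≠ y ^ ℓ * f.eval r'

section nf

variable {k : Type} [Field k] [NumberField k]

/-- **The obstruction.** -/
theorem pair_contraL {ℓ : ℕ} (hℓ : ℓ ≠ 0) {p : ℕ} [Fact p.Prime] (σ : 𝓞 k →+* ℤ_[p]) {N : ℕ}
    {c : Fin N → 𝓞 k} {f : (𝓞 k)[X]}
    (hobs : PObs ℓ (f.map (red σ)) (fun j => red σ (c j))) {W z : k[X]} {a : k} (ha : a ≠ 0)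
    (hW : IsCoprime (pol fun j => algebraMap (𝓞 k) k (c j)) W)
    (hD : (pol fun j => algebraMap (𝓞 k) k (c j)) ∣
      C a * (f.map (algebraMap (𝓞 k) k) * W ^ ℓ) - z ^ ℓ) : False := by
  obtain ⟨r, r', h1, h2, h3, h4, h5, h5', h6⟩ := hobs
  have hred : (pol fun j => σ (c j)).map (PadicInt.toZMod (p := p)) =
      pol fun j => red σ (c j) := by
    rw [pol_map]
    rfl
  obtain ⟨ρ, hρ, hρr⟩ := lift_root (pol fun j => σ (c j)) r (by rw [hred]; exact h1)
    (by rw [hred]; exact h3)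
  obtain ⟨ρ', hρ', hρr'⟩ := lift_root (pol fun j => σ (c j)) r' (by rw [hred]; exact h2)
    (by rw [hred]; exact h4)
  have key : ∀ τ : ℤ_[p], (pol fun j => σ (c j)).eval τ = 0 →
      ∃ w v : ℚ_[p], w ≠ 0 ∧
        (((f.map σ).eval τ : ℤ_[p]) : ℚ_[p]) * (ext σ a * w ^ ℓ) = v ^ ℓ := by
    intro τ hτ
    have hev : ((pol fun j => algebraMap (𝓞 k) k (c j)).map (ext σ)).eval (τ : ℚ_[p]) = 0 := by
      have e1 : (pol fun j => algebraMap (𝓞 k) k (c j)).map (ext σ) =
          (pol fun j => σ (c j)).map (algebraMap ℤ_[p] ℚ_[p]) := by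
        rw [pol_map, pol_map]
        congr 1
        funext j
        exact ext_alg σ (c j)
      have e2 : (τ : ℚ_[p]) = algebraMap ℤ_[p] ℚ_[p] τ := rfl
      rw [e1, e2, eval_map, eval₂_hom, hτ, map_zero]
    refine ⟨(W.map (ext σ)).eval (τ : ℚ_[p]), (z.map (ext σ)).eval (τ : ℚ_[p]), ?_, ?_⟩
    · obtain ⟨u, v, huv⟩ := hW
      intro h0
      have e3 := congrArg (fun g : k[X] => (g.map (ext σ)).eval (τ : ℚ_[p])) huv
      simp only [Polynomial.map_add, Polynomial.map_mul, eval_add, eval_mul, hev, h0, mul_zero,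
        add_zero, Polynomial.map_one, eval_one] at e3
      exact zero_ne_one e3
    · obtain ⟨g, hg⟩ := hD
      have e3 := congrArg (fun g : k[X] => (g.map (ext σ)).eval (τ : ℚ_[p])) hg
      simp only [Polynomial.map_sub, Polynomial.map_mul, Polynomial.map_pow, map_C, eval_sub,
        eval_mul, eval_pow, eval_C, hev, zero_mul] at e3
      have e4 : (((f.map σ).eval τ : ℤ_[p]) : ℚ_[p]) =
          ((f.map (algebraMap (𝓞 k) k)).map (ext σ)).eval (τ : ℚ_[p]) := by
        have e5 : (f.map (algebraMap (𝓞 k) k)).map (ext σ) =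
            (f.map σ).map (algebraMap ℤ_[p] ℚ_[p]) := by
          rw [Polynomial.map_map, Polynomial.map_map]
          congr 1
          ext x
          exact ext_alg σ x
        rw [e5]
        have e2 : (τ : ℚ_[p]) = algebraMap ℤ_[p] ℚ_[p] τ := rfl
        conv_rhs => rw [e2, eval_map, eval₂_hom]
        rfl
      rw [e4]
      linear_combination e3
  obtain ⟨w, v, hw, e1⟩ := key ρ hρ
  obtain ⟨w', v', hw', e2⟩ := key ρ' hρ'
  have ha' : ext σ a ≠ 0 := (_root_.map_ne_zero _).2 ha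
  have h7 : ∀ τ : ℤ_[p], PadicInt.toZMod ((f.map σ).eval τ) =
      (f.map (red σ)).eval (PadicInt.toZMod τ) := by
    intro τ
    have : f.map (red σ) = (f.map σ).map (PadicInt.toZMod (p := p)) := by
      rw [Polynomial.map_map]
      rfl
    conv_rhs => rw [this, eval_map, eval₂_hom]
  have hun : IsUnit ((f.map σ).eval ρ') := by
    by_contra hcon
    have h8 : (f.map σ).eval ρ' ∈ IsLocalRing.maximalIdeal ℤ_[p] := hcon
    rw [← PadicInt.ker_toZMod, RingHom.mem_ker, h7, hρr'] at h8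
    exact h5' h8
  obtain ⟨U, hU⟩ := hun
  have hne' : (((f.map σ).eval ρ' : ℤ_[p]) : ℚ_[p]) ≠ 0 := by
    rw [← hU]
    have : algebraMap ℤ_[p] ℚ_[p] (U : ℤ_[p]) ≠ 0 := by
      rw [Ne, map_eq_zero_iff _ (IsFractionRing.injective ℤ_[p] ℚ_[p])]
      exact U.ne_zero
    exact this
  have hv' : v' ≠ 0 := by
    rintro rfl
    rw [zero_pow hℓ] at e2
    exact mul_ne_zero hne' (mul_ne_zero ha' (pow_ne_zero _ hw')) e2
  set y : ℚ_[p] := v * w' / (w * v') with hy
  have hyy : y ^ ℓ * (((f.map σ).eval ρ' : ℤ_[p]) : ℚ_[p]) =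
      (((f.map σ).eval ρ : ℤ_[p]) : ℚ_[p]) := by
    rw [hy, div_pow, div_mul_eq_mul_div, div_eq_iff (pow_ne_zero _ (mul_ne_zero hw hv')), mul_pow,
      mul_pow, ← e1, ← e2]
    ring
  have hint : IsIntegral ℤ_[p] y := by
    have h8 : y ^ ℓ = algebraMap ℤ_[p] ℚ_[p] ((f.map σ).eval ρ * ((U⁻¹ : ℤ_[p]ˣ) : ℤ_[p])) := by
      have h9 : (((f.map σ).eval ρ' : ℤ_[p]) : ℚ_[p]) * algebraMap ℤ_[p] ℚ_[p]
          ((U⁻¹ : ℤ_[p]ˣ) : ℤ_[p]) = 1 := by
        rw [← hU]
        have : algebraMap ℤ_[p] ℚ_[p] (U : ℤ_[p]) * algebraMap ℤ_[p] ℚ_[p]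
            ((U⁻¹ : ℤ_[p]ˣ) : ℤ_[p]) = 1 := by
          rw [← map_mul, Units.mul_inv, map_one]
        exact this
      rw [map_mul]
      have h10 : algebraMap ℤ_[p] ℚ_[p] ((f.map σ).eval ρ) =
        (((f.map σ).eval ρ : ℤ_[p]) : ℚ_[p]) := rfl
      rw [h10, ← hyy, mul_assoc, h9, mul_one]
    have : IsIntegral ℤ_[p] (y ^ ℓ) := by rw [h8]; exact isIntegral_algebraMap
    exact this.of_pow (Nat.pos_of_ne_zero hℓ)
  obtain ⟨y0, hy0⟩ := IsIntegrallyClosed.isIntegral_iff.1 hint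
  have h8 : y0 ^ ℓ * (f.map σ).eval ρ' = (f.map σ).eval ρ := by
    apply IsFractionRing.injective ℤ_[p] ℚ_[p]
    rw [map_mul, map_pow, hy0]
    exact hyy
  have h9 := congrArg (PadicInt.toZMod (p := p)) h8
  rw [map_mul, map_pow, h7, h7, hρr, hρr'] at h9
  exact h6 _ h9.symm

lemma np_exists {ℓ : ℕ} (hℓ : ℓ.Prime) {ζ : 𝓞 k} (hζ : IsPrimitiveRoot ζ ℓ) {p : ℕ}
    [Fact p.Prime] (σ : 𝓞 k →+* ℤ_[p]) (hp : ℓ < p) : ∃ γ : ZMod p, NP ℓ γ := by
  refine exists_np hℓ.ne_zero (z := red σ ζ) ?_ ?_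
  · rw [← map_pow, hζ.pow_eq_one, map_one]
  · intro h1
    have h2 := congrArg (red σ) (hζ.geom_sum_eq_zero hℓ.one_lt)
    rw [map_sum, map_zero] at h2
    simp only [map_pow, h1, one_pow, Finset.sum_const, Finset.card_range, nsmul_eq_mul,
      mul_one] at h2
    rw [ZMod.natCast_eq_zero_iff] at h2
    exact absurd (Nat.le_of_dvd hℓ.pos h2) (not_le.2 hp)

end nf

lemma fs_map {R S : Type} [CommRing R] [CommRing S] (φ : R →+* S) {N : ℕ}
    (s : Fin N × Fin N → ℕ) (u : Fin N → R) : φ (fs s u) = fs s fun i => φ (u i) := by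
  unfold fs
  rw [map_prod]
  exact Finset.prod_congr rfl fun q _ => by rw [map_pow, map_sub]

/-- the polynomials of a tuple -/
noncomputable def gp {R : Type} [CommRing R] {N n : ℕ} (c : Fin (N + 1) × Fin (n + 1) → R)
    (i : Fin (N + 1)) : R[X] := pol fun j => c (i, j)

lemma pol_sub {R : Type} [CommRing R] {N : ℕ} (c d : Fin N → R) :
    pol c - pol d = pol fun j => c j - d j := by
  unfold pol
  rw [← Finset.sum_sub_distrib]
  refine Finset.sum_congr rfl fun j _ => ?_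
  rw [C_sub, sub_mul]

section count

variable {p : ℕ} [Fact p.Prime] {N : ℕ}

lemma X_ne (c : ZMod p) (h : (ZMod p)[X]) : (X : (ZMod p)[X]) ≠ C c * h ^ 2 := by
  intro he
  have h1 := congrArg natDegree he
  by_cases hc : c = 0
  · rw [hc, C_0, zero_mul] at he
    exact X_ne_zero he
  · rw [natDegree_X, natDegree_C_mul hc, natDegree_pow] at h1
    omega

/-- many polynomials have two distinct simple roots -/
lemma card_two (hp : 1600 ≤ p) (m : ℕ) :
    (1 / (32 * (m + 2) ^ 2 : ℝ)) * (p : ℝ) ^ (m + 3) ≤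
      ((Finset.univ.filter fun c : Fin (m + 3) → ZMod p => ∃ r r' : ZMod p, r ≠ r' ∧
        (pol c).eval r = 0 ∧ (pol c).eval r' = 0 ∧ (derivative (pol c)).eval r ≠ 0 ∧
        (derivative (pol c)).eval r' ≠ 0).card : ℝ) := by
  refine (card_pairObs (f := (X : (ZMod p)[X])) (d := 1) (by omega) (by rw [natDegree_X])
    (by rw [natDegree_X]) X_ne (by omega) m).trans ?_
  have h1 : {c : Fin (m + 3) → ZMod p | PairObs (X : (ZMod p)[X]) c}.ncard ≤
      (Finset.univ.filter fun c : Fin (m + 3) → ZMod p => ∃ r r' : ZMod p, r ≠ r' ∧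
        (pol c).eval r = 0 ∧ (pol c).eval r' = 0 ∧ (derivative (pol c)).eval r ≠ 0 ∧
        (derivative (pol c)).eval r' ≠ 0).card := by
    rw [← Set.ncard_coe_finset]
    refine Set.ncard_le_ncard ?_ (Set.toFinite _)
    rintro c ⟨r, r', h1, h2, h3, h4, h5⟩
    rw [Finset.mem_coe, Finset.mem_filter]
    refine ⟨Finset.mem_univ _, r, r', ?_, h1, h2, h3, h4⟩
    rintro rfl
    rw [eval_X] at h5
    by_cases hr : r = 0
    · rw [hr, mul_zero, MulChar.map_zero] at h5
      norm_num at h5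
    · have h6 : quadraticChar (ZMod p) (r * r) = 1 := by
        rw [← sq]
        exact quadraticChar_sq_one' hr
      rw [h6] at h5
      norm_num at h5
  exact_mod_cast h1

/-- the values at two points -/
noncomputable def ev2 (N m : ℕ) (r r' : ZMod p) :
    (Fin N × Fin (m + 3) → ZMod p) →+ (Fin N → ZMod p) × (Fin N → ZMod p) where
  toFun c := (fun i => (pol fun j => c (i, j)).eval r, fun i => (pol fun j => c (i, j)).eval r')
  map_zero' := by
    refine Prod.ext ?_ ?_ <;> funext i <;> simp [pol_eval]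
  map_add' c d := by
    refine Prod.ext ?_ ?_ <;> funext i <;> simp [pol_eval, add_mul, Finset.sum_add_distrib]

lemma ev2_surj {m : ℕ} {r r' : ZMod p} (hr : r ≠ r') : Function.Surjective (ev2 N m r r') := by
  rintro ⟨u, w⟩
  let g : Fin N → (ZMod p)[X] := fun i =>
    C ((u i - w i) / (r - r')) * (X - C r) + C (u i)
  have hg : ∀ i, (g i).natDegree ≤ m + 2 := by
    intro i
    refine (natDegree_add_le _ _).trans (max_le ?_ ?_)
    · refine natDegree_mul_le.trans ?_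
      rw [natDegree_C, zero_add]
      refine (natDegree_X_sub_C_le _).trans (by omega)
    · rw [natDegree_C]
      omega
  refine ⟨fun q => (g q.1).coeff q.2, ?_⟩
  have h1 : ∀ i, pol (fun j : Fin (m + 3) => (g i).coeff j) = g i := fun i => pol_of (hg i)
  have hrr : r - r' ≠ 0 := sub_ne_zero.2 hr
  refine Prod.ext ?_ ?_
  · funext i
    show (pol fun j : Fin (m + 3) => (g i).coeff j).eval r = u i
    rw [h1]
    simp [g]
  · funext i
    show (pol fun j : Fin (m + 3) => (g i).coeff j).eval r' = w i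
    rw [h1]
    simp only [g, eval_add, eval_mul, eval_sub, eval_C, eval_X]
    field_simp
    ring

/-- many tuples are obstructed -/
theorem card_sObs {ℓ : ℕ} (hℓ : ℓ.Prime) (hex : ∃ γ : ZMod p, NP ℓ γ) {s : Fin N × Fin N → ℕ}
    (hs : ∀ q : Fin N × Fin N, ¬ q.1 < q.2 → s q = 0) {q0 : Fin N × Fin N} (hq0 : ¬ ℓ ∣ s q0)
    (hp : 1600 ≤ p) (hN : 4 * N + 6 ≤ p) (hN2 : 2 * (N * N) ≤ p) (m : ℕ) :
    (1 / (2048 * (m + 2) ^ 2 : ℝ)) * (p : ℝ) ^ Fintype.card (Fin (N + 1) × Fin (m + 3)) ≤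
      (({c : Fin (N + 1) × Fin (m + 3) → ZMod p |
        PObs ℓ (fs s fun i => gp c i.succ) fun j => c (0, j)}.ncard : ℕ) : ℝ) := by
  set A : Finset (Fin (m + 3) → ZMod p) :=
    Finset.univ.filter fun c : Fin (m + 3) → ZMod p => ∃ r r' : ZMod p, r ≠ r' ∧
        (pol c).eval r = 0 ∧ (pol c).eval r' = 0 ∧ (derivative (pol c)).eval r ≠ 0 ∧
        (derivative (pol c)).eval r' ≠ 0 with hA
  have hAc := card_two hp m
  rw [← hA] at hAc
  let S : (Fin (m + 3) → ZMod p) → (Fin N × Fin (m + 3) → ZMod p) → Prop := fun c0 c' =>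
    ∃ r r' : ZMod p, (pol c0).eval r = 0 ∧ (pol c0).eval r' = 0 ∧
      (derivative (pol c0)).eval r ≠ 0 ∧ (derivative (pol c0)).eval r' ≠ 0 ∧
      fs s (fun i => (pol fun j => c' (i, j)).eval r) ≠ 0 ∧
      fs s (fun i => (pol fun j => c' (i, j)).eval r') ≠ 0 ∧
      ∀ y, fs s (fun i => (pol fun j => c' (i, j)).eval r) ≠
        y ^ ℓ * fs s (fun i => (pol fun j => c' (i, j)).eval r')
  have hS : ∀ c0 ∈ A, (1 / 64 : ℝ) * (p : ℝ) ^ (N * (m + 3)) ≤
      ((Finset.univ.filter fun c' : Fin N × Fin (m + 3) → ZMod p => S c0 c').card : ℝ) := by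
    intro c0 hc0
    rw [hA, Finset.mem_filter] at hc0
    obtain ⟨-, r, r', hr, h1, h2, h3, h4⟩ := hc0
    have hcard := card_pairs (F := ZMod p) hℓ hex hs hq0 (by rw [ZMod.card]; exact hN)
      (by rw [ZMod.card]; exact hN2)
    rw [ZMod.card] at hcard
    set Z : Set ((Fin N → ZMod p) × (Fin N → ZMod p)) := {z | fs s z.1 ≠ 0 ∧ fs s z.2 ≠ 0 ∧
        ∀ y, fs s z.1 ≠ y ^ ℓ * fs s z.2} with hZ
    have hZc : Z.ncard = (Finset.univ.filter fun z : (Fin N → ZMod p) × (Fin N → ZMod p) =>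
        fs s z.1 ≠ 0 ∧ fs s z.2 ≠ 0 ∧ ∀ y, fs s z.1 ≠ y ^ ℓ * fs s z.2).card := by
      rw [← Set.ncard_coe_finset]
      congr 1
      ext z
      simp [hZ]
    have h5 := proportion (ev2 N m r r') (ev2_surj hr) Z (δ := 1 / 64)
      (Ω := {c' | S c0 c'}) (by
        rw [Fintype.card_prod, Fintype.card_fun, ZMod.card, Fintype.card_fin, hZc]
        have h6 : ((p ^ N * p ^ N : ℕ) : ℝ) ≤ ((64 * (Finset.univ.filter fun z :
          (Fin N → ZMod p) × (Fin N → ZMod p) =>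
            fs s z.1 ≠ 0 ∧ fs s z.2 ≠ 0 ∧ ∀ y, fs s z.1 ≠ y ^ ℓ * fs s z.2).card : ℕ) : ℝ) := by
          exact_mod_cast hcard
        rw [Nat.cast_mul 64] at h6
        push_cast at h6 ⊢
        linarith) (fun c' hc' => ⟨r, r', h1, h2, h3, h4, hc'⟩)
    rw [Fintype.card_fun, ZMod.card, Fintype.card_prod, Fintype.card_fin, Fintype.card_fin,
      Nat.cast_pow] at h5
    refine h5.trans (le_of_eq ?_)
    rw [← Set.ncard_coe_finset]
    congr 2
    ext c'
    simp
  have h1 : ∑ c0 ∈ A, (Finset.univ.filter fun c' : Fin N × Fin (m + 3) → ZMod p =>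
      S c0 c').card ≤ {c : Fin (N + 1) × Fin (m + 3) → ZMod p |
        PObs ℓ (fs s fun i => gp c i.succ) fun j => c (0, j)}.ncard := by
    rw [← Finset.card_sigma, ← Set.ncard_coe_finset]
    let ψ : (Σ _ : Fin (m + 3) → ZMod p, (Fin N × Fin (m + 3) → ZMod p)) →
        (Fin (N + 1) × Fin (m + 3) → ZMod p) := fun z q =>
      Fin.cases (z.1 q.2) (fun i => z.2 (i, q.2)) q.1
    have hψ : Function.Injective ψ := by
      rintro ⟨a, b⟩ ⟨a', b'⟩ h
      have e1 : a = a' := by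
        funext j
        exact congrFun h (0, j)
      have e2 : b = b' := by
        funext q
        exact congrFun h (q.1.succ, q.2)
      rw [e1, e2]
    rw [← Set.ncard_image_of_injective _ hψ]
    refine Set.ncard_le_ncard ?_ (Set.toFinite _)
    rintro _ ⟨z, hz, rfl⟩
    rw [Finset.mem_coe, Finset.mem_sigma] at hz
    obtain ⟨r, r', h1, h2, h3, h4, h5, h6, h7⟩ := (Finset.mem_filter.1 hz.2).2
    have hev : ∀ t : ZMod p, (fs s fun i => gp (ψ z) i.succ).eval t =
        fs s fun i => (pol fun j => z.2 (i, j)).eval t := fun t =>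
      fs_map (evalRingHom t) s _
    refine ⟨r, r', h1, h2, h3, h4, ?_, ?_, ?_⟩
    · rw [hev]; exact h5
    · rw [hev]; exact h6
    · intro y
      rw [hev, hev]
      exact h7 y
  have h2 : ((∑ c0 ∈ A, (Finset.univ.filter fun c' : Fin N × Fin (m + 3) → ZMod p =>
      S c0 c').card : ℕ) : ℝ) ≤ (({c : Fin (N + 1) × Fin (m + 3) → ZMod p |
        PObs ℓ (fs s fun i => gp c i.succ) fun j => c (0, j)}.ncard : ℕ) : ℝ) := by
    exact_mod_cast h1
  refine le_trans ?_ h2
  rw [Nat.cast_sum]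
  have h3 : (A.card : ℝ) * ((1 / 64 : ℝ) * (p : ℝ) ^ (N * (m + 3))) ≤
      ∑ c0 ∈ A, ((Finset.univ.filter fun c' : Fin N × Fin (m + 3) → ZMod p =>
        S c0 c').card : ℝ) := by
    rw [← nsmul_eq_mul, ← Finset.sum_const]
    exact Finset.sum_le_sum fun c0 hc0 => hS c0 hc0
  refine le_trans ?_ h3
  have h4 : (0 : ℝ) ≤ (1 / 64 : ℝ) * (p : ℝ) ^ (N * (m + 3)) := by positivity
  refine le_trans (le_of_eq ?_) (mul_le_mul_of_nonneg_right hAc h4)
  have h5 : (1 / (2048 * (m + 2) ^ 2 : ℝ)) = (1 / (32 * (m + 2) ^ 2 : ℝ)) * (1 / 64) := by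
    rw [div_mul_div_comm, one_mul]
    congr 1
    ring
  rw [Fintype.card_prod, Fintype.card_fin, Fintype.card_fin, Nat.add_mul, one_mul, pow_add, h5]
  ring

/-- the projection to the first polynomial -/
def prj0 (N m : ℕ) : (Fin (N + 1) × Fin (m + 3) → ZMod p) →+ (Fin (m + 3) → ZMod p) where
  toFun c := fun j => c (0, j)
  map_zero' := rfl
  map_add' _ _ := rfl

lemma prj0_surj {m : ℕ} : Function.Surjective (prj0 (p := p) N m) := fun u =>
  ⟨fun q => u q.2, rfl⟩

/-- the difference of two polynomials -/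
def prjd (N m : ℕ) (a b : Fin N) :
    (Fin (N + 1) × Fin (m + 3) → ZMod p) →+ (Fin (m + 3) → ZMod p) where
  toFun c := fun j => c (a.succ, j) - c (b.succ, j)
  map_zero' := by funext j; simp
  map_add' c d := by
    funext j
    simp only [Pi.add_apply]
    ring

lemma prjd_surj {m : ℕ} {a b : Fin N} (h : a ≠ b) :
    Function.Surjective (prjd (p := p) N m a b) := fun u => by
  refine ⟨fun q => if q.1 = a.succ then u q.2 else 0, ?_⟩
  funext j
  show (if a.succ = a.succ then u j else 0) - (if b.succ = a.succ then u j else 0) = u j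
  rw [if_pos rfl, if_neg fun h' => h (Fin.succ_injective _ h').symm, sub_zero]

end count

end Pool.Agent.R431.SG
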