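import Mathlib

/-!
# Values of products of differences modulo powers
-/

set_option autoImplicit false
set_option linter.all false

open scoped Classical

namespace Pool.Agent.R431.SG

open Finset

section pow

variable {F : Type} [Field F] [Fintype F] {ℓ : ℕ}

/-- not an `ℓ`-th power -/
def NP (ℓ : ℕ) {F : Type} [Field F] (x : F) : Prop := ∀ y : F, x ≠ y ^ ℓ

lemma exists_np (hℓ : ℓ ≠ 0) {z : F} (h1 : z ^ ℓ = 1) (h2 : z ≠ 1) : ∃ γ : F, NP ℓ γ := by
  by_contra hcon
  have hsurj : Function.Surjective (fun x : F => x ^ ℓ) := by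
    intro x
    by_contra h
    apply hcon
    refine ⟨x, fun y hy => h ⟨y, hy.symm⟩⟩
  have hinj := Finite.injective_iff_surjective.2 hsurj
  exact h2 (hinj (by simp [h1]))

lemma NP.ne_zero (hℓ : ℓ ≠ 0) {x : F} (h : NP ℓ x) : x ≠ 0 := by
  rintro rfl
  exact h 0 (by rw [zero_pow hℓ])

lemma np_pow (hℓ : ℓ.Prime) {γ : F} (h : NP ℓ γ) {s : ℕ} (hs : ¬ ℓ ∣ s) (y : F) : γ ^ s ≠ y ^ ℓ := by
  intro hy
  have hγ := h.ne_zero hℓ.ne_zero
  have hy0 : y ≠ 0 := by
    rintro rfl
    rw [zero_pow hℓ.ne_zero] at hy
    exact hγ (pow_eq_zero_iff (by rintro rfl; exact hs (dvd_zero _)) |>.1 hy)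
  have hcop : IsCoprime (s : ℤ) (ℓ : ℤ) :=
    Nat.isCoprime_iff_coprime.2 ((Nat.Prime.coprime_iff_not_dvd hℓ).2 hs).symm
  obtain ⟨a, b, hab⟩ := hcop
  apply h (y ^ a * γ ^ b)
  have e1 : γ = γ ^ (a * s + b * ℓ : ℤ) := by rw [hab, zpow_one]
  rw [mul_pow, ← zpow_natCast (y ^ a), ← zpow_natCast (γ ^ b), ← zpow_mul, ← zpow_mul,
    mul_comm a (ℓ : ℤ), zpow_mul, zpow_natCast, ← hy]
  conv_lhs => rw [e1]
  rw [zpow_add₀ hγ, mul_comm a (s : ℤ), zpow_mul, zpow_natCast]

/-- at least half of the elements are not in a given class of powers -/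
lemma card_np (hℓ : ℓ.Prime) (hex : ∃ γ : F, NP ℓ γ) {s : ℕ} (hs : ¬ ℓ ∣ s) {B : F} (hB : B ≠ 0) :
    Fintype.card F ≤ 2 * (univ.filter fun v : F => v ≠ 0 ∧ NP ℓ (v ^ s * B)).card + 1 := by
  obtain ⟨γ, hγ⟩ := hex
  have hγ0 := hγ.ne_zero hℓ.ne_zero
  set A := univ.filter fun v : F => v ≠ 0 ∧ NP ℓ (v ^ s * B) with hA
  set Z := univ.filter fun v : F => v ≠ 0 ∧ ¬ NP ℓ (v ^ s * B) with hZ
  have h1 : Z.card ≤ A.card := by
    refine Finset.card_le_card_of_injOn (fun v => γ * v) ?_ ?_
    · intro v hv
      rw [Finset.mem_coe, hZ, mem_filter] at hv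
      obtain ⟨-, hv0, hv1⟩ := hv
      unfold NP at hv1
      push Not at hv1
      obtain ⟨y, hy⟩ := hv1
      rw [Finset.mem_coe, hA, mem_filter]
      refine ⟨mem_univ _, mul_ne_zero hγ0 hv0, ?_⟩
      intro y' hy'
      have hy0 : y ≠ 0 := by
        rintro rfl
        rw [zero_pow hℓ.ne_zero] at hy
        exact mul_ne_zero (pow_ne_zero _ hv0) hB hy
      apply np_pow hℓ hγ hs (y' / y)
      rw [div_pow, eq_div_iff (pow_ne_zero _ hy0), ← hy, ← hy']
      ring
    · intro v _ w _ h
      exact mul_left_cancel₀ hγ0 h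
  have h2 : Z.card + A.card = (univ.filter fun v : F => v ≠ 0).card := by
    rw [← Finset.card_filter_add_card_filter_not (s := univ.filter fun v : F => v ≠ 0)
      (fun v => ¬ NP ℓ (v ^ s * B)), Finset.filter_filter, Finset.filter_filter]
    simp only [not_not]
    rw [hZ, hA]
  have h3 : (univ.filter fun v : F => v ≠ 0).card + 1 = Fintype.card F := by
    rw [Finset.filter_ne' univ (0 : F), Finset.card_erase_of_mem (mem_univ _), card_univ]
    have : 0 < Fintype.card F := Fintype.card_pos
    omega
  omega

end pow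

section upd

variable {N : ℕ} {F : Type} [Fintype F] [DecidableEq F]

/-- exchange of a coordinate -/
def xch (i : Fin N) : (Fin N → F) × F ≃ (Fin N → F) × F where
  toFun z := (Function.update z.1 i z.2, z.1 i)
  invFun z := (Function.update z.1 i z.2, z.1 i)
  left_inv z := by
    refine Prod.ext ?_ ?_
    · simp
    · simp
  right_inv z := by
    refine Prod.ext ?_ ?_
    · simp
    · simp

lemma card_upd (i : Fin N) (P : (Fin N → F) → Prop) :
    (univ.filter fun z : (Fin N → F) × F => P (Function.update z.1 i z.2)).card =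
      (univ.filter fun u : Fin N → F => P u).card * Fintype.card F := by
  have h1 : (univ.filter fun z : (Fin N → F) × F => P (Function.update z.1 i z.2)).card =
      (univ.filter fun z : (Fin N → F) × F => P z.1).card := by
    refine Finset.card_bij (fun z _ => xch i z) ?_ ?_ ?_
    · intro z hz
      rw [mem_filter] at hz ⊢
      exact ⟨mem_univ _, hz.2⟩
    · intro z _ w _ h
      exact (xch i).injective h
    · intro z hz
      rw [mem_filter] at hz
      refine ⟨(xch i).symm z, ?_, Equiv.apply_symm_apply _ _⟩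
      rw [mem_filter]
      refine ⟨mem_univ _, ?_⟩
      have : ((xch i) ((xch i).symm z)).1 = z.1 := by rw [Equiv.apply_symm_apply]
      rw [← this] at hz
      exact hz.2
  rw [h1]
  have h2 : (univ.filter fun z : (Fin N → F) × F => P z.1) =
      (univ.filter fun u : Fin N → F => P u) ×ˢ (univ : Finset F) := by
    ext z
    simp
  rw [h2, card_product, card_univ]

end upd

section inj

variable {N : ℕ} {F : Type} [Fintype F]

/-- almost all tuples have distinct entries -/
lemma card_noninj (N : ℕ) :
    (univ.filter fun u : Fin N → F => ¬ Function.Injective u).card * Fintype.card F ≤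
      N * N * Fintype.card F ^ N := by
  have h1 : (univ.filter fun u : Fin N → F => ¬ Function.Injective u) ⊆
      (univ : Finset (Fin N × Fin N)).biUnion fun q => univ.filter fun u : Fin N → F =>
        q.1 ≠ q.2 ∧ u q.1 = u q.2 := by
    intro u hu
    rw [mem_filter] at hu
    have h2 := hu.2
    unfold Function.Injective at h2
    push Not at h2
    obtain ⟨a, b, hab, hne⟩ := h2
    rw [mem_biUnion]
    exact ⟨(a, b), mem_univ _, mem_filter.2 ⟨mem_univ _, hne, hab⟩⟩
  have h2 : ∀ q : Fin N × Fin N, (univ.filter fun u : Fin N → F =>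
      q.1 ≠ q.2 ∧ u q.1 = u q.2).card * Fintype.card F ≤ Fintype.card F ^ N := by
    intro q
    by_cases hq : q.1 = q.2
    · have : (univ.filter fun u : Fin N → F => q.1 ≠ q.2 ∧ u q.1 = u q.2) = ∅ := by
        ext u
        simp [hq]
      rw [this, card_empty, zero_mul]
      exact Nat.zero_le _
    · have h3 : Fintype.card F ^ N = (univ : Finset (Fin N → F)).card := by
        rw [card_univ, Fintype.card_fun, Fintype.card_fin]
      rw [h3, ← card_univ (α := F), ← card_product]
      refine Finset.card_le_card_of_injOn (fun z => Function.update z.1 q.1 z.2) ?_ ?_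
      · intro z _
        exact mem_univ _
      · intro z hz w hw h
        rw [Finset.mem_coe, mem_product, mem_filter] at hz hw
        have h4 : ∀ j, j ≠ q.1 → z.1 j = w.1 j := by
          intro j hj
          have := congrFun h j
          simpa [Function.update_of_ne hj] using this
        have h5 : z.2 = w.2 := by
          have := congrFun h q.1
          simpa using this
        refine Prod.ext ?_ h5
        funext j
        by_cases hj : j = q.1
        · rw [hj, hz.1.2.2, hw.1.2.2]
          exact h4 _ (Ne.symm hq)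
        · exact h4 j hj
  calc (univ.filter fun u : Fin N → F => ¬ Function.Injective u).card * Fintype.card F
      ≤ (∑ q : Fin N × Fin N, (univ.filter fun u : Fin N → F =>
        q.1 ≠ q.2 ∧ u q.1 = u q.2).card) * Fintype.card F :=
        Nat.mul_le_mul_right _ ((card_le_card h1).trans card_biUnion_le)
    _ = ∑ q : Fin N × Fin N, (univ.filter fun u : Fin N → F =>
        q.1 ≠ q.2 ∧ u q.1 = u q.2).card * Fintype.card F := Finset.sum_mul _ _ _
    _ ≤ ∑ q : Fin N × Fin N, Fintype.card F ^ N := Finset.sum_le_sum fun q _ => h2 q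
    _ = N * N * Fintype.card F ^ N := by
        rw [Finset.sum_const, card_univ, Fintype.card_prod, Fintype.card_fin, smul_eq_mul]

lemma card_inj (N : ℕ) (hF : 2 * (N * N) ≤ Fintype.card F) :
    Fintype.card F ^ N ≤ 2 * (univ.filter fun u : Fin N → F => Function.Injective u).card := by
  have h1 := card_noninj (F := F) N
  have h2 : (univ.filter fun u : Fin N → F => Function.Injective u).card +
      (univ.filter fun u : Fin N → F => ¬ Function.Injective u).card = Fintype.card F ^ N := by
    rw [Finset.card_filter_add_card_filter_not, card_univ, Fintype.card_fun, Fintype.card_fin]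
  by_cases h0 : Fintype.card F = 0
  · have : N = 0 := by
      by_contra hN
      have : 0 < N * N := Nat.mul_pos (Nat.pos_of_ne_zero hN) (Nat.pos_of_ne_zero hN)
      omega
    subst this
    simp only [pow_zero]
    have : 0 < (univ.filter fun u : Fin 0 → F => Function.Injective u).card := by
      rw [Finset.card_pos]
      exact ⟨fun i => i.elim0, mem_filter.2 ⟨mem_univ _, fun i => i.elim0⟩⟩
    omega
  · have h3 : 2 * (univ.filter fun u : Fin N → F => ¬ Function.Injective u).card ≤
        Fintype.card F ^ N := by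
      have h4 : 2 * (univ.filter fun u : Fin N → F => ¬ Function.Injective u).card *
          Fintype.card F ≤ Fintype.card F ^ N * Fintype.card F := by
        calc 2 * (univ.filter fun u : Fin N → F => ¬ Function.Injective u).card *
            Fintype.card F = 2 * ((univ.filter fun u : Fin N → F =>
              ¬ Function.Injective u).card * Fintype.card F) := by ring
          _ ≤ 2 * (N * N * Fintype.card F ^ N) := Nat.mul_le_mul_left _ h1
          _ = 2 * (N * N) * Fintype.card F ^ N := by ring
          _ ≤ Fintype.card F * Fintype.card F ^ N := Nat.mul_le_mul_right _ hF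
          _ = _ := Nat.mul_comm _ _
      exact Nat.le_of_mul_le_mul_right h4 (Nat.pos_of_ne_zero h0)
    omega

end inj

end Pool.Agent.R431.SG
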