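import Pool.Agent.R431.SG.ModelL
import Pool.Agent.R431.SG.CstL
import Pool.Agent.R431.SG.Cnt2

/-!
# Almost all twists, for all prime exponents
-/

set_option autoImplicit false
set_option linter.all false

open scoped Classical

namespace Pool.Agent.R431.SG

open Polynomial NumberField IsDedekindDomain Pool.Agent.Y713

/-- the exponents of an index -/
noncomputable def xp {k : Type} [Field k] {T : Finset k[X]} {ℓ : ℕ}
    (a : {π // π ∈ T} → Fin ℓ) (π : k[X]) : ℕ :=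
  if h : π ∈ T then (a ⟨π, h⟩ : ℕ) else 0

theorem all_obsL {k : Type} [Field k] [NumberField k] {T : Finset k[X]} {ℓ : ℕ}
    (hℓ : ℓ.Prime) {N : ℕ}
    {c : Fin N → 𝓞 k} (hD : Irreducible (pol fun j => algebraMap (𝓞 k) k (c j)))
    (f : (k[X] → ℕ) → (𝓞 k)[X]) (e : (k[X] → ℕ) → k) (he : ∀ s, e s ≠ 0)
    (hf : ∀ s, (f s).map (algebraMap (𝓞 k) k) = C (e s) * ∏ π ∈ T, π ^ s π)
    (hobs : ∀ a : {π // π ∈ T} → Fin ℓ, (∃ π ∈ T, xp a π ≠ 0) →
      ∃ (p : ℕ) (h : Fact p.Prime) (σ : 𝓞 k →+* ℤ_[p]),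
        PObs ℓ ((f (xp a)).map (red σ)) (fun j => red σ (c j))) :
    (∀ π ∈ T, ¬ (pol fun j => algebraMap (𝓞 k) k (c j)) ∣ π) ∧
      ∀ (b : k) (a : k[X] → ℕ) (z : k[X]), b ≠ 0 →
        (pol fun j => algebraMap (𝓞 k) k (c j)) ∣ C b * ∏ π ∈ T, π ^ a π - z ^ ℓ →
        ∀ π ∈ T, ℓ ∣ a π := by
  -- the general principle
  have main : ∀ (s : k[X] → ℕ), (∀ π, s π < ℓ) → (∃ π ∈ T, s π ≠ 0) → ∀ (b : k) (W z : k[X]),
      b ≠ 0 → IsCoprime (pol fun j => algebraMap (𝓞 k) k (c j)) W →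
      ¬ (pol fun j => algebraMap (𝓞 k) k (c j)) ∣ C b * ((∏ π ∈ T, π ^ s π) * W ^ ℓ) - z ^ ℓ := by
    intro s hs hne b W z hb hW hd
    set a : {π // π ∈ T} → Fin ℓ := fun π => ⟨s π, hs π⟩ with ha
    have hx : ∀ π ∈ T, xp a π = s π := by
      intro π hπ
      unfold xp
      rw [dif_pos hπ]
    obtain ⟨π1, hπ1, hne1⟩ := hne
    obtain ⟨p, hp, σ, ho⟩ := hobs a ⟨π1, hπ1, by rw [hx π1 hπ1]; exact hne1⟩
    refine pair_contraL hℓ.ne_zero σ ho (W := W) (z := z) (a := b / e (xp a))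
      (div_ne_zero hb (he _)) hW ?_
    have h1 : C (b / e (xp a)) * ((f (xp a)).map (algebraMap (𝓞 k) k) * W ^ ℓ) =
        C b * ((∏ π ∈ T, π ^ s π) * W ^ ℓ) := by
      rw [hf, Finset.prod_congr rfl fun π hπ => by rw [hx π hπ]]
      have h2 : C (b / e (xp a)) * C (e (xp a)) = C b := by
        rw [← C_mul, div_mul_cancel₀ _ (he _)]
      rw [← h2]
      ring
    rw [h1]
    exact hd
  have h1 : ∀ π ∈ T, ¬ (pol fun j => algebraMap (𝓞 k) k (c j)) ∣ π := by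
    intro π hπ hd
    refine main (fun π' => if π' = π then 1 else 0) ?_ ⟨π, hπ, by simp⟩ 1 1 0 one_ne_zero
      isCoprime_one_right ?_
    · intro π'
      have := hℓ.two_le
      split_ifs <;> omega
    · have h2 : ∏ π' ∈ T, π' ^ (if π' = π then 1 else 0) = π := by
        rw [Finset.prod_eq_single π]
        · simp
        · intro π' _ h
          simp [h]
        · intro h
          exact absurd hπ h
      rw [h2, C_1, one_mul, one_pow, mul_one, zero_pow hℓ.ne_zero, sub_zero]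
      exact hd
  refine ⟨h1, ?_⟩
  intro b a z hb hdvd
  by_contra hcon
  push Not at hcon
  obtain ⟨π0, hπ0, hna⟩ := hcon
  refine main (fun π => a π % ℓ) (fun π => Nat.mod_lt _ hℓ.pos)
    ⟨π0, hπ0, fun h => hna (Nat.dvd_of_mod_eq_zero h)⟩ b (∏ π ∈ T, π ^ (a π / ℓ)) z hb ?_ ?_
  · refine IsCoprime.prod_right fun π hπ => IsCoprime.pow_right ?_
    exact (hD.coprime_iff_not_dvd).2 (h1 π hπ)
  · have h2 : (∏ π ∈ T, π ^ (a π % ℓ)) * (∏ π ∈ T, π ^ (a π / ℓ)) ^ ℓ =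
        ∏ π ∈ T, π ^ a π := by
      rw [← Finset.prod_pow, ← Finset.prod_mul_distrib]
      refine Finset.prod_congr rfl fun π _ => ?_
      rw [← pow_mul, ← pow_add]
      congr 1
      rw [mul_comm (a π / ℓ)]
      exact Nat.mod_add_div _ _
    rw [h2]
    exact hdvd

/-- **Almost all twists, for every prime exponent.** -/
theorem twists_mainL {k : Type} [Field k] [NumberField k] {J : Type} [Fintype J]
    (B : Module.Basis J ℤ (𝓞 k)) {ℓ : ℕ} (hℓ : ℓ.Prime) {ζ : k} (hζ : IsPrimitiveRoot ζ ℓ)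
    {F : (RatFunc k)[X]} (hs : F.Splits) (hsep : F.Separable)
    (hdeg : ¬ ℓ ∣ F.natDegree) {n : ℕ} (hn : 2 ≤ n) (hn3 : n = 2 → ℓ ≠ 2) {η : ℝ}
    (hη : 0 < η) :
    ∃ H0 : ℕ, ∀ H : ℕ, H0 ≤ H →
      (({c : Fin (n + 1) → 𝓞 k | (∀ i j, |B.repr (c i) j| ≤ (H : ℤ)) ∧
        ¬ Jac.ShaPrimaryTrivial ℓ (C (algebraMap k[X] (RatFunc k)
          (pol fun j => algebraMap (𝓞 k) k (c j))) * F) k[X]}.ncard : ℕ) : ℝ) ≤
        η * (2 * H + 1) ^ ((n + 1) * Fintype.card J) := by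
  obtain ⟨m, rfl⟩ : ∃ m, n = m + 2 := ⟨n - 2, by omega⟩
  obtain ⟨ζ', hζ'⟩ : ∃ ζ' : 𝓞 k, IsPrimitiveRoot ζ' ℓ := by
    have hint : IsIntegral ℤ ζ := hζ.isIntegral hℓ.pos
    refine ⟨⟨ζ, hint⟩, ?_⟩
    refine IsPrimitiveRoot.of_map_of_injective (f := algebraMap (𝓞 k) k) ?_
      (FaithfulSMul.algebraMap_injective _ _)
    exact hζ
  obtain ⟨T, hT, hcrit⟩ := twist_crit (RatFunc k) hℓ
    (by exact_mod_cast hℓ.ne_zero) hζ hs hsep hdeg
  -- the models
  have hinj : Function.Injective (algebraMap (𝓞 k) k) := FaithfulSMul.algebraMap_injective _ _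
  have hmod : ∀ s : k[X] → ℕ, ∃ (f : (𝓞 k)[X]) (e : k), e ≠ 0 ∧
      f.map (algebraMap (𝓞 k) k) = C e * ∏ π ∈ T, π ^ s π ∧
      ((∃ π0 ∈ T, Nat.Coprime (s π0) ℓ) →
      ∃ (k' : Type) (_ : Field k') (_ : NumberField k') (ι : 𝓞 k →+* 𝓞 k') (p0 : ℕ),
        ∀ (p : ℕ) [Fact p.Prime] (σ : 𝓞 k' →+* ℤ_[p]), p0 ≤ p →
          1 ≤ (f.map (red (σ.comp ι))).natDegree ∧
            Pool.Agent.H435R3.Weil.Cop ℓ (f.map (red (σ.comp ι)))) := by
    intro s
    by_cases hex : ∃ π0 ∈ T, Nat.Coprime (s π0) ℓ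
    · obtain ⟨π0, hπ0, hco⟩ := hex
      obtain ⟨f, e, he, hf, hk⟩ := model hT hℓ s hπ0 hco
      exact ⟨f, e, he, hf, fun _ => hk⟩
    · obtain ⟨f, d, hd, hf⟩ := clear (∏ π ∈ T, π ^ s π)
      refine ⟨f, algebraMap (𝓞 k) k d, ?_, hf, fun h => absurd h hex⟩
      rw [Ne, map_eq_zero_iff _ hinj]
      exact hd
  choose f e he hf hk using hmod
  let Nob : Bool ⊕ ({π // π ∈ T} → Fin ℓ) → (Fin (m + 3) → 𝓞 k) → Prop := fun S c =>
    match S with
    | Sum.inl true => NoObs (RingHom.id (𝓞 k)) 2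
        (fun p _ _ => {c | (pol c).natDegree = m + 2 ∧ Irreducible (pol c)}) c
    | Sum.inl false => 1 ≤ m ∧ NoObs (RingHom.id (𝓞 k)) 2
        (fun p _ _ => {c | ∃ (r : ZMod p) (g : (ZMod p)[X]), pol c = (X - C r) * g ∧
          g.natDegree = m + 1 ∧ Irreducible g}) c
    | Sum.inr a => (∃ π ∈ T, xp a π ≠ 0) ∧ ∀ (p : ℕ) [Fact p.Prime] (σ : 𝓞 k →+* ℤ_[p]),
        ¬ PObs ℓ ((f (xp a)).map (red σ)) (fun j => red σ (c j))
  have hδ0 : (0 : ℝ) < 1 / (32 * (m + 2) ^ 2) := by positivity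
  have hδ1 : (1 : ℝ) / (32 * (m + 2) ^ 2) ≤ 1 := d1 m
  have hdens : ∀ S ∈ (Finset.univ : Finset (Bool ⊕ ({π // π ∈ T} → Fin ℓ))), ∀ η : ℝ, 0 < η →
      ∃ H0 : ℕ, ∀ H : ℕ, H0 ≤ H →
      (({c : Fin (m + 3) → 𝓞 k | (∀ i j, |B.repr (c i) j| ≤ (H : ℤ)) ∧ Nob S c}.ncard : ℕ) : ℝ) ≤
        η * (2 * H + 1) ^ (Fintype.card (Fin (m + 3)) * Fintype.card J) := by
    intro S _ η' hη'
    rcases S with (_ | _) | a
    · by_cases hm2 : 1 ≤ m
      · obtain ⟨H0, hH0⟩ := densG_one B (I := Fin (m + 3)) (RingHom.id (𝓞 k)) hδ0 hδ1 2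
          (fun p _ _ => {c | ∃ (r : ZMod p) (g : (ZMod p)[X]), pol c = (X - C r) * g ∧
            g.natDegree = m + 1 ∧ Irreducible g}) (by
            intro p _ σ hp
            rw [Fintype.card_fin]
            have h1 := card_fac2 p (m := m + 1) (by omega)
            refine le_trans ?_ h1
            exact mul_le_mul_of_nonneg_right (d2 m) (by positivity)) hη'
        refine ⟨H0, fun H hH => le_trans ?_ (hH0 H hH)⟩
        have h1 : {c : Fin (m + 3) → 𝓞 k | (∀ i j, |B.repr (c i) j| ≤ (H : ℤ)) ∧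
            Nob (Sum.inl false) c}.ncard ≤
            {c : Fin (m + 3) → 𝓞 k | (∀ i j, |B.repr (c i) j| ≤ (H : ℤ)) ∧
              NoObs (RingHom.id (𝓞 k)) 2 (fun p _ _ => {c | ∃ (r : ZMod p) (g : (ZMod p)[X]),
                pol c = (X - C r) * g ∧ g.natDegree = m + 1 ∧ Irreducible g}) c}.ncard := by
          refine Set.ncard_le_ncard ?_ ((box_fin B H).subset fun c hc => hc.1)
          rintro c ⟨hc1, hc2⟩
          exact ⟨hc1, hc2.2⟩
        exact_mod_cast h1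
      · refine ⟨0, fun H _ => ?_⟩
        have h1 : {c : Fin (m + 3) → 𝓞 k | (∀ i j, |B.repr (c i) j| ≤ (H : ℤ)) ∧
            Nob (Sum.inl false) c} = ∅ := by
          ext c
          rw [Set.mem_setOf_eq, Set.mem_empty_iff_false, iff_false]
          rintro ⟨-, h2, -⟩
          exact hm2 h2
        rw [h1, Set.ncard_empty, Nat.cast_zero]
        positivity
    · refine densG_one B (I := Fin (m + 3)) (RingHom.id (𝓞 k)) hδ0 hδ1 2
        (fun p _ _ => {c | (pol c).natDegree = m + 2 ∧ Irreducible (pol c)}) ?_ hη'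
      intro p _ σ hp
      rw [Fintype.card_fin]
      have h1 := card_irr2 p (n := m + 2) (by omega)
      refine le_trans ?_ h1
      exact mul_le_mul_of_nonneg_right (d3 m) (by positivity)
    · by_cases ha : ∃ π ∈ T, xp a π ≠ 0
      · obtain ⟨π0, hπ0, hne⟩ := ha
        have hlt : xp a π0 < ℓ := by
          unfold xp
          rw [dif_pos hπ0]
          exact (a ⟨π0, hπ0⟩).2
        have hco : Nat.Coprime (xp a π0) ℓ := by
          rw [Nat.coprime_comm, hℓ.coprime_iff_not_dvd]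
          exact Nat.not_dvd_of_pos_of_lt (Nat.pos_of_ne_zero hne) hlt
        obtain ⟨k', _, _, ι, p0, hk'⟩ := hk (xp a) ⟨π0, hπ0, hco⟩
        obtain ⟨H0, hH0⟩ := dens_s B hℓ hζ' (f (xp a)) ι p0 hk' m hη'
        refine ⟨H0, fun H hH => le_trans ?_ (hH0 H hH)⟩
        have h1 : {c : Fin (m + 3) → 𝓞 k | (∀ i j, |B.repr (c i) j| ≤ (H : ℤ)) ∧
            Nob (Sum.inr a) c}.ncard ≤
            {c : Fin (m + 3) → 𝓞 k | (∀ i j, |B.repr (c i) j| ≤ (H : ℤ)) ∧
              ∀ (p : ℕ) [Fact p.Prime] (σ : 𝓞 k →+* ℤ_[p]),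
                ¬ PObs ℓ ((f (xp a)).map (red σ)) (fun j => red σ (c j))}.ncard := by
          refine Set.ncard_le_ncard ?_ ((box_fin B H).subset fun c hc => hc.1)
          rintro c ⟨hc1, hc2⟩
          exact ⟨hc1, hc2.2⟩
        exact_mod_cast h1
      · refine ⟨0, fun H _ => ?_⟩
        have h1 : {c : Fin (m + 3) → 𝓞 k | (∀ i j, |B.repr (c i) j| ≤ (H : ℤ)) ∧
            Nob (Sum.inr a) c} = ∅ := by
          ext c
          rw [Set.mem_setOf_eq, Set.mem_empty_iff_false, iff_false]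
          rintro ⟨-, h2, -⟩
          exact ha h2
        rw [h1, Set.ncard_empty, Nat.cast_zero]
        positivity
  obtain ⟨H0, hH0⟩ := combine B Finset.univ Nob hdens hη
  refine ⟨H0, fun H hH => ?_⟩
  have hfin := hH0 H hH {c : Fin (m + 3) → 𝓞 k | (∀ i j, |B.repr (c i) j| ≤ (H : ℤ)) ∧
        ¬ Jac.ShaPrimaryTrivial ℓ (C (algebraMap k[X] (RatFunc k)
          (pol fun j => algebraMap (𝓞 k) k (c j))) * F) k[X]} ?_
  · rw [Fintype.card_fin] at hfin
    exact hfin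
  rintro c ⟨hbox, hnot⟩
  refine ⟨hbox, ?_⟩
  by_contra hall
  push Not at hall
  apply hnot
  -- the irreducibility
  have hA := hall (Sum.inl true) (Finset.mem_univ _)
  have hA' : ∃ (p : ℕ) (_ : Fact p.Prime) (σ : 𝓞 k →+* ℤ_[p]),
      (pol fun j => red σ (c j)).natDegree = m + 2 ∧ Irreducible (pol fun j => red σ (c j)) := by
    by_contra hcon
    push Not at hcon
    apply hA
    intro p hp σ _ hmem
    exact hcon p hp _ hmem.1 hmem.2
  obtain ⟨p, hp, σ, hirr⟩ := hA'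
  have hD : Irreducible (pol fun j => algebraMap (𝓞 k) k (c j)) :=
    irr_of_red σ (by omega) c hirr.1 hirr.2
  have hDd : (pol fun j => algebraMap (𝓞 k) k (c j)).natDegree = m + 2 := by
    refine le_antisymm (pol_degree _) ?_
    have h1 : ((pol fun j => c j).map (red σ)).natDegree = m + 2 := by
      rw [pol_map]; exact hirr.1
    have h2 : ((pol fun j => c j).map (red σ)).natDegree ≤ (pol fun j => c j).natDegree :=
      natDegree_map_le
    have h3 : (pol fun j => algebraMap (𝓞 k) k (c j)) =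
        (pol fun j => c j).map (algebraMap (𝓞 k) k) := by rw [pol_map]
    rw [h3, natDegree_map_eq_of_injective (FaithfulSMul.algebraMap_injective _ _)]
    omega
  obtain ⟨h1, h2⟩ := all_obsL (T := T) hℓ hD f e he hf (by
    intro a hne
    have hS := hall (Sum.inr a) (Finset.mem_univ _)
    by_contra hcon
    push Not at hcon
    exact hS ⟨hne, fun p hp σ => hcon p hp σ⟩)
  refine hcrit _ hD ?_ h1 h2
  intro b hb
  by_cases hm2 : 1 ≤ m
  swap
  · refine SE.const_stable hℓ hD ?_ hb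
    rw [hDd]
    intro hd
    have e1 : m + 2 = 2 := by omega
    rw [e1] at hd
    exact hn3 e1 ((Nat.prime_dvd_prime_iff_eq hℓ Nat.prime_two).1 hd)
  have hB := hall (Sum.inl false) (Finset.mem_univ _)
  have hB' : ∃ (p : ℕ) (_ : Fact p.Prime) (σ : 𝓞 k →+* ℤ_[p]) (r : ZMod p) (g : (ZMod p)[X]),
      (pol fun j => red σ (c j)) = (X - C r) * g ∧ g.natDegree = m + 1 ∧ Irreducible g := by
    by_contra hcon
    push Not at hcon
    apply hB
    refine ⟨hm2, ?_⟩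
    intro p hp σ _ hmem
    obtain ⟨r, g, hg1, hg2, hg3⟩ := hmem
    exact hcon p hp _ r g hg1 hg2 hg3
  obtain ⟨p, hp, σ, r, g, hg1, hg2, hg3⟩ := hB'
  have h3 : (pol fun j => σ (c j)).map (PadicInt.toZMod (p := p)) = (X - C r) * g := by
    rw [pol_map]
    exact hg1
  obtain ⟨ρ, G, hG1, hG2, hG3⟩ := fac_padic (f := pol fun j => σ (c j)) (m := m + 1)
    (pol_degree _) r g hg3 hg2 (by omega) h3
  refine const_of_facL hℓ (ext σ) (hζ.map_of_injective (ext σ).injective) hDd (by omega) hG1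
    hG2 (ρ := ρ) ?_ hb
  rw [← hG3, pol_map, pol_map]
  congr 1
  funext j
  exact ext_alg σ (c j)

end Pool.Agent.R431.SG
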